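import Pool.Agent.Helper575.NP12

open MeasureTheory Set Filter Topology Real
open scoped ENNReal

namespace Pool.Agent.L5helper94.TF

open Helper575.NP

variable {H : ℝ → ℝ} {r R : ℝ} {l l' : ℤ → ℝ}

open Classical in
/-- index of the last point at or before `y` -/
noncomputable def idx (l : ℤ → ℝ) (y : ℝ) : ℤ :=
  if h : ∃ k : ℤ, l k ≤ y ∧ y < l (k + 1) then h.choose else 0

theorem idx_spec (hr : 0 < r) (h : TS H r R l) (y : ℝ) : l (idx l y) ≤ y ∧ y < l (idx l y + 1) := by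
  have he := h.exists_near hr y
  unfold idx
  rw [dif_pos he]
  exact he.choose_spec

theorem le_idx_iff (hr : 0 < r) (h : TS H r R l) (n : ℤ) (y : ℝ) : l n ≤ y ↔ n ≤ idx l y := by
  obtain ⟨h1, h2⟩ := idx_spec hr h y
  have hm := h.mono hr
  constructor
  · intro hn
    have : l n < l (idx l y + 1) := hn.trans_lt h2
    have := hm.lt_iff_lt.1 this
    omega
  · intro hn
    exact (hm.monotone hn).trans h1

theorem idx_mono (hr : 0 < r) (h : TS H r R l) : Monotone (idx l) := by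
  intro x y hxy
  rw [← le_idx_iff hr h]
  exact (idx_spec hr h x).1.trans hxy

/-- signed indicator of the interval between `l n` and `l' n` -/
noncomputable def un (l l' : ℤ → ℝ) (n : ℤ) (y : ℝ) : ℝ :=
  (if l n ≤ y then 1 else 0) - (if l' n ≤ y then 1 else 0)

/-- the discrepancy -/
noncomputable def UU (l l' : ℤ → ℝ) (y : ℝ) : ℝ := ((idx l y : ℤ) : ℝ) - ((idx l' y : ℤ) : ℝ)

theorem un_meas (l l' : ℤ → ℝ) (n : ℤ) : Measurable (un l l' n) := by
  unfold un
  refine Measurable.sub ?_ ?_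
  · exact Measurable.ite measurableSet_Ici measurable_const measurable_const
  · exact Measurable.ite measurableSet_Ici measurable_const measurable_const

theorem UU_meas (hr : 0 < r) (h : TS H r R l) (h' : TS H r R l') : Measurable (UU l l') := by
  unfold UU
  have h1 : Monotone (fun y => ((idx l y : ℤ) : ℝ)) := fun x y hxy =>
    Int.cast_le.2 (idx_mono hr h hxy)
  have h2 : Monotone (fun y => ((idx l' y : ℤ) : ℝ)) := fun x y hxy =>
    Int.cast_le.2 (idx_mono hr h' hxy)
  exact h1.measurable.sub h2.measurable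

theorem hasSum_step (a b : ℤ) :
    HasSum (fun n : ℤ => (if n ≤ a then (1:ℝ) else 0) - (if n ≤ b then 1 else 0)) ((a:ℝ) - b) ∧
    HasSum (fun n : ℤ => |(if n ≤ a then (1:ℝ) else 0) - (if n ≤ b then 1 else 0)|) |(a:ℝ) - b| := by
  rcases le_total b a with hab | hab
  · have hval : ∀ n : ℤ, (if n ≤ a then (1:ℝ) else 0) - (if n ≤ b then 1 else 0)
        = if n ∈ Finset.Ioc b a then 1 else 0 := by
      intro n
      by_cases h1 : n ≤ a <;> by_cases h2 : n ≤ b
      · rw [if_pos h1, if_pos h2, if_neg (by rw [Finset.mem_Ioc]; omega)]; ring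
      · rw [if_pos h1, if_neg h2, if_pos (by rw [Finset.mem_Ioc]; omega)]; ring
      · omega
      · rw [if_neg h1, if_neg h2, if_neg (by rw [Finset.mem_Ioc]; omega)]; ring
    have hs : HasSum (fun n : ℤ => if n ∈ Finset.Ioc b a then (1:ℝ) else 0) ((a:ℝ) - b) := by
      have h := hasSum_sum_of_ne_finset_zero (L := SummationFilter.unconditional ℤ)
        (s := Finset.Ioc b a) (f := fun n : ℤ => if n ∈ Finset.Ioc b a then (1:ℝ) else 0)
        (fun n hn => by simp only [hn, if_false])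
      rw [Finset.sum_ite_mem, Finset.inter_self, Finset.sum_const, Int.card_Ioc, nsmul_eq_mul,
        mul_one] at h
      have e : (((a - b).toNat : ℕ) : ℝ) = (a:ℝ) - b := by
        have : (((a - b).toNat : ℕ) : ℤ) = a - b := Int.toNat_of_nonneg (by omega)
        exact_mod_cast this
      rwa [e] at h
    constructor
    · simp only [hval]; exact hs
    · have h0 : (0:ℝ) ≤ (a:ℝ) - b := by
        have : (b:ℝ) ≤ a := by exact_mod_cast hab
        linarith
      rw [abs_of_nonneg h0]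
      refine hs.congr_fun ?_ |> id
      intro n
      rw [hval n]
      split_ifs <;> simp
  · have hval : ∀ n : ℤ, (if n ≤ a then (1:ℝ) else 0) - (if n ≤ b then 1 else 0)
        = -(if n ∈ Finset.Ioc a b then 1 else 0) := by
      intro n
      by_cases h1 : n ≤ a <;> by_cases h2 : n ≤ b
      · rw [if_pos h1, if_pos h2, if_neg (by rw [Finset.mem_Ioc]; omega)]; ring
      · omega
      · rw [if_neg h1, if_pos h2, if_pos (by rw [Finset.mem_Ioc]; omega)]; ring
      · rw [if_neg h1, if_neg h2, if_neg (by rw [Finset.mem_Ioc]; omega)]; ring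
    have hs : HasSum (fun n : ℤ => if n ∈ Finset.Ioc a b then (1:ℝ) else 0) ((b:ℝ) - a) := by
      have h := hasSum_sum_of_ne_finset_zero (L := SummationFilter.unconditional ℤ)
        (s := Finset.Ioc a b) (f := fun n : ℤ => if n ∈ Finset.Ioc a b then (1:ℝ) else 0)
        (fun n hn => by simp only [hn, if_false])
      rw [Finset.sum_ite_mem, Finset.inter_self, Finset.sum_const, Int.card_Ioc, nsmul_eq_mul,
        mul_one] at h
      have e : (((b - a).toNat : ℕ) : ℝ) = (b:ℝ) - a := by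
        have : (((b - a).toNat : ℕ) : ℤ) = b - a := Int.toNat_of_nonneg (by omega)
        exact_mod_cast this
      rwa [e] at h
    constructor
    · simp only [hval]
      have := hs.neg
      rwa [neg_sub] at this
    · have h0 : (a:ℝ) - b ≤ 0 := by
        have : (a:ℝ) ≤ b := by exact_mod_cast hab
        linarith
      rw [abs_of_nonpos h0, neg_sub]
      refine hs.congr_fun ?_ |> id
      intro n
      rw [hval n]
      split_ifs <;> simp

theorem un_eq (hr : 0 < r) (h : TS H r R l) (h' : TS H r R l') (n : ℤ) (y : ℝ) :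
    un l l' n y = (if n ≤ idx l y then (1:ℝ) else 0) - (if n ≤ idx l' y then 1 else 0) := by
  unfold un
  simp only [le_idx_iff hr h, le_idx_iff hr h']

theorem hasSum_un (hr : 0 < r) (h : TS H r R l) (h' : TS H r R l') (y : ℝ) :
    HasSum (fun n => un l l' n y) (UU l l' y) ∧
    HasSum (fun n => |un l l' n y|) |UU l l' y| := by
  simp only [un_eq hr h h', UU]
  exact hasSum_step _ _

/-- sums of functions with quadratic decay -/
theorem sum_decay2 {H : ℝ → ℝ} (hr : 0 < r) (h : TS H r R l) {C : ℝ}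
    {g : ℝ → ℂ} (hg : ∀ x, ‖g x‖ ≤ C / (1 + |x|) ^ 2) (x : ℝ) :
    Summable (fun n : ℤ => g (x - l n)) ∧ ‖∑' n : ℤ, g (x - l n)‖ ≤
      C / (min 1 r / 2) ^ 2 * ∑' j : ℤ, 1 / (1 + |(j:ℝ)|) ^ 2 := by
  obtain ⟨k, hk⟩ := h.near_bound hr x
  set c := min 1 r / 2 with hc
  have hc0 : 0 < c := by
    have : 0 < min 1 r := lt_min one_pos hr
    positivity
  have hC : 0 ≤ C := by
    have := (norm_nonneg _).trans (hg 0)
    simpa using this
  have hbd : ∀ n : ℤ, ‖g (x - l n)‖ ≤ C / c ^ 2 * (1 / (1 + |((n - k : ℤ) : ℝ)|) ^ 2) := by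
    intro n
    refine (hg _).trans ?_
    have h1 : (c * (1 + |((n - k : ℤ) : ℝ)|)) ^ 2 ≤ (1 + |x - l n|) ^ 2 :=
      pow_le_pow_left₀ (by positivity) (hk n) 2
    rw [mul_pow] at h1
    rw [div_mul_div_comm, mul_one]
    exact div_le_div_of_nonneg_left hC (by positivity) h1
  have hs := summable_inv_pow (k := 2) (by norm_num)
  have hsh : HasSum (fun n : ℤ => 1 / (1 + |((n - k : ℤ) : ℝ)|) ^ 2)
      (∑' j : ℤ, 1 / (1 + |(j:ℝ)|) ^ 2) :=
    (Equiv.subRight k).hasSum_iff (f := fun n : ℤ => 1 / (1 + |(n:ℝ)|) ^ 2) |>.2 hs.hasSum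
  have h2 := hsh.mul_left (C / c ^ 2)
  have h3 : Summable (fun n : ℤ => ‖g (x - l n)‖) :=
    Summable.of_nonneg_of_le (fun n => norm_nonneg _) hbd h2.summable
  exact ⟨h3.of_norm, (norm_tsum_le_tsum_norm h3).trans (hasSum_le hbd h3.hasSum h2)⟩

theorem decay4 : ∃ C : ℝ, 0 < C ∧ ∀ x : ℝ, ‖psS x‖ ≤ C / (1 + |x|) ^ 4 := by
  obtain ⟨C0, h0, hb0⟩ := psS.decay 0 0
  obtain ⟨C3, h3, hb3⟩ := psS.decay 4 0
  refine ⟨16 * (C0 + C3), by positivity, fun x => ?_⟩
  have e0 := hb0 x
  have e3 := hb3 x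
  rw [norm_iteratedFDeriv_zero] at e0 e3
  rw [pow_zero, one_mul] at e0
  rw [le_div_iff₀ (by positivity)]
  rw [Real.norm_eq_abs] at e3
  have hN := norm_nonneg (psS x)
  set N := ‖psS x‖
  have hx := abs_nonneg x
  have key : (1 + |x|) ^ 4 ≤ 16 * (1 + |x| ^ 4) := by
    rcases le_total |x| 1 with h | h
    · have : (1 + |x|) ^ 4 ≤ 2 ^ 4 := pow_le_pow_left₀ (by positivity) (by linarith) 4
      have : 0 ≤ |x| ^ 4 := by positivity
      linarith
    · have : (1 + |x|) ^ 4 ≤ (2 * |x|) ^ 4 := pow_le_pow_left₀ (by positivity) (by linarith) 4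
      rw [mul_pow] at this
      linarith
  calc N * (1 + |x|) ^ 4 ≤ N * (16 * (1 + |x| ^ 4)) := mul_le_mul_of_nonneg_left key hN
    _ = 16 * (N + |x| ^ 4 * N) := by ring
    _ ≤ 16 * (C0 + C3) := by linarith

/-- the tail primitive -/
noncomputable def eps (φ : ℝ → ℂ) (t : ℝ) : ℂ :=
  if 0 ≤ t then -∫ s in Ioi t, φ s else ∫ s in Iic t, φ s

theorem eps_bound {φ : ℝ → ℂ} {C : ℝ} (hC : 0 ≤ C) (hφ : Continuous φ)
    (hb : ∀ t, ‖φ t‖ ≤ C / (1 + |t|) ^ 4) (t : ℝ) : ‖eps φ t‖ ≤ (C * π) / (1 + |t|) ^ 2 := by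
  have hI : Integrable (fun s : ℝ => C / (1 + |t|) ^ 2 * (1 + s ^ 2)⁻¹) :=
    integrable_inv_one_add_sq.const_mul _
  have key : ∀ S : Set ℝ, MeasurableSet S → (∀ s ∈ S, |t| ≤ |s|) →
      ‖∫ s in S, φ s‖ ≤ (C * π) / (1 + |t|) ^ 2 := by
    intro S hS hs
    have h1 : ‖∫ s in S, φ s‖ ≤ ∫ s in S, C / (1 + |t|) ^ 2 * (1 + s ^ 2)⁻¹ := by
      refine norm_integral_le_of_norm_le hI.integrableOn ?_
      rw [ae_restrict_iff' hS]
      refine Eventually.of_forall fun s hs' => ?_
      refine (hb s).trans ?_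
      have h2 := hs s hs'
      rw [← div_eq_mul_inv, div_div]
      apply div_le_div_of_nonneg_left hC (by positivity)
      have h3 : (1 + |t|) ^ 2 ≤ (1 + |s|) ^ 2 := pow_le_pow_left₀ (by positivity) (by linarith) 2
      have h4 : 1 + s ^ 2 ≤ (1 + |s|) ^ 2 := by
        rw [← sq_abs s]; nlinarith [abs_nonneg s]
      calc (1 + |t|) ^ 2 * (1 + s ^ 2) ≤ (1 + |s|) ^ 2 * (1 + |s|) ^ 2 :=
            mul_le_mul h3 h4 (by positivity) (by positivity)
        _ = (1 + |s|) ^ 4 := by ring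
    refine h1.trans ?_
    have h5 : ∫ s in S, C / (1 + |t|) ^ 2 * (1 + s ^ 2)⁻¹ ≤ ∫ s : ℝ, C / (1 + |t|) ^ 2 * (1 + s ^ 2)⁻¹ :=
      setIntegral_le_integral hI (Eventually.of_forall fun s => by positivity)
    refine h5.trans (le_of_eq ?_)
    rw [integral_const_mul, integral_univ_inv_one_add_sq]
    ring
  unfold eps
  split_ifs with h
  · rw [norm_neg]
    refine key _ measurableSet_Ioi (fun s hs => ?_)
    have hs' : t < s := hs
    rw [abs_of_nonneg h, abs_of_nonneg (h.trans hs'.le)]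
    exact hs'.le
  · push Not at h
    refine key _ measurableSet_Iic (fun s hs => ?_)
    have hs' : s ≤ t := hs
    rw [abs_of_neg h, abs_of_nonpos (hs'.trans h.le)]
    linarith

theorem eps_interval {φ : ℝ → ℂ} (hφ : Integrable φ) (u v : ℝ) :
    ∫ t in u..v, φ t = (eps φ v + if 0 ≤ v then ∫ t, φ t else 0) -
      (eps φ u + if 0 ≤ u then ∫ t, φ t else 0) := by
  have key : ∀ v : ℝ, (eps φ v + if 0 ≤ v then ∫ t, φ t else 0) = ∫ t in Iic v, φ t := by
    intro v
    unfold eps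
    split_ifs with h
    · have := intervalIntegral.integral_Iic_add_Ioi (f := φ) (b := v) (μ := volume)
        hφ.integrableOn hφ.integrableOn
      rw [← this]; ring
    · rw [add_zero]
  rw [key, key, intervalIntegral.integral_Iic_sub_Iic hφ.integrableOn hφ.integrableOn]

/-- the discrepancy is bounded -/
theorem UU_bdd {μ : Measure ℝ} [IsFiniteMeasure μ] (hr : 0 < r) (hμ : 0 < μ.real univ)
    (h : TS (Hm μ) r R l) (h' : TS (Hm μ) r R l') : ∃ M : ℝ, 0 < M ∧ ∀ y, |UU l l' y| ≤ M := by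
  obtain ⟨C, hC, hmod⟩ := VS_modulus
  obtain ⟨a, ha, hsc⟩ := exists_scale hμ C
  obtain ⟨Cp, hCp, hdec⟩ := decay4
  set φ : ℝ → ℂ := fun t => psS (a * t) with hφd
  have hφc : Continuous φ := by rw [hφd]; exact psS.continuous.comp (by fun_prop)
  set C4 := Cp / (min 1 a) ^ 4 with hC4
  have hm : 0 < min 1 a := lt_min one_pos ha
  have hC40 : 0 < C4 := by positivity
  have hb : ∀ t : ℝ, ‖φ t‖ ≤ C4 / (1 + |t|) ^ 4 := by
    intro t
    refine (hdec _).trans ?_
    rw [hC4, div_div, ← mul_pow]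
    apply div_le_div_of_nonneg_left hCp.le (by positivity)
    apply pow_le_pow_left₀ (by positivity)
    rw [abs_mul, abs_of_pos ha]
    have m1 : min 1 a ≤ 1 := min_le_left _ _
    have m2 : min 1 a * |t| ≤ a * |t| :=
      mul_le_mul_of_nonneg_right (min_le_right _ _) (abs_nonneg _)
    linarith
  have hb3 : ∀ t : ℝ, ‖φ t‖ ≤ C4 / (1 + |t|) ^ 3 := by
    intro t
    refine (hb t).trans ?_
    apply div_le_div_of_nonneg_left hC40.le (by positivity)
    apply pow_le_pow_right₀ (by have := abs_nonneg t; linarith) (by norm_num)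
  have hgap : ∀ l : ℤ → ℝ, TS (Hm μ) r R l → ∀ x,
      HasSum (fun n : ℤ => φ (x - l n)) ((1 / (a * μ.real univ) : ℝ) : ℂ) := by
    intro l hl x
    have := gap hr hl hμ hmod ha hsc (a * x)
    have e : ∀ n, a * (x - l n) = a * x - a * l n := fun n => by ring
    simp only [hφd, e]
    exact this
  have hφi : Integrable φ := psS.integrable.comp_mul_left' ha.ne'
  set J := ∫ t, φ t with hJ
  have hJ0 : J ≠ 0 := by
    have h1 : J = (a⁻¹ : ℝ) • ∫ s, psS s := by
      rw [hJ, hφd]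
      have := Measure.integral_comp_mul_left (fun s : ℝ => psS s) a
      rw [abs_of_pos (inv_pos.2 ha)] at this
      exact this
    rw [h1, integral_psS, Complex.real_smul, mul_one, Ne, Complex.ofReal_eq_zero]
    positivity
  set B := (C4 * π) / (min 1 r / 2) ^ 2 * ∑' j : ℤ, 1 / (1 + |(j:ℝ)|) ^ 2 with hB
  have hterm : ∀ (k : ℤ) (y : ℝ), ∫ t in (y - l k)..(y - l' k), φ t =
      eps φ (y - l' k) - eps φ (y - l k) - J * (un l l' k y : ℝ) := by
    intro k y
    rw [eps_interval hφi, ← hJ]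
    unfold un
    simp only [sub_nonneg]
    by_cases h1 : l k ≤ y <;> by_cases h2 : l' k ≤ y <;> simp only [h1, h2, if_true, if_false] <;>
      push_cast <;> ring
  have hS : ∀ y, HasSum (fun k => ∫ t in (y - l k)..(y - l' k), φ t)
      ((∑' k, eps φ (y - l' k)) - (∑' k, eps φ (y - l k)) - J * ((UU l l' y : ℝ) : ℂ)) := by
    intro y
    simp only [hterm]
    have e1 := (sum_decay2 hr h' (eps_bound hC40.le hφc hb) y).1.hasSum
    have e2 := (sum_decay2 hr h (eps_bound hC40.le hφc hb) y).1.hasSum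
    have e3 := (Complex.hasSum_ofReal.2 (hasSum_un hr h h' y).1).mul_left J
    exact (e1.sub e2).sub e3
  have hB' : ∀ (l : ℤ → ℝ), TS (Hm μ) r R l → ∀ y, ‖∑' k, eps φ (y - l k)‖ ≤ B := fun l hl y =>
    (sum_decay2 hr hl (eps_bound hC40.le hφc hb) y).2
  have hB0 : 0 ≤ B := (norm_nonneg _).trans (hB' l h 0)
  have hfin : ∀ y, ‖J‖ * |UU l l' y| ≤ ‖J‖ * |UU l l' 0| + 4 * B := by
    intro y
    have h1 := (flux_diff hr hφc hb3 h h' (hgap l h) (hgap l' h') 0 y).unique
      ((hS y).sub (hS 0))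
    have h2 : J * ((UU l l' y : ℝ) : ℂ) = J * ((UU l l' 0 : ℝ) : ℂ) +
        ((∑' k, eps φ (y - l' k)) - (∑' k, eps φ (y - l k)) -
        ((∑' k, eps φ (0 - l' k)) - (∑' k, eps φ (0 - l k)))) := by
      linear_combination h1
    have h3 : ‖J * ((UU l l' y : ℝ) : ℂ)‖ = ‖J‖ * |UU l l' y| := by
      rw [norm_mul, Complex.norm_real, Real.norm_eq_abs]
    have h4 : ‖J * ((UU l l' 0 : ℝ) : ℂ)‖ = ‖J‖ * |UU l l' 0| := by
      rw [norm_mul, Complex.norm_real, Real.norm_eq_abs]
    rw [← h3, h2]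
    refine (norm_add_le _ _).trans ?_
    rw [h4]
    have b1 := hB' l' h' y
    have b2 := hB' l h y
    have b3 := hB' l' h' 0
    have b4 := hB' l h 0
    have c1 := norm_sub_le ((∑' k, eps φ (y - l' k)) - (∑' k, eps φ (y - l k)))
      ((∑' k, eps φ (0 - l' k)) - (∑' k, eps φ (0 - l k)))
    have c2 := norm_sub_le (∑' k, eps φ (y - l' k)) (∑' k, eps φ (y - l k))
    have c3 := norm_sub_le (∑' k, eps φ (0 - l' k)) (∑' k, eps φ (0 - l k))
    linarith
  have hJn : 0 < ‖J‖ := norm_pos_iff.2 hJ0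
  refine ⟨|UU l l' 0| + 4 * B / ‖J‖ + 1, by positivity, fun y => ?_⟩
  have h1 := hfin y
  have h2 : ‖J‖ * |UU l l' y| ≤ ‖J‖ * (|UU l l' 0| + 4 * B / ‖J‖) := by
    refine h1.trans (le_of_eq ?_)
    field_simp
  have := le_of_mul_le_mul_left h2 hJn
  linarith

end Pool.Agent.L5helper94.TF
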