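import Pool.Agent.L5helper94.TF.Vanish
import Pool.Agent.Helper575.NP11

open MeasureTheory Set Filter Topology Real
open scoped ENNReal FourierTransform

namespace Pool.Agent.L5helper94.TF

open Helper575.NP

/-- the scaled reproducing kernel -/
noncomputable def Va (a : ℝ) (t : ℝ) : ℂ := (a : ℂ) * VS (a * t)

theorem Va_cont (a : ℝ) : Continuous (Va a) := by
  unfold Va
  exact continuous_const.mul (VS.continuous.comp (by fun_prop))

theorem Va_int {a : ℝ} (ha : 0 < a) : Integrable (Va a) :=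
  (VS.integrable.comp_mul_left' ha.ne').const_mul _

theorem Va_fourier {a : ℝ} (ha : 0 < a) (ω : ℝ) (hω : |ω| ≤ 4 * π * a) :
    ∫ t, Va a t * Complex.exp (-(ω * t * Complex.I)) = 1 := by
  have h1 : ∫ t, Va a t * Complex.exp (-(ω * t * Complex.I))
      = ∫ t : ℝ, (fun s : ℝ => (a : ℂ) * (VS s * Complex.exp (-((ω / a : ℝ) * s * Complex.I)))) (a * t) := by
    refine integral_congr_ae (Eventually.of_forall fun t => ?_)
    simp only [Va]
    rw [mul_assoc]
    congr 3
    push_cast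
    have : (a : ℂ) ≠ 0 := by exact_mod_cast ha.ne'
    field_simp
  refine h1.trans ((Measure.integral_comp_mul_left (fun s : ℝ => (a : ℂ) *
    (VS s * Complex.exp (-((ω / a : ℝ) * s * Complex.I)))) a).trans ?_)
  rw [integral_const_mul, abs_of_pos (inv_pos.2 ha)]
  have h2 : ∫ s : ℝ, VS s * Complex.exp (-((ω / a : ℝ) * s * Complex.I)) = 𝓕 (VS : ℝ → ℂ) (ω / a / (2 * π)) := by
    rw [Real.fourier_eq']
    refine integral_congr_ae (Eventually.of_forall fun t => ?_)
    simp only [smul_eq_mul]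
    rw [mul_comm]
    congr 2
    have hp : (π : ℂ) ≠ 0 := by exact_mod_cast Real.pi_ne_zero
    have hin : inner ℝ t (ω / a / (2 * π)) = ω / a / (2 * π) * t := by
      simp
    rw [hin]
    push_cast
    field_simp
  rw [h2, ← SchwartzMap.fourier_coe, fourier_VS, bumpS_apply, bumpA.one_of_mem_closedBall]
  · have : (a : ℂ) ≠ 0 := by exact_mod_cast ha.ne'
    simp [this]
  · simp only [Metric.mem_closedBall, dist_zero_right, Real.norm_eq_abs]
    show |ω / a / (2 * π)| ≤ 2
    rw [abs_div, abs_div, abs_of_pos ha, abs_of_pos (by positivity : (0:ℝ) < 2 * π), div_div,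
      div_le_iff₀ (by positivity)]
    linarith

theorem Va_modulus : ∃ C : ℝ, 0 < C ∧ ∀ a : ℝ, 0 < a → ∀ y : ℝ,
    ∫ t, ‖Va a t - Va a (t - y)‖ ≤ C * min 1 |a * y| := by
  obtain ⟨C, hC, h⟩ := VS_modulus
  refine ⟨C, hC, fun a ha y => ?_⟩
  refine le_trans (le_of_eq ?_) (h (a * y))
  have h1 : ∫ t, ‖Va a t - Va a (t - y)‖ =
      ∫ t : ℝ, (fun s : ℝ => a * ‖VS s - VS (s - a * y)‖) (a * t) := by
    refine integral_congr_ae (Eventually.of_forall fun t => ?_)
    simp only [Va]
    rw [← mul_sub, norm_mul, Complex.norm_real, Real.norm_of_nonneg ha.le, mul_sub]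
  refine h1.trans ((Measure.integral_comp_mul_left (fun s : ℝ => a * ‖VS s - VS (s - a * y)‖) a).trans ?_)
  rw [integral_const_mul, abs_of_pos (inv_pos.2 ha), smul_eq_mul]
  field_simp

theorem modulus_meas (a : ℝ) : Measurable (fun y : ℝ => ∫ t, ‖Va a t - Va a (t - y)‖) := by
  have h : StronglyMeasurable (fun p : ℝ × ℝ => ‖Va a p.2 - Va a (p.2 - p.1)‖) := by
    refine Continuous.stronglyMeasurable ?_
    have := Va_cont a
    fun_prop
  exact (h.integral_prod_right (ν := volume)).measurable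

theorem kappa_int {f : ℝ → ℂ} (hf : Integrable f) {a : ℝ} (ha : 0 < a) :
    Integrable fun y => ‖f y‖ * ∫ t, ‖Va a t - Va a (t - y)‖ := by
  obtain ⟨C, hC, h⟩ := Va_modulus
  refine hf.norm.mul_bdd (c := C) (modulus_meas a).aestronglyMeasurable
    (Eventually.of_forall fun y => ?_)
  rw [Real.norm_of_nonneg (integral_nonneg fun t => norm_nonneg _)]
  refine (h a ha y).trans ?_
  have : min 1 |a * y| ≤ 1 := min_le_left _ _
  nlinarith

theorem exists_a {f : ℝ → ℂ} (hf : Integrable f) {κ : ℝ} (hκ : 0 < κ) :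
    ∃ a : ℝ, 0 < a ∧ ∫ y, ‖f y‖ * (∫ t, ‖Va a t - Va a (t - y)‖) ≤ κ := by
  obtain ⟨C, hC, h⟩ := Va_modulus
  have ht : Tendsto (fun n : ℕ => ∫ y, ‖f y‖ * (C * min 1 |(1 / ((n:ℝ) + 1)) * y|)) atTop
      (𝓝 (∫ y : ℝ, (0:ℝ))) := by
    apply tendsto_integral_of_dominated_convergence (fun y => ‖f y‖ * C)
    · intro n
      refine hf.norm.aestronglyMeasurable.mul ?_
      exact (by fun_prop : Continuous fun y : ℝ => C * min 1 |(1 / ((n:ℝ) + 1)) * y|).aestronglyMeasurable
    · exact hf.norm.mul_const _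
    · intro n
      refine Eventually.of_forall (fun y => ?_)
      have h0 : 0 ≤ min 1 |(1 / ((n:ℝ) + 1)) * y| := le_min zero_le_one (abs_nonneg _)
      have h1 : min 1 |(1 / ((n:ℝ) + 1)) * y| ≤ 1 := min_le_left _ _
      rw [norm_mul, norm_norm, Real.norm_of_nonneg (by positivity)]
      gcongr
      nlinarith
    · refine Eventually.of_forall (fun y => ?_)
      have h1 : Tendsto (fun n : ℕ => |(1 / ((n:ℝ) + 1)) * y|) atTop (𝓝 |0 * y|) :=
        (tendsto_one_div_add_atTop_nhds_zero_nat.mul_const y).abs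
      have h2 := (((tendsto_const_nhds (x := (1:ℝ))).min h1).const_mul C).const_mul ‖f y‖
      simpa using h2
  rw [integral_zero] at ht
  obtain ⟨n, hn⟩ := (ht.eventually (ge_mem_nhds hκ)).exists
  have ha : 0 < 1 / ((n:ℝ) + 1) := by positivity
  refine ⟨1 / ((n:ℝ) + 1), ha, le_trans ?_ hn⟩
  apply integral_mono (kappa_int hf ha)
  · refine hf.norm.mul_bdd (c := C) ?_ (Eventually.of_forall fun y => ?_)
    · exact (by fun_prop : Continuous fun y : ℝ => C * min 1 |(1 / ((n:ℝ) + 1)) * y|).aestronglyMeasurable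
    · have h0 : 0 ≤ min 1 |(1 / ((n:ℝ) + 1)) * y| := le_min zero_le_one (abs_nonneg _)
      have h1 : min 1 |(1 / ((n:ℝ) + 1)) * y| ≤ 1 := min_le_left _ _
      rw [Real.norm_of_nonneg (by positivity)]
      nlinarith
  · intro y
    exact mul_le_mul_of_nonneg_left (h _ ha y) (norm_nonneg _)

/-! the weights -/

theorem sinc_rep (b y : ℝ) : ((Real.sinc (b * y) : ℝ) : ℂ) =
    (1 / 2) * ∫ s in Icc (-1:ℝ) 1, Complex.exp (((b * s : ℝ) : ℂ) * y * Complex.I) := by
  have h := integral_exp_mul_I_eq_sinc (b * y)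
  by_cases hby : b * y = 0
  · have : ∀ s : ℝ, Complex.exp (((b * s : ℝ) : ℂ) * y * Complex.I) = 1 := by
      intro s
      rw [← Complex.exp_zero]
      congr 1
      have : ((b : ℂ) * y) = 0 := by exact_mod_cast hby
      push_cast
      linear_combination (s * Complex.I : ℂ) * this
    simp only [this, hby, Real.sinc_zero]
    simp
    norm_num
  · rw [integral_Icc_eq_integral_Ioc, ← intervalIntegral.integral_of_le (by norm_num)]
    have h2 : ∫ s in (-1:ℝ)..1, Complex.exp (((b * s : ℝ) : ℂ) * y * Complex.I)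
        = ∫ s in (-1:ℝ)..1, (fun t : ℝ => Complex.exp (t * Complex.I)) ((b * y) * s) := by
      congr 1
      ext s
      congr 1
      push_cast
      ring
    have h4 := intervalIntegral.integral_comp_mul_left (a := (-1:ℝ)) (b := 1)
      (fun t : ℝ => Complex.exp (t * Complex.I)) hby
    have h5 := h2.trans h4
    rw [h5]
    have h3 : ∫ t in b * y * -1..b * y * 1, Complex.exp (t * Complex.I)
      = ∫ t in -(b * y)..b * y, Complex.exp (t * Complex.I) := by
      congr 1 <;> ring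
    rw [h3, h]
    have : ((b * y : ℝ) : ℂ) ≠ 0 := by exact_mod_cast hby
    rw [Complex.real_smul]
    push_cast at this ⊢
    field_simp
    rw [mul_assoc, mul_div_assoc, div_self this, mul_one]

/-- reproducing property -/
theorem rep_pow {a b : ℝ} (ha : 0 < a) (hb : 0 < b) (j : ℕ) : ∀ ω : ℝ,
    |ω| + j * b ≤ 4 * π * a → ∀ y : ℝ,
    ∫ t, Va a t * (Complex.exp (ω * (y - t : ℝ) * Complex.I) * ((Real.sinc (b * (y - t)) : ℝ) : ℂ) ^ j)
      = Complex.exp (ω * y * Complex.I) * ((Real.sinc (b * y) : ℝ) : ℂ) ^ j := by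
  induction j with
  | zero =>
    intro ω hω y
    simp only [Nat.cast_zero, zero_mul, add_zero] at hω
    simp only [pow_zero, mul_one]
    have h1 : ∫ t, Va a t * Complex.exp (ω * (y - t : ℝ) * Complex.I)
        = ∫ t, Complex.exp (ω * y * Complex.I) * (Va a t * Complex.exp (-(ω * t * Complex.I))) := by
      refine integral_congr_ae (Eventually.of_forall fun t => ?_)
      simp only
      have : Complex.exp (ω * (y - t : ℝ) * Complex.I)
          = Complex.exp (ω * y * Complex.I) * Complex.exp (-(ω * t * Complex.I)) := by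
        rw [← Complex.exp_add]; congr 1; push_cast; ring
      rw [this]; ring
    rw [h1, integral_const_mul, Va_fourier ha ω hω, mul_one]
  | succ j ih =>
    intro ω hω y
    push_cast at hω
    have hs : ∀ s ∈ Icc (-1:ℝ) 1, |ω + b * s| + j * b ≤ 4 * π * a := by
      intro s hs
      have h1 : |b * s| ≤ b := by
        rw [abs_mul, abs_of_pos hb]
        have : |s| ≤ 1 := abs_le.2 hs
        nlinarith
      have := abs_add_le ω (b * s)
      linarith
    -- representation of the integrand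
    have hrep : ∀ z : ℝ, Complex.exp (ω * z * Complex.I) * ((Real.sinc (b * z) : ℝ) : ℂ) ^ (j + 1)
        = (1 / 2) * ∫ s in Icc (-1:ℝ) 1, Complex.exp ((ω + b * s : ℝ) * z * Complex.I) *
            ((Real.sinc (b * z) : ℝ) : ℂ) ^ j := by
      intro z
      rw [integral_mul_const, pow_succ]
      have h1 : ∫ s in Icc (-1:ℝ) 1, Complex.exp ((ω + b * s : ℝ) * z * Complex.I)
          = ∫ s in Icc (-1:ℝ) 1, Complex.exp (ω * z * Complex.I) *
            Complex.exp (((b * s : ℝ) : ℂ) * z * Complex.I) := by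
        refine integral_congr_ae (Eventually.of_forall fun s => ?_)
        simp only
        rw [← Complex.exp_add]; congr 1; push_cast; ring
      rw [h1, integral_const_mul]
      rw [show Complex.exp (ω * z * Complex.I) * (((Real.sinc (b * z) : ℝ) : ℂ) ^ j *
        ((Real.sinc (b * z) : ℝ) : ℂ)) = Complex.exp (ω * z * Complex.I) *
        ((Real.sinc (b * z) : ℝ) : ℂ) ^ j * ((Real.sinc (b * z) : ℝ) : ℂ) by ring]
      nth_rw 2 [sinc_rep b z]
      ring
    rw [hrep y]
    have h1 : ∫ t, Va a t * (Complex.exp (ω * (y - t : ℝ) * Complex.I) *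
        ((Real.sinc (b * (y - t)) : ℝ) : ℂ) ^ (j + 1))
        = ∫ t, (1 / 2) * ∫ s in Icc (-1:ℝ) 1, Va a t *
          (Complex.exp ((ω + b * s : ℝ) * (y - t : ℝ) * Complex.I) *
            ((Real.sinc (b * (y - t)) : ℝ) : ℂ) ^ j) := by
      refine integral_congr_ae (Eventually.of_forall fun t => ?_)
      simp only
      rw [hrep (y - t), integral_const_mul]
      ring
    rw [h1, integral_const_mul]
    congr 1
    have hint : Integrable (fun p : ℝ × ℝ => Va a p.1 *
          (Complex.exp ((ω + b * p.2 : ℝ) * (y - p.1 : ℝ) * Complex.I) *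
            ((Real.sinc (b * (y - p.1)) : ℝ) : ℂ) ^ j))
        ((volume : Measure ℝ).prod (volume.restrict (Icc (-1:ℝ) 1))) := by
      have h2 : Integrable (fun p : ℝ × ℝ => Va a p.1 * (1:ℂ))
          ((volume : Measure ℝ).prod (volume.restrict (Icc (-1:ℝ) 1))) :=
        (Va_int ha).mul_prod (integrable_const (1:ℂ))
      simp only [mul_one] at h2
      refine h2.mul_bdd (c := 1) ?_ (Eventually.of_forall fun p => ?_)
      · refine Continuous.aestronglyMeasurable ?_
        have := Real.continuous_sinc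
        fun_prop
      · rw [norm_mul, norm_pow, Complex.norm_real]
        have e1 : ‖Complex.exp ((ω + b * p.2 : ℝ) * (y - p.1 : ℝ) * Complex.I)‖ = 1 := by
          have := Complex.norm_exp_ofReal_mul_I ((ω + b * p.2) * (y - p.1))
          rw [← this]; congr 2; push_cast; ring
        rw [e1, one_mul]
        exact pow_le_one₀ (norm_nonneg _) (Real.abs_sinc_le_one _)
    rw [integral_integral_swap hint]
    refine setIntegral_congr_fun measurableSet_Icc (fun s hs' => ?_)
    exact ih (ω + b * s) (hs s hs') y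

/-- the weight -/
noncomputable def ps (β : ℝ) (k : ℕ) (y : ℝ) : ℝ := Real.sinc (β / k * y) ^ (2 * k)

theorem ps_nonneg (β : ℝ) (k : ℕ) (y : ℝ) : 0 ≤ ps β k y := by
  unfold ps; rw [pow_mul]; positivity

theorem ps_le_one (β : ℝ) (k : ℕ) (y : ℝ) : ps β k y ≤ 1 := by
  unfold ps
  rw [pow_mul]
  have : Real.sinc (β / k * y) ^ 2 ≤ 1 := by
    rw [sq_le_one_iff_abs_le_one]; exact Real.abs_sinc_le_one _
  exact pow_le_one₀ (sq_nonneg _) this

theorem ps_neg (β : ℝ) (k : ℕ) (y : ℝ) : ps β k (-y) = ps β k y := by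
  unfold ps; rw [mul_neg, Real.sinc_neg]

theorem ps_cont (β : ℝ) (k : ℕ) : Continuous (ps β k) := by
  unfold ps
  have := Real.continuous_sinc
  fun_prop

theorem sinc_sq_le {t : ℝ} (ht : t ≠ 0) : Real.sinc t ^ 2 ≤ 1 / t ^ 2 := by
  rw [Real.sinc_of_ne_zero ht, div_pow]
  have : 0 < t ^ 2 := by positivity
  rw [div_le_div_iff_of_pos_right this]
  exact Real.sin_sq_le_one t

theorem ps_le_sq {β : ℝ} (hβ : 0 < β) {k : ℕ} (hk : 1 ≤ k) {y : ℝ} (hy : y ≠ 0) :
    ps β k y ≤ 1 / (β / k * y) ^ 2 := by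
  have hk' : (0:ℝ) < k := by exact_mod_cast hk
  have ht : β / k * y ≠ 0 := by positivity
  refine le_trans ?_ (sinc_sq_le ht)
  unfold ps
  rw [pow_mul]
  have h1 : Real.sinc (β / k * y) ^ 2 ≤ 1 := by
    rw [sq_le_one_iff_abs_le_one]; exact Real.abs_sinc_le_one _
  exact pow_le_of_le_one (sq_nonneg _) h1 (by omega)

theorem ps_far {β : ℝ} (hβ : 0 < β) {k : ℕ} (hk : 1 ≤ k) {y : ℝ} (hy : 2 * k / β ≤ |y|) :
    ps β k y ≤ (1 / 4) ^ (k - 1) * (1 / (β / k * y) ^ 2) := by
  have hk' : (0:ℝ) < k := by exact_mod_cast hk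
  have hy0 : 0 < |y| := lt_of_lt_of_le (by positivity) hy
  have hy1 : y ≠ 0 := abs_pos.1 hy0
  have ht : β / k * y ≠ 0 := by positivity
  unfold ps
  obtain ⟨j, rfl⟩ : ∃ j, k = j + 1 := ⟨k - 1, by omega⟩
  rw [pow_mul, pow_succ, Nat.add_sub_cancel]
  have h2 : Real.sinc (β / ((j + 1 : ℕ) : ℝ) * y) ^ 2 ≤ 1 / (β / ((j + 1 : ℕ) : ℝ) * y) ^ 2 := sinc_sq_le ht
  have h3 : 1 / (β / ((j + 1 : ℕ) : ℝ) * y) ^ 2 ≤ 1 / 4 := by
    apply one_div_le_one_div_of_le (by norm_num)
    have h4 : 2 ≤ |β / ((j + 1 : ℕ) : ℝ) * y| := by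
      rw [abs_mul, abs_of_pos (by positivity)]
      rw [div_le_iff₀ hβ] at hy
      rw [div_mul_eq_mul_div, le_div_iff₀ hk']
      linarith
    rw [← sq_abs]
    nlinarith
  have h5 : 0 ≤ Real.sinc (β / ((j + 1 : ℕ) : ℝ) * y) ^ 2 := sq_nonneg _
  exact mul_le_mul (pow_le_pow_left₀ h5 (h2.trans h3) j) h2 h5 (by positivity)

theorem ps_bound {β : ℝ} (hβ : 0 < β) {k : ℕ} (hk : 1 ≤ k) (y : ℝ) :
    ps β k y ≤ (1 + (k / β) ^ 2) * (1 + y ^ 2)⁻¹ := by
  have hk' : (0:ℝ) < k := by exact_mod_cast hk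
  rw [← div_eq_mul_inv, le_div_iff₀ (by positivity)]
  by_cases hy : y = 0
  · subst hy
    have := ps_le_one β k 0
    have : 0 ≤ (k / β) ^ 2 := by positivity
    nlinarith
  · have h1 := ps_le_sq hβ hk hy
    have h2 := ps_le_one β k y
    have h3 : ps β k y * y ^ 2 ≤ (k / β) ^ 2 := by
      have : 1 / (β / k * y) ^ 2 * y ^ 2 = (k / β) ^ 2 := by field_simp
      rw [← this]
      exact mul_le_mul_of_nonneg_right h1 (sq_nonneg y)
    rw [mul_add, mul_one]
    linarith

theorem ps_int {β : ℝ} (hβ : 0 < β) {k : ℕ} (hk : 1 ≤ k) : Integrable (ps β k) := by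
  refine Integrable.mono' (integrable_inv_one_add_sq.const_mul (1 + (k / β) ^ 2))
    (ps_cont β k).aestronglyMeasurable (Eventually.of_forall fun y => ?_)
  rw [Real.norm_of_nonneg (ps_nonneg _ _ _)]
  exact ps_bound hβ hk y

theorem ps_rep {a β : ℝ} (ha : 0 < a) (hβ : 0 < β) (hβa : 2 * β ≤ 4 * π * a) {k : ℕ} (hk : 1 ≤ k)
    (y : ℝ) : ∫ t, Va a t * ((ps β k (y - t) : ℝ) : ℂ) = ((ps β k y : ℝ) : ℂ) := by
  have hk' : (0:ℝ) < k := by exact_mod_cast hk
  have := rep_pow ha (b := β / k) (by positivity) (2 * k) 0 (by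
    rw [abs_zero, zero_add]
    push_cast
    rw [mul_assoc, mul_div_cancel₀ _ hk'.ne']
    exact hβa) y
  simp only [Complex.ofReal_zero, zero_mul, Complex.exp_zero, one_mul] at this
  simp only [ps]
  push_cast
  exact this

end Pool.Agent.L5helper94.TF
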