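import Pool.Agent.L5helper94.TF.Window
import Pool.Agent.L5helper94.TF.Kernel
import Pool.Agent.L5helper94.TA.Trans

open MeasureTheory Set Filter Topology Real
open scoped ENNReal FourierTransform Convolution

namespace Pool.Agent.L5helper94.TF

open Helper575.NP

variable {Ω : Set ℝ} {r R ρ : ℝ} {l l' : ℤ → ℝ}

/-- complex indicator of the tile -/
noncomputable def fC (Ω : Set ℝ) (y : ℝ) : ℂ := ((fI Ω y : ℝ) : ℂ)

theorem fC_int (hΩ : MeasurableSet Ω) (h1 : volume Ω < ⊤) : Integrable (fC Ω) :=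
  (fI_int hΩ h1).ofReal

/-- the transform of a weight times the discrepancy -/
theorem FT_weight (hΩ : MeasurableSet Ω) (h1 : volume Ω < ⊤) (hr : 0 < r)
    (h : TS (Hm (volume.restrict Ω)) r R l) (h' : TS (Hm (volume.restrict Ω)) r R l')
    {M : ℝ} (hM : ∀ y, |UU l l' y| ≤ M) (hlim : Tendsto (fun n => l' n - l n) atBot (𝓝 0))
    {a τ : ℝ} (ha : 0 < a) (haτ : ∫ y, ‖fC Ω y‖ * (∫ t, ‖Va a t - Va a (t - y)‖) ≤ τ)
    {k : ℕ} (hk : 1 ≤ k) (z ξ : ℝ) (hξ : τ < ‖𝓕 (fC Ω) ξ‖) :
    𝓕 (fun y => ((ps a k (y - z) * UU l l' y : ℝ) : ℂ)) ξ = 0 := by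
  have hUm := UU_meas hr h h'
  have hconv := conv_zero hΩ h1 hr h h' hM hlim
  have hpi := Real.pi_gt_three
  have key := FT_zero (f := fC Ω) (V := Va a) (Ψ := fun s => ((ps a k s : ℝ) : ℂ))
    (U := fun y => ((UU l l' y : ℝ) : ℂ)) (κ := τ) (M := M) (fC_int hΩ h1) (Va_int ha)
    (kappa_int (fC_int hΩ h1) ha) haτ (Complex.measurable_ofReal.comp hUm)
    (fun x => by rw [Complex.norm_real]; exact hM x)
    (fun x => by
      have : ∫ t, fC Ω t * ((UU l l' (x - t) : ℝ) : ℂ) =
          ((∫ t, fI Ω t * UU l l' (x - t) : ℝ) : ℂ) := by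
        rw [← integral_complex_ofReal]
        refine integral_congr_ae (Eventually.of_forall fun t => ?_)
        simp [fC]
      rw [this, hconv x]; simp)
    (Complex.measurable_ofReal.comp (ps_cont a k).measurable) (ps_int ha hk).ofReal
    (fun x => ps_rep ha ha (by nlinarith) hk x) ξ hξ z
  rw [Real.fourier_eq', ← integral_sub_left_eq_self _ volume z, ← key]
  refine integral_congr_ae (Eventually.of_forall fun s => ?_)
  simp only [smul_eq_mul]
  rw [show z - s - z = -s by ring, ps_neg]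
  have hin : inner ℝ (z - s) ξ = ξ * (z - s) := by simp
  rw [hin]
  push_cast
  ring_nf

theorem int_abs_un (n : ℤ) : ∫ y, |un l l' n y| = |l' n - l n| ∧ Integrable (fun y => |un l l' n y|) := by
  have h1 : (fun y => |un l l' n y|) = (Ico (min (l n) (l' n)) (max (l n) (l' n))).indicator
      (fun _ => (1:ℝ)) := by
    funext y
    unfold un
    by_cases a1 : l n ≤ y <;> by_cases a2 : l' n ≤ y
    · rw [if_pos a1, if_pos a2, indicator_of_notMem]
      · simp
      · intro hh; have := hh.2; have := max_le a1 a2; linarith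
    · rw [if_pos a1, if_neg a2, indicator_of_mem]
      · simp
      · push Not at a2
        exact ⟨(min_le_left _ _).trans a1, a2.trans_le (le_max_right _ _)⟩
    · rw [if_neg a1, if_pos a2, indicator_of_mem]
      · simp
      · push Not at a1
        exact ⟨(min_le_right _ _).trans a2, a1.trans_le (le_max_left _ _)⟩
    · rw [if_neg a1, if_neg a2, indicator_of_notMem]
      · simp
      · push Not at a1 a2
        intro hh; have := hh.1; have := lt_min a1 a2; linarith
  rw [h1]
  constructor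
  · rw [integral_indicator measurableSet_Ico]
    simp only [integral_const, MeasurableSet.univ, measureReal_restrict_apply, univ_inter, smul_eq_mul, mul_one]
    rw [Real.volume_real_Ico_of_le (min_le_max), max_sub_min_eq_abs']
    exact abs_sub_comm _ _
  · exact (integrable_indicator_iff measurableSet_Ico).2 (integrableOn_const (by simp))

theorem ps_ge_half {a : ℝ} (ha : 0 < a) {k : ℕ} (hk : 1 ≤ k) {y : ℝ} (hy : |y| ≤ 1 / a) :
    1 / 2 ≤ ps a k y := by
  have hk' : (1:ℝ) ≤ k := by exact_mod_cast hk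
  have hk0 : (0:ℝ) < k := by linarith
  have habs : ps a k y = ps a k |y| := by
    rcases abs_cases y with h | h
    · rw [h.1]
    · rw [h.1, ps_neg]
  rw [habs]
  rcases (abs_nonneg y).eq_or_lt with h0 | h0
  · rw [← h0]; unfold ps; simp; norm_num
  · set t := a / k * |y| with ht
    have ht0 : 0 < t := by positivity
    have hay : a * |y| ≤ 1 := by rw [le_div_iff₀ ha] at hy; linarith
    have ht1 : t ≤ 1 / k := by
      rw [ht, div_mul_eq_mul_div]
      exact div_le_div_of_nonneg_right hay hk0.le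
    have ht2 : t ≤ 1 := ht1.trans (by rw [div_le_one hk0]; exact hk')
    have hs := Real.sin_gt_sub_cube ht0
    have ht3 : 0 < t ^ 3 := by positivity
    have hsinc : 1 - t ^ 2 / 4 ≤ Real.sinc t := by
      rw [Real.sinc_of_ne_zero ht0.ne', le_div_iff₀ ht0]
      nlinarith
    have hbase : 0 ≤ 1 - t ^ 2 / 4 := by nlinarith
    have h2 : (1 - t ^ 2 / 4) ^ (2 * k) ≤ ps a k |y| := by
      unfold ps
      rw [← ht]
      exact pow_le_pow_left₀ hbase hsinc _
    have h3 := one_add_mul_le_pow (a := -(t ^ 2 / 4)) (by nlinarith) (2 * k)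
    have h4 : (1:ℝ) / 2 ≤ 1 + ((2 * k : ℕ) : ℝ) * (-(t ^ 2 / 4)) := by
      push_cast
      have : k * t ^ 2 ≤ 1 := by
        have h5 : k * t ≤ 1 := by
          rw [le_div_iff₀ hk0] at ht1; linarith
        nlinarith
      nlinarith
    rw [← sub_eq_add_neg] at h3
    exact h4.trans (h3.trans h2)

theorem b_lower {a : ℝ} (ha : 0 < a) {k : ℕ} (hk : 1 ≤ k) (n : ℤ) (hn : |l' n - l n| ≤ 1 / a) :
    1 / 2 * |l' n - l n| ≤ |∫ y, ps a k (y - l n) * un l l' n y| := by
  rw [abs_b (w := fun y => ps a k (y - l n)) (fun y => ps_nonneg _ _ _) n]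
  obtain ⟨h1, h2⟩ := int_abs_un (l := l) (l' := l') n
  rw [← h1, ← integral_const_mul]
  have hm : Measurable (fun y => ps a k (y - l n)) :=
    ((ps_cont a k).comp (continuous_id.sub continuous_const)).measurable
  refine integral_mono (h2.const_mul _) ?_ (fun y => ?_)
  · have : Integrable (fun y => |un l l' n y| * ps a k (y - l n)) :=
      h2.mul_bdd (c := 1) hm.aestronglyMeasurable (Eventually.of_forall fun y => by
        rw [Real.norm_of_nonneg (ps_nonneg _ _ _)]; exact ps_le_one _ _ _)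
    refine this.congr (Eventually.of_forall fun y => ?_)
    simp only
    rw [abs_mul, abs_of_nonneg (ps_nonneg _ _ _), mul_comm]
  · simp only
    rw [abs_mul, abs_of_nonneg (ps_nonneg _ _ _)]
    by_cases hy : un l l' n y = 0
    · rw [hy]; simp
    · refine mul_le_mul_of_nonneg_right ?_ (abs_nonneg _)
      refine ps_ge_half ha hk ?_
      exact (un_supp le_rfl hy).trans hn

theorem trans_cont_real (hΩ : MeasurableSet Ω) (h1 : volume Ω < ⊤) {ε : ℝ} (hε : 0 < ε) :
    ∃ ρ : ℝ, 0 < ρ ∧ ∀ s : ℝ, |s| ≤ ρ → ∫⁻ x, ‖fI Ω (x + s) - fI Ω x‖ₑ ≤ ENNReal.ofReal ε := by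
  obtain ⟨ρ, hρ, h⟩ := TA.trans_cont (fC Ω) (fC_int hΩ h1) ε hε
  refine ⟨ρ, hρ, fun s hs => le_trans (le_of_eq ?_) (h s hs)⟩
  refine lintegral_congr fun x => ?_
  unfold fC
  rw [← Complex.ofReal_sub, ← ofReal_norm, ← ofReal_norm, Complex.norm_real]

end Pool.Agent.L5helper94.TF
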