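import Pool.Agent.L5helper94.TF.Decay

open MeasureTheory Set Filter Topology Real
open scoped ENNReal FourierTransform Convolution

namespace Pool.Agent.L5helper94.TF

open Helper575.NP

variable {Ω : Set ℝ} {r R ρ : ℝ} {l l' : ℤ → ℝ}

/-- near the centre of a matched window only the window contributes -/
theorem window_exact {H : ℝ → ℝ} (hr : 0 < r) (h : TS H r R l) (h' : TS H r R l') {ε : ℝ}
    (hεr : ε < r) {k0 : ℤ} (hk0 : ∀ n ≤ k0, |l' n - l n| ≤ ε) (n0 : ℤ) (N : ℕ) (hN : n0 + N ≤ k0)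
    {y : ℝ} (hy : |y - l n0| < r * N) :
    UU l l' y = ∑ n ∈ Finset.Icc (n0 - N) (n0 + N), un l l' n y := by
  have hy' := abs_lt.1 hy
  have hzero : ∀ n ∉ Finset.Icc (n0 - N) (n0 + N), un l l' n y = 0 := by
    intro n hn
    rw [Finset.mem_Icc, not_and_or, not_le, not_le] at hn
    rcases hn with hn | hn
    · have a1 := h.lo_int (show n ≤ n0 - N - 1 by omega)
      have a2 := h.lo_int (show n0 - N - 1 ≤ n0 by omega)
      push_cast at a1 a2
      have a0 : (n:ℝ) ≤ n0 - N - 1 := by exact_mod_cast (show n ≤ n0 - N - 1 by omega)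
      have a3 : 0 ≤ r * ((n0:ℝ) - N - 1 - n) := mul_nonneg hr.le (by linarith)
      have a4 : l n ≤ l n0 - r * N - r := by nlinarith
      have a5 := abs_le.1 (hk0 n (by omega))
      unfold un
      rw [if_pos (by linarith), if_pos (by linarith), sub_self]
    · have a1 := h.lo_int (show n0 + N + 1 ≤ n by omega)
      have a2 := h.lo_int (show n0 ≤ n0 + N by omega)
      have b1 := h'.lo_int (show n0 + N + 1 ≤ n by omega)
      have b2 := h'.lo (n0 + N)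
      have b3 := h.lo (n0 + N)
      push_cast at a1 a2 b1
      have a0 : (n0:ℝ) + N + 1 ≤ n := by exact_mod_cast (show n0 + N + 1 ≤ n by omega)
      have a3 : 0 ≤ r * ((n:ℝ) - (n0 + N + 1)) := mul_nonneg hr.le (by linarith)
      have a5 := abs_le.1 (hk0 (n0 + N) hN)
      unfold un
      rw [if_neg, if_neg, sub_self]
      · push Not
        nlinarith
      · push Not
        nlinarith
  have h1 := hasSum_sum_of_ne_finset_zero (L := SummationFilter.unconditional ℤ)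
    (s := Finset.Icc (n0 - N) (n0 + N)) (f := fun n => un l l' n y) hzero
  exact (hasSum_un hr h h' y).1.unique h1

theorem decay_k (hΩ : MeasurableSet Ω) (h1 : volume Ω < ⊤) (hr : 0 < r)
    (h : TS (Hm (volume.restrict Ω)) r R l) (h' : TS (Hm (volume.restrict Ω)) r R l')
    (hT : T1 Ω (range l)) {M : ℝ} (hM : ∀ y, |UU l l' y| ≤ M)
    (hlim : Tendsto (fun n => l' n - l n) atBot (𝓝 0))
    {ρ0 ω ε τ a : ℝ} (hρ : 0 < ρ) (hω0 : 0 ≤ ω) (hε0 : 0 ≤ ε) (hτ0 : 0 ≤ τ) (ha : 0 < a)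
    (haτ : ∫ y, ‖fC Ω y‖ * (∫ t, ‖Va a t - Va a (t - y)‖) ≤ τ)
    (hω : ∀ s : ℝ, |s| ≤ ρ0 → ∫⁻ x, ‖fI Ω (x + s) - fI Ω x‖ₑ ≤ ENNReal.ofReal ω)
    (hε : ε + ρ ≤ ρ0) (h2ε : 2 * ε ≤ ρ) (hsep : 2 * (ρ + ε) < r) (hε1 : ε ≤ 1 / a)
    (hc1 : 9 * ω ≤ volume.real Ω / 4) (hc2 : 6 * τ ^ 2 / ρ ≤ volume.real Ω / 4)
    {k0 : ℤ} (hk0 : ∀ n ≤ k0, |l' n - l n| ≤ ε) (n0 : ℤ) (N : ℕ) (hN : n0 + N ≤ k0)
    {k : ℕ} (hk : 1 ≤ k) (hkN : 2 * k / a ≤ r * N) :
    volume.real Ω / 2 * (1 / 2 * |l' n0 - l n0|) ^ 2 ≤ (6 * τ ^ 2 + 3 * volume.real Ω ^ 2) *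
      ((2 * M * (1 / 4) ^ (k - 1)) * (2 * M * ((1 + (k / a) ^ 2) * π))) := by
  have hM0 : 0 ≤ M := (abs_nonneg _).trans (hM 0)
  have hk' : (0:ℝ) < k := by exact_mod_cast hk
  set I := Finset.Icc (n0 - (N:ℤ)) (n0 + N) with hI
  set w : ℝ → ℝ := fun y => ps a k (y - l n0) with hw
  have hwc : Continuous w := (ps_cont a k).comp (continuous_id.sub continuous_const)
  have hwIB : IB w := ⟨(ps_int ha hk).comp_sub_right _, 1, fun x => by
    rw [abs_of_nonneg (ps_nonneg _ _ _)]; exact ps_le_one _ _ _⟩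
  have hUm := UU_meas hr h h'
  have h2M : ∀ y, |UU l l' y - ∑ n ∈ I, un l l' n y| ≤ 2 * M := by
    intro y
    have e1 := hM y
    have e2 : |∑ n ∈ I, un l l' n y| ≤ M :=
      (Finset.abs_sum_le_sum_abs _ _).trans ((sum_abs_un_le hr h h' y I).trans (hM y))
    have := abs_sub (UU l l' y) (∑ n ∈ I, un l l' n y)
    linarith
  have hGs : ∀ y, |w y * (UU l l' y - ∑ n ∈ I, un l l' n y)| ≤ 2 * M * (1 / 4) ^ (k - 1) := by
    intro y
    by_cases hy : |y - l n0| < r * N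
    · rw [window_exact hr h h' (by linarith) hk0 n0 N hN hy, sub_self, mul_zero, abs_zero]
      positivity
    · push Not at hy
      have hy2 : 2 * k / a ≤ |y - l n0| := hkN.trans hy
      have e1 := ps_far ha hk hy2
      have hy0 : 0 < |y - l n0| := lt_of_lt_of_le (by positivity) hy2
      have e2 : 1 / (a / k * (y - l n0)) ^ 2 ≤ 1 := by
        rw [div_le_one (by
          have : y - l n0 ≠ 0 := abs_pos.1 hy0
          positivity)]
        have h4 : 2 ≤ |a / k * (y - l n0)| := by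
          rw [abs_mul, abs_of_pos (by positivity)]
          rw [div_le_iff₀ ha] at hy2
          rw [div_mul_eq_mul_div, le_div_iff₀ hk']
          linarith
        rw [← sq_abs]
        nlinarith
      rw [abs_mul, abs_of_nonneg (ps_nonneg _ _ _), mul_comm]
      refine mul_le_mul (h2M y) (e1.trans ?_) (ps_nonneg _ _ _) (by positivity)
      calc (1 / 4 : ℝ) ^ (k - 1) * (1 / (a / k * (y - l n0)) ^ 2) ≤ (1 / 4) ^ (k - 1) * 1 :=
            mul_le_mul_of_nonneg_left e2 (by positivity)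
        _ = _ := mul_one _
  have hG1 : ∫ y, |w y * (UU l l' y - ∑ n ∈ I, un l l' n y)| ≤ 2 * M * ((1 + (k / a) ^ 2) * π) := by
    have hIi : Integrable (fun y : ℝ => (1 + (y - l n0) ^ 2)⁻¹) :=
      integrable_inv_one_add_sq.comp_sub_right (l n0)
    have e1 : ∫ y : ℝ, (1 + (y - l n0) ^ 2)⁻¹ = π := by
      rw [integral_sub_right_eq_self (fun y : ℝ => (1 + y ^ 2)⁻¹) (l n0), integral_univ_inv_one_add_sq]
    have e2 : 2 * M * ((1 + (k / a) ^ 2) * π) = ∫ y : ℝ, (2 * M * (1 + (k / a) ^ 2)) * (1 + (y - l n0) ^ 2)⁻¹ := by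
      rw [integral_const_mul, e1]; ring
    rw [e2]
    refine integral_mono_of_nonneg (Eventually.of_forall fun y => abs_nonneg _) (hIi.const_mul _)
      (Eventually.of_forall fun y => ?_)
    simp only
    rw [abs_mul, abs_of_nonneg (ps_nonneg _ _ _)]
    have := mul_le_mul (ps_bound ha hk (y - l n0)) (h2M y) (abs_nonneg _) (by positivity)
    refine this.trans (le_of_eq ?_)
    ring
  have key := window hΩ h1 hr h h' hT hM hρ hω0 hε0 hτ0 hω hε h2ε hsep hwc.measurable hwIB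
    (fun y => ps_nonneg _ _ _) (fun ξ hξ => by
      by_contra hcon
      push Not at hcon
      exact hξ (FT_weight hΩ h1 hr h h' hM hlim ha haτ hk (l n0) ξ hcon)) I
    (fun n hn => hk0 n (by
      have := (Finset.mem_Icc.1 hn).2
      omega)) hG1 hGs hc1 hc2
  refine le_trans (mul_le_mul_of_nonneg_left ?_ (by positivity)) key
  have hmem : n0 ∈ I := by rw [hI, Finset.mem_Icc]; constructor <;> omega
  refine le_trans ?_ (Finset.single_le_sum (f := fun n => (∫ y, w y * un l l' n y) ^ 2)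
    (fun n _ => sq_nonneg _) hmem)
  rw [← sq_abs (∫ y, w y * un l l' n0 y)]
  exact pow_le_pow_left₀ (by positivity) (b_lower ha hk n0 ((hk0 n0 (by omega)).trans hε1)) 2

/-- elementary: polynomial factor absorbed -/
theorem poly_absorb {a : ℝ} (ha : 0 < a) (k : ℕ) (hk : 1 ≤ k) :
    (1 / 4 : ℝ) ^ (k - 1) * (1 + (k / a) ^ 2) ≤ 4 * (1 + 4 / a ^ 2) * (1 / 2) ^ k := by
  obtain ⟨j, rfl⟩ : ∃ j, k = j + 1 := ⟨k - 1, by omega⟩
  rw [Nat.add_sub_cancel]
  have hk2 : ∀ j : ℕ, ((j + 1 : ℕ) : ℝ) ^ 2 ≤ 4 * 2 ^ (j + 1) := by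
    intro j
    induction j with
    | zero => norm_num
    | succ j ih =>
      push_cast at ih ⊢
      have hj : (0:ℝ) ≤ j := Nat.cast_nonneg j
      rcases Nat.lt_or_ge j 2 with hj2 | hj2
      · interval_cases j <;> norm_num
      · have hj3 : (2:ℝ) ≤ j := by exact_mod_cast hj2
        rw [pow_succ 2 (j + 1)]
        nlinarith
  have h1 : ((1 / 4 : ℝ)) ^ j = (1 / 2) ^ j * (1 / 2) ^ j := by
    rw [← mul_pow]; norm_num
  have h2 : (1 / 2 : ℝ) ^ j * ((j + 1 : ℕ) : ℝ) ^ 2 ≤ 8 := by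
    have h9 : ((j + 1 : ℕ) : ℝ) ^ 2 ≤ 8 * 2 ^ j := by
      have := hk2 j
      rw [pow_succ 2 j] at this
      linarith
    have h3 : (1 / 2 : ℝ) ^ j * 2 ^ j = 1 := by rw [← mul_pow]; norm_num
    have h4 : 0 ≤ (1 / 2 : ℝ) ^ j := by positivity
    have h10 := mul_le_mul_of_nonneg_left h9 h4
    have h11 : (1 / 2 : ℝ) ^ j * (8 * 2 ^ j) = 8 := by
      rw [show (1 / 2 : ℝ) ^ j * (8 * 2 ^ j) = 8 * ((1 / 2 : ℝ) ^ j * 2 ^ j) by ring, h3, mul_one]
    linarith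
  have h5 : (1 / 2 : ℝ) ^ j ≤ 1 := pow_le_one₀ (by norm_num) (by norm_num)
  have h6 : 0 < (1 / 2 : ℝ) ^ j := by positivity
  rw [h1, pow_succ (1 / 2 : ℝ) j, div_pow (((j + 1 : ℕ) : ℝ)) a 2]
  have h7 : (1 / 2 : ℝ) ^ j * (1 + ((j + 1 : ℕ) : ℝ) ^ 2 / a ^ 2) ≤ 2 * (1 + 4 / a ^ 2) := by
    have h8 : (1 / 2 : ℝ) ^ j * (((j + 1 : ℕ) : ℝ) ^ 2 / a ^ 2) ≤ 8 / a ^ 2 := by
      rw [← mul_div_assoc]
      exact div_le_div_of_nonneg_right h2 (by positivity)
    rw [mul_add, mul_one]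
    have : 2 * (1 + 4 / a ^ 2) = 2 + 8 / a ^ 2 := by ring
    linarith
  calc (1 / 2 : ℝ) ^ j * (1 / 2) ^ j * (1 + ((j + 1 : ℕ) : ℝ) ^ 2 / a ^ 2)
      = (1 / 2) ^ j * ((1 / 2) ^ j * (1 + ((j + 1 : ℕ) : ℝ) ^ 2 / a ^ 2)) := by ring
    _ ≤ (1 / 2) ^ j * (2 * (1 + 4 / a ^ 2)) := mul_le_mul_of_nonneg_left h7 h6.le
    _ = 4 * (1 + 4 / a ^ 2) * ((1 / 2) ^ j * (1 / 2)) := by ring

end Pool.Agent.L5helper94.TF
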