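import Pool.Agent.L5helper94.TF.Decay2

open MeasureTheory Set Filter Topology Real
open scoped ENNReal FourierTransform Convolution

namespace Pool.Agent.L5helper94.TF

open Helper575.NP

variable {Ω : Set ℝ} {r R ρ : ℝ} {l l' : ℤ → ℝ}

theorem fC_fourier_zero (hΩ : MeasurableSet Ω) : 𝓕 (fC Ω) 0 = ((volume.real Ω : ℝ) : ℂ) := by
  rw [Real.fourier_real_eq]
  simp only [mul_zero, neg_zero, AddChar.map_zero_eq_one, one_smul]
  unfold fC
  rw [integral_complex_ofReal, fI_integral hΩ]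

theorem decay_main (hΩ : MeasurableSet Ω) (h0 : 0 < volume Ω) (h1 : volume Ω < ⊤) (hr : 0 < r)
    (h : TS (Hm (volume.restrict Ω)) r R l) (h' : TS (Hm (volume.restrict Ω)) r R l')
    (hT : T1 Ω (range l)) {M : ℝ} (hM : ∀ y, |UU l l' y| ≤ M)
    (hlim : Tendsto (fun n => l' n - l n) atBot (𝓝 0)) :
    ∃ a η C c : ℝ, 0 < a ∧ 0 < η ∧ 0 < C ∧ 0 < c ∧
      (∀ ξ, |ξ| ≤ η → 𝓕 (fun y => ((ps a 1 (y - 0) * UU l l' y : ℝ) : ℂ)) ξ = 0) ∧
      ∃ k0 : ℤ, ∀ n ≤ k0, |l' n - l n| ≤ C * Real.exp (-c * ((k0:ℝ) - n)) := by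
  set m := volume.real Ω with hm
  have hm0 : 0 < m := ENNReal.toReal_pos h0.ne' h1.ne
  have hM0 : 0 ≤ M := (abs_nonneg _).trans (hM 0)
  obtain ⟨ρ0, hρ0, hω⟩ := trans_cont_real hΩ h1 (ε := m / 36) (by positivity)
  set ρ := min ρ0 r / 4 with hρd
  have hmin : 0 < min ρ0 r := lt_min hρ0 hr
  have hρ : 0 < ρ := by positivity
  have hρ1 : 4 * ρ ≤ ρ0 := by
    have := min_le_left ρ0 r
    rw [hρd]; linarith
  have hρ2 : 4 * ρ ≤ r := by
    have := min_le_right ρ0 r
    rw [hρd]; linarith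
  set τ := min (min 1 (m * ρ / 24)) (m / 2) with hτd
  have hτ0 : 0 < τ := by positivity
  have hτ1 : τ ≤ 1 := (min_le_left _ _).trans (min_le_left _ _)
  have hτ2 : τ ≤ m * ρ / 24 := (min_le_left _ _).trans (min_le_right _ _)
  have hτ3 : τ ≤ m / 2 := min_le_right _ _
  obtain ⟨a, ha, haτ⟩ := exists_a (fC_int hΩ h1) hτ0
  set ε := min (ρ / 4) (1 / a) with hεd
  have hε0 : 0 < ε := by positivity
  have hε1 : ε ≤ 1 / a := min_le_right _ _
  have hε2 : ε ≤ ρ / 4 := min_le_left _ _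
  obtain ⟨k0, hk0⟩ := exists_close hlim hε0
  have hc2 : 6 * τ ^ 2 / ρ ≤ m / 4 := by
    rw [div_le_iff₀ hρ]
    nlinarith
  -- spectral gap
  have hcont : Continuous fun ξ => ‖𝓕 (fC Ω) ξ‖ := (fourier_cont' (fC_int hΩ h1)).norm
  have hzero : τ < ‖𝓕 (fC Ω) 0‖ := by
    rw [fC_fourier_zero hΩ, Complex.norm_real, Real.norm_of_nonneg hm0.le]
    linarith
  obtain ⟨η, hη, hηb⟩ := Metric.eventually_nhds_iff.1
    ((hcont.tendsto 0).eventually (lt_mem_nhds hzero))
  -- constants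
  set K := (6 * τ ^ 2 + 3 * m ^ 2) * (4 * M ^ 2 * π) * (4 * (1 + 4 / a ^ 2)) with hK
  have hK0 : 0 ≤ K := by positivity
  set C2 := 8 / m * K + ε ^ 2 with hC2
  have hC20 : 0 < C2 := by positivity
  refine ⟨a, η / 2, 2 * C2 + 1, Real.log 2 * (a * r) / 4, ha, by positivity, by positivity,
    by have := Real.log_pos one_lt_two; positivity, fun ξ hξ => ?_, k0, fun n hn => ?_⟩
  · refine FT_weight hΩ h1 hr h h' hM hlim ha haτ le_rfl 0 ξ (hηb ?_)
    rw [dist_zero_right, Real.norm_eq_abs]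
    linarith
  · obtain ⟨N, hN⟩ := Int.eq_ofNat_of_zero_le (show 0 ≤ k0 - n by omega)
    have hNr : (k0:ℝ) - n = N := by exact_mod_cast hN
    set k := ⌊a * r * N / 2⌋₊ with hk
    have hkle : (k:ℝ) ≤ a * r * N / 2 := Nat.floor_le (by positivity)
    have hklt : a * r * N / 2 < k + 1 := Nat.lt_floor_add_one _
    have hsq : |l' n - l n| ^ 2 ≤ C2 * (1 / 2) ^ k := by
      rcases Nat.eq_zero_or_pos k with hk00 | hkpos
      · rw [hk00, pow_zero, mul_one]
        have := pow_le_pow_left₀ (abs_nonneg _) (hk0 n hn) 2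
        have : 0 ≤ 8 / m * K := by positivity
        linarith
      · have key := decay_k hΩ h1 hr h h' hT hM hlim hρ (by positivity) hε0.le hτ0.le ha haτ hω
          (by linarith) (by linarith) (by linarith) hε1 (by rw [← hm]; linarith)
          (by rw [← hm]; exact hc2) hk0 n N (by omega) hkpos (by
            rw [div_le_iff₀ ha]; linarith)
        rw [← hm] at key
        have hab := poly_absorb ha k hkpos
        have e1 : (6 * τ ^ 2 + 3 * m ^ 2) *
            (2 * M * (1 / 4) ^ (k - 1) * (2 * M * ((1 + (k / a) ^ 2) * π))) =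
            (6 * τ ^ 2 + 3 * m ^ 2) * (4 * M ^ 2 * π) * ((1 / 4) ^ (k - 1) * (1 + (k / a) ^ 2)) := by
          ring
        have e2 : (6 * τ ^ 2 + 3 * m ^ 2) * (4 * M ^ 2 * π) * ((1 / 4) ^ (k - 1) * (1 + (k / a) ^ 2))
            ≤ (6 * τ ^ 2 + 3 * m ^ 2) * (4 * M ^ 2 * π) * (4 * (1 + 4 / a ^ 2) * (1 / 2) ^ k) :=
          mul_le_mul_of_nonneg_left hab (by positivity)
        have e3 : (6 * τ ^ 2 + 3 * m ^ 2) * (4 * M ^ 2 * π) * (4 * (1 + 4 / a ^ 2) * (1 / 2) ^ k)
            = K * (1 / 2) ^ k := by rw [hK]; ring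
        rw [e1] at key
        have e4 := key.trans (e2.trans (le_of_eq e3))
        have e5 : m / 8 * |l' n - l n| ^ 2 ≤ K * (1 / 2) ^ k := by
          refine le_trans (le_of_eq ?_) e4
          ring
        have e6 : |l' n - l n| ^ 2 ≤ 8 / m * K * (1 / 2) ^ k := by
          have : |l' n - l n| ^ 2 = 8 / m * (m / 8 * |l' n - l n| ^ 2) := by field_simp
          rw [this, mul_assoc]
          exact mul_le_mul_of_nonneg_left e5 (by positivity)
        refine e6.trans (mul_le_mul_of_nonneg_right ?_ (by positivity))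
        rw [hC2]
        have : 0 ≤ ε ^ 2 := sq_nonneg _
        linarith
    have hpow : (1 / 2 : ℝ) ^ k ≤ 2 * Real.exp (-(Real.log 2 * (a * r) / 2) * N) := by
      have e1 : (1 / 2 : ℝ) ^ k = Real.exp (-(Real.log 2) * k) := by
        rw [mul_comm, Real.exp_nat_mul, Real.exp_neg, Real.exp_log two_pos, one_div]
      have e2 : (2:ℝ) = Real.exp (Real.log 2) := (Real.exp_log two_pos).symm
      rw [e1]
      nth_rw 2 [e2]
      rw [← Real.exp_add]
      apply Real.exp_le_exp.2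
      have := Real.log_pos one_lt_two
      nlinarith
    have hfin : |l' n - l n| ^ 2 ≤ ((2 * C2 + 1) * Real.exp (-(Real.log 2 * (a * r) / 4) * N)) ^ 2 := by
      rw [mul_pow, ← Real.exp_nat_mul]
      have e1 : ((2:ℕ):ℝ) * (-(Real.log 2 * (a * r) / 4) * N) = -(Real.log 2 * (a * r) / 2) * N := by
        push_cast; ring
      rw [e1]
      refine hsq.trans ((mul_le_mul_of_nonneg_left hpow hC20.le).trans ?_)
      rw [← mul_assoc]
      refine mul_le_mul_of_nonneg_right ?_ (Real.exp_pos _).le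
      nlinarith
    rw [hNr]
    exact (sq_le_sq₀ (abs_nonneg _) (by positivity)).1 hfin

end Pool.Agent.L5helper94.TF
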