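import Pool.Agent.L5helper94.TF.Square

open MeasureTheory Set Filter Topology Real
open scoped ENNReal FourierTransform

namespace Pool.Agent.L5helper94.TF

variable {g : ℝ → ℝ} {b η : ℝ}

/-- the two-sided Laplace transform -/
noncomputable def LL (g : ℝ → ℝ) (w : ℂ) : ℂ := ∫ y : ℝ, Complex.exp (-w * y) * ((g y : ℝ) : ℂ)

theorem exp_norm (w : ℂ) (y : ℝ) : ‖Complex.exp (-w * y)‖ = Real.exp (-w.re * y) := by
  rw [Complex.norm_exp]
  congr 1
  simp

theorem exp_le_dom {s : ℝ} (hs0 : 0 ≤ s) (hsb : s ≤ b) (y : ℝ) :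
    Real.exp (-s * y) ≤ 1 + Real.exp (-b * y) := by
  rcases le_total 0 y with hy | hy
  · have : Real.exp (-s * y) ≤ 1 := Real.exp_le_one_iff.2 (by nlinarith)
    have := Real.exp_pos (-b * y)
    linarith
  · have : Real.exp (-s * y) ≤ Real.exp (-b * y) := Real.exp_le_exp.2 (by nlinarith)
    linarith

theorem meas_term (hgm : Measurable g) (w : ℂ) :
    AEStronglyMeasurable (fun y : ℝ => Complex.exp (-w * y) * ((g y : ℝ) : ℂ)) volume := by
  refine Measurable.aestronglyMeasurable (Measurable.mul ?_ (Complex.measurable_ofReal.comp hgm))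
  exact (by fun_prop : Continuous fun y : ℝ => Complex.exp (-w * y)).measurable

theorem LL_cont (hgm : Measurable g)
    (hΦ : Integrable (fun y => (1 + Real.exp (-b * y)) * |g y|)) :
    ContinuousOn (LL g) {w : ℂ | 0 ≤ w.re ∧ w.re ≤ b} := by
  unfold LL
  refine continuousOn_of_dominated (bound := fun y => (1 + Real.exp (-b * y)) * |g y|)
    (fun w _ => meas_term hgm w) (fun w hw => Eventually.of_forall fun y => ?_) hΦ
    (Eventually.of_forall fun y => ?_)
  · rw [norm_mul, exp_norm, Complex.norm_real, Real.norm_eq_abs]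
    exact mul_le_mul_of_nonneg_right (exp_le_dom hw.1 hw.2 y) (abs_nonneg _)
  · exact (by fun_prop : Continuous fun w : ℂ => Complex.exp (-w * y) * ((g y : ℝ) : ℂ)).continuousOn

theorem lin_exp {κ : ℝ} (hκ : 0 < κ) {s : ℝ} (hs0 : κ ≤ s) (hsb : s ≤ b - κ) (y : ℝ) :
    |y| * Real.exp (-s * y) ≤ 1 / κ * (1 + Real.exp (-b * y)) := by
  have key : ∀ u : ℝ, 0 ≤ u → u * Real.exp (-κ * u) ≤ 1 / κ := by
    intro u hu
    rw [le_div_iff₀ hκ]
    have h1 : κ * u ≤ Real.exp (κ * u) := by
      have := Real.add_one_le_exp (κ * u); linarith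
    have h2 : Real.exp (κ * u) * Real.exp (-κ * u) = 1 := by
      rw [← Real.exp_add]; simp
    have h3 := mul_le_mul_of_nonneg_right h1 (Real.exp_pos (-κ * u)).le
    rw [h2] at h3
    linarith
  rcases le_total 0 y with hy | hy
  · rw [abs_of_nonneg hy]
    have h1 : Real.exp (-s * y) ≤ Real.exp (-κ * y) := Real.exp_le_exp.2 (by nlinarith)
    have h2 := key y hy
    have h3 := mul_le_mul_of_nonneg_left h1 hy
    have h4 : 0 < Real.exp (-b * y) := Real.exp_pos _
    have h5 : 1 / κ * 1 ≤ 1 / κ * (1 + Real.exp (-b * y)) :=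
      mul_le_mul_of_nonneg_left (by linarith) (by positivity)
    linarith
  · rw [abs_of_nonpos hy]
    have h1 : Real.exp (-s * y) ≤ Real.exp (-κ * (-y)) * Real.exp (-b * y) := by
      rw [← Real.exp_add]; exact Real.exp_le_exp.2 (by nlinarith)
    have h2 := key (-y) (by linarith)
    have h3 := mul_le_mul_of_nonneg_left h1 (show 0 ≤ -y by linarith)
    have h4 : 0 < Real.exp (-b * y) := Real.exp_pos _
    have h5 := mul_le_mul_of_nonneg_right h2 h4.le
    have h6 : 0 < 1 / κ := by positivity
    nlinarith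

theorem LL_diff (hgm : Measurable g)
    (hΦ : Integrable (fun y => (1 + Real.exp (-b * y)) * |g y|)) {w0 : ℂ} (h0 : 0 < w0.re)
    (hb : w0.re < b) : DifferentiableAt ℂ (LL g) w0 := by
  set κ := min w0.re (b - w0.re) / 2 with hκd
  have hmin : 0 < min w0.re (b - w0.re) := lt_min h0 (by linarith)
  have hκ : 0 < κ := by positivity
  have k1 : 2 * κ ≤ w0.re := by have := min_le_left w0.re (b - w0.re); rw [hκd]; linarith
  have k2 : 2 * κ ≤ b - w0.re := by have := min_le_right w0.re (b - w0.re); rw [hκd]; linarith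
  have key := hasDerivAt_integral_of_dominated_loc_of_deriv_le (μ := (volume : Measure ℝ))
    (F := fun (w : ℂ) (y : ℝ) => Complex.exp (-w * y) * ((g y : ℝ) : ℂ))
    (F' := fun (w : ℂ) (y : ℝ) => Complex.exp (-w * y) * (-(y : ℂ)) * ((g y : ℝ) : ℂ))
    (x₀ := w0) (s := Metric.ball w0 κ) (bound := fun y => 1 / κ * ((1 + Real.exp (-b * y)) * |g y|))
    (Metric.ball_mem_nhds w0 hκ) (Eventually.of_forall fun w => meas_term hgm w) ?_ ?_ ?_
    (hΦ.const_mul _) ?_
  · exact key.2.differentiableAt
  · refine Integrable.mono' hΦ (meas_term hgm w0) (Eventually.of_forall fun y => ?_)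
    rw [norm_mul, exp_norm, Complex.norm_real, Real.norm_eq_abs]
    exact mul_le_mul_of_nonneg_right (exp_le_dom h0.le hb.le y) (abs_nonneg _)
  · refine Measurable.aestronglyMeasurable (Measurable.mul ?_ (Complex.measurable_ofReal.comp hgm))
    exact (by fun_prop : Continuous fun y : ℝ => Complex.exp (-w0 * y) * (-(y : ℂ))).measurable
  · refine Eventually.of_forall fun y w hw => ?_
    have hre : |w.re - w0.re| < κ := by
      have h1 : ‖w - w0‖ < κ := by rwa [Metric.mem_ball, dist_eq_norm] at hw
      have h2 := Complex.abs_re_le_norm (w - w0)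
      rw [Complex.sub_re] at h2
      linarith
    have hre' := abs_lt.1 hre
    rw [norm_mul, norm_mul, exp_norm, Complex.norm_real, Real.norm_eq_abs, norm_neg,
      Complex.norm_real, Real.norm_eq_abs, ← mul_assoc]
    refine mul_le_mul_of_nonneg_right ?_ (abs_nonneg _)
    rw [mul_comm]
    exact lin_exp hκ (by linarith) (by linarith) y
  · refine Eventually.of_forall fun y w _ => ?_
    have h1 : HasDerivAt (fun w : ℂ => -w * y) (-(y : ℂ)) w := by
      have := (hasDerivAt_id w).neg.mul_const (y : ℂ)
      simpa using this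
    exact (h1.cexp).mul_const _

/-- vanishing of the transform on a vertical line forces the function to vanish -/
theorem ae_zero_of_LL (hgm : Measurable g) {δ : ℝ} (hi : Integrable (fun y => Real.exp (-δ * y) * g y))
    (hz : ∀ ξ : ℝ, LL g (δ + ξ * Complex.I) = 0) : ∀ᵐ y : ℝ, g y = 0 := by
  set q : ℝ → ℝ := fun y => Real.exp (-δ * y) * g y with hq
  have hqm : Measurable q := by
    refine Measurable.mul ?_ hgm
    exact (by fun_prop : Continuous fun y : ℝ => Real.exp (-δ * y)).measurable
  have hqn : Measurable (fun y => ENNReal.ofReal (-q y)) := hqm.neg.ennreal_ofReal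
  have hzq : ∀ ξ : ℝ, ∫ y : ℝ, ((q y : ℝ) : ℂ) * Complex.exp (ξ * y * Complex.I) = 0 := by
    intro ξ
    rw [← hz (-ξ)]
    unfold LL
    refine integral_congr_ae (Eventually.of_forall fun y => ?_)
    simp only [hq]
    have e1 : Complex.exp (-((δ:ℂ) + ((-ξ : ℝ) : ℂ) * Complex.I) * y) =
        ((Real.exp (-δ * y) : ℝ) : ℂ) * Complex.exp (ξ * y * Complex.I) := by
      rw [Complex.ofReal_exp, ← Complex.exp_add]
      congr 1
      push_cast
      ring
    rw [e1]
    push_cast
    ring
  set μ := (volume : Measure ℝ).withDensity (fun y => ENNReal.ofReal (q y)) with hμ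
  set ν := (volume : Measure ℝ).withDensity (fun y => ENNReal.ofReal (-q y)) with hν
  have hf1 : ∫⁻ y, ENNReal.ofReal (q y) ≠ ∞ := by
    refine ne_of_lt (lt_of_le_of_lt (lintegral_mono fun y => ?_) hi.hasFiniteIntegral)
    rw [← ofReal_norm]
    exact ENNReal.ofReal_le_ofReal (le_abs_self _)
  have hf2 : ∫⁻ y, ENNReal.ofReal (-q y) ≠ ∞ := by
    refine ne_of_lt (lt_of_le_of_lt (lintegral_mono fun y => ?_) hi.hasFiniteIntegral)
    rw [← ofReal_norm]
    exact ENNReal.ofReal_le_ofReal (neg_le_abs _)
  have i1 : IsFiniteMeasure μ := isFiniteMeasure_withDensity hf1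
  have i2 : IsFiniteMeasure ν := isFiniteMeasure_withDensity hf2
  have hch : charFun μ = charFun ν := by
    funext t
    rw [charFun_apply_real, charFun_apply_real, hμ, hν,
      integral_withDensity_eq_integral_toReal_smul hqm.ennreal_ofReal
        (Eventually.of_forall fun y => ENNReal.ofReal_lt_top),
      integral_withDensity_eq_integral_toReal_smul hqn
        (Eventually.of_forall fun y => ENNReal.ofReal_lt_top)]
    have hb : ∀ (p : ℝ → ℝ), Integrable p → Integrable (fun y : ℝ => p y • Complex.exp (t * y * Complex.I)) := by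
      intro p hp
      have h3 : Integrable (fun y : ℝ => ((p y : ℝ) : ℂ) * Complex.exp (t * y * Complex.I)) := by
        refine hp.ofReal.mul_bdd (c := 1) ?_ (Eventually.of_forall fun y => ?_)
        · exact (by fun_prop : Continuous fun y : ℝ => Complex.exp (t * y * Complex.I)).aestronglyMeasurable
        · have := Complex.norm_exp_ofReal_mul_I (t * y)
          rw [← this]; push_cast; exact le_rfl
      refine h3.congr (Eventually.of_forall fun y => ?_)
      simp only [Complex.real_smul]
    have p1 : Integrable (fun y => (ENNReal.ofReal (q y)).toReal) :=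
      integrable_toReal_of_lintegral_ne_top hqm.ennreal_ofReal.aemeasurable hf1
    have p2 : Integrable (fun y => (ENNReal.ofReal (-q y)).toReal) :=
      integrable_toReal_of_lintegral_ne_top hqn.aemeasurable hf2
    rw [← sub_eq_zero, ← integral_sub (hb _ p1) (hb _ p2), ← hzq t]
    refine integral_congr_ae (Eventually.of_forall fun y => ?_)
    simp only
    rw [← sub_smul, Complex.real_smul]
    congr 2
    rw [ENNReal.toReal_ofReal', ENNReal.toReal_ofReal']
    rcases le_total 0 (q y) with h | h
    · rw [max_eq_left h, max_eq_right (by linarith)]; ring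
    · rw [max_eq_right h, max_eq_left (by linarith)]; ring
  have heq := Measure.ext_of_charFun hch
  have hae := (withDensity_eq_iff hqm.ennreal_ofReal.aemeasurable hqn.aemeasurable
    hf1).1 heq
  filter_upwards [hae] with y hy
  have hqy : q y = 0 := by
    rcases le_total 0 (q y) with h | h
    · have h2 : ENNReal.ofReal (-q y) = 0 := ENNReal.ofReal_eq_zero.2 (by linarith)
      rw [h2, ENNReal.ofReal_eq_zero] at hy
      linarith
    · have h2 : ENNReal.ofReal (q y) = 0 := ENNReal.ofReal_eq_zero.2 h
      rw [h2] at hy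
      have := ENNReal.ofReal_eq_zero.1 hy.symm
      linarith
  rw [hq] at hqy
  exact (mul_eq_zero.1 hqy).resolve_left (Real.exp_pos _).ne'

theorem strip_unique (hb : 0 < b) (hη : 0 < η) (hgm : Measurable g)
    (hΦ : Integrable (fun y => (1 + Real.exp (-b * y)) * |g y|))
    (hz : ∀ ξ : ℝ, |ξ| ≤ η → LL g (ξ * Complex.I) = 0) : ∀ᵐ y : ℝ, g y = 0 := by
  set δ := min (b / 4) η with hδd
  have hδ : 0 < δ := by positivity
  have hδ1 : δ ≤ b / 4 := min_le_left _ _
  have hδ2 : δ ≤ η := min_le_right _ _
  have hcont := LL_cont hgm hΦ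
  have hsq : ∀ᶠ w in 𝓝 (δ : ℂ), LL g w = 0 := by
    refine square_zero hδ ⟨fun w hw => ?_, ?_⟩ (fun w h1 h2 => ?_)
    · rw [Complex.mem_reProdIm, mem_Ioo] at hw
      exact (LL_diff hgm hΦ hw.1.1 (by linarith [hw.1.2])).differentiableWithinAt
    · refine hcont.mono (fun w hw => ?_)
      rw [Complex.closure_reProdIm, closure_Ioo (by linarith), Complex.mem_reProdIm, mem_Icc] at hw
      exact ⟨hw.1.1, by linarith [hw.1.2]⟩
    · have : w = (w.im : ℝ) * Complex.I := by
        apply Complex.ext <;> simp [h1]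
      rw [this]
      exact hz _ (h2.trans hδ2)
  set S : Set ℂ := {w : ℂ | 0 < w.re ∧ w.re < b} with hS
  have hSo : IsOpen S := by
    rw [hS]
    exact (isOpen_lt continuous_const Complex.continuous_re).inter
      (isOpen_lt Complex.continuous_re continuous_const)
  have hSc : Convex ℝ S := by
    rw [hS]
    intro x hx y hy s t hs ht hst
    simp only [mem_setOf_eq, Complex.add_re, Complex.real_smul, Complex.mul_re, Complex.ofReal_re,
      Complex.ofReal_im, zero_mul, sub_zero] at hx hy ⊢
    constructor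
    · rcases hs.eq_or_lt with h0 | h0
      · have : t = 1 := by linarith
        rw [← h0, this]; simp; exact hy.1
      · have h1 : 0 < s * x.re := mul_pos h0 hx.1
        have h2 : 0 ≤ t * y.re := mul_nonneg ht hy.1.le
        linarith
    · rcases hs.eq_or_lt with h0 | h0
      · have : t = 1 := by linarith
        rw [← h0, this]; simp; exact hy.2
      · have h1 : s * x.re < s * b := mul_lt_mul_of_pos_left hx.2 h0
        have h2 : t * y.re ≤ t * b := mul_le_mul_of_nonneg_left hy.2.le ht
        have h3 : s * b + t * b = b := by rw [← add_mul, hst, one_mul]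
        linarith
  have hdiff : DifferentiableOn ℂ (LL g) S := fun w hw =>
    (LL_diff hgm hΦ hw.1 hw.2).differentiableWithinAt
  have hAn : AnalyticOnNhd ℂ (LL g) S := hdiff.analyticOnNhd hSo
  have hδS : (δ : ℂ) ∈ S := by
    rw [hS]
    exact ⟨by simpa using hδ, by simp; linarith⟩
  have hall := hAn.eqOn_zero_of_preconnected_of_eventuallyEq_zero hSc.isPreconnected hδS hsq
  refine ae_zero_of_LL hgm (δ := δ) ?_ (fun ξ => ?_)
  · refine Integrable.mono' hΦ ?_ (Eventually.of_forall fun y => ?_)
    · refine Measurable.aestronglyMeasurable (Measurable.mul ?_ hgm)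
      exact (by fun_prop : Continuous fun y : ℝ => Real.exp (-δ * y)).measurable
    · rw [norm_mul, Real.norm_of_nonneg (Real.exp_pos _).le, Real.norm_eq_abs]
      exact mul_le_mul_of_nonneg_right (exp_le_dom hδ.le (by linarith) y) (abs_nonneg _)
  · exact hall ⟨by simpa using hδ, by simp; linarith⟩

end Pool.Agent.L5helper94.TF
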