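import Pool.Agent.L5helper94.TF.Decay3
import Pool.Agent.L5helper94.TF.Strip

open MeasureTheory Set Filter Topology Real
open scoped ENNReal FourierTransform Convolution

namespace Pool.Agent.L5helper94.TF

open Helper575.NP

variable {Ω : Set ℝ} {r R ρ : ℝ} {l l' : ℤ → ℝ}

theorem exp_int {H : ℝ → ℝ} (hr : 0 < r) (h : TS H r R l) (h' : TS H r R l') {C c b : ℝ}
    (hC : 0 < C) (hc : 0 < c) (hb : 0 < b) (hbR : b * R ≤ c / 2) {k0 : ℤ}
    (hk0 : ∀ n ≤ k0, |l' n - l n| ≤ C * Real.exp (-c * ((k0:ℝ) - n))) :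
    IntegrableOn (fun y => Real.exp (-b * y) * |UU l l' y|)
      (Iio (min (l (k0 + 1)) (l' (k0 + 1)))) := by
  set x0 := min (l (k0 + 1)) (l' (k0 + 1)) with hx0
  have hmono := h.mono hr
  have hmono' := h'.mono hr
  have hzero : ∀ n, k0 < n → ∀ y, y < x0 → un l l' n y = 0 := by
    intro n hn y hy
    have a1 : y < l n := lt_of_lt_of_le (hy.trans_le (min_le_left _ _)) (hmono.monotone (by omega))
    have a2 : y < l' n := lt_of_lt_of_le (hy.trans_le (min_le_right _ _)) (hmono'.monotone (by omega))
    unfold un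
    rw [if_neg (not_le.2 a1), if_neg (not_le.2 a2), sub_zero]
  have hUm := UU_meas hr h h'
  have hexpm : Measurable fun y : ℝ => Real.exp (-b * y) :=
    (by fun_prop : Continuous fun y : ℝ => Real.exp (-b * y)).measurable
  set D := C * Real.exp (b * C) * Real.exp (-b * l k0) * Real.exp (c / 2 * |(k0:ℝ)|) with hD
  have hterm : ∀ n : ℤ, ∫⁻ y in Iio x0, ENNReal.ofReal (Real.exp (-b * y) * |un l l' n y|) ≤
      ENNReal.ofReal (D * Real.exp (-(c / 2) * |(n:ℝ)|)) := by
    intro n
    rcases le_or_gt n k0 with hn | hn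
    · have hα := hk0 n hn
      have hn' : (n:ℝ) ≤ k0 := by exact_mod_cast hn
      have hα1 : |l' n - l n| ≤ C := by
        refine hα.trans ?_
        have : Real.exp (-c * ((k0:ℝ) - n)) ≤ 1 := Real.exp_le_one_iff.2 (by nlinarith)
        nlinarith
      have hsub : ∫⁻ y in Iio x0, ENNReal.ofReal (Real.exp (-b * y) * |un l l' n y|) ≤
          ∫⁻ y, ENNReal.ofReal (Real.exp (-b * l n + b * C) * |un l l' n y|) := by
        refine (setLIntegral_le_lintegral _ _).trans (lintegral_mono fun y => ?_)
        refine ENNReal.ofReal_le_ofReal ?_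
        by_cases hy : un l l' n y = 0
        · rw [hy]; simp
        · refine mul_le_mul_of_nonneg_right (Real.exp_le_exp.2 ?_) (abs_nonneg _)
          have := abs_le.1 (un_supp hα1 hy)
          nlinarith
      refine hsub.trans ?_
      obtain ⟨e1, e2⟩ := int_abs_un (l := l) (l' := l') n
      rw [← ofReal_integral_eq_lintegral_ofReal (e2.const_mul _) (Eventually.of_forall fun y => by
        positivity), integral_const_mul, e1]
      refine ENNReal.ofReal_le_ofReal ?_
      have h3 := h.hi_int hn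
      have h4 : -b * l n ≤ -b * l k0 + c / 2 * ((k0:ℝ) - n) := by
        have : b * (l k0 - l n) ≤ b * (R * ((k0:ℝ) - n)) := mul_le_mul_of_nonneg_left h3 hb.le
        have h5 : b * R * ((k0:ℝ) - n) ≤ c / 2 * ((k0:ℝ) - n) :=
          mul_le_mul_of_nonneg_right hbR (by linarith)
        nlinarith
      have h6 : |(n:ℝ)| ≤ ((k0:ℝ) - n) + |(k0:ℝ)| := by
        rw [abs_le]
        have := le_abs_self (k0:ℝ)
        have := neg_abs_le (k0:ℝ)
        constructor <;> linarith
      calc Real.exp (-b * l n + b * C) * |l' n - l n|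
          ≤ Real.exp (-b * l k0 + c / 2 * ((k0:ℝ) - n) + b * C) *
            (C * Real.exp (-c * ((k0:ℝ) - n))) := by
            refine mul_le_mul (Real.exp_le_exp.2 (by linarith)) hα (abs_nonneg _) (Real.exp_pos _).le
        _ = C * Real.exp (b * C) * Real.exp (-b * l k0) * Real.exp (-(c / 2) * ((k0:ℝ) - n)) := by
            have e3 : Real.exp (-b * l k0 + c / 2 * ((k0:ℝ) - n) + b * C) *
              (C * Real.exp (-c * ((k0:ℝ) - n))) = C * (Real.exp (-b * l k0 + c / 2 * ((k0:ℝ) - n) + b * C) *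
                Real.exp (-c * ((k0:ℝ) - n))) := by ring
            rw [e3, mul_assoc, mul_assoc, ← Real.exp_add, ← Real.exp_add, ← Real.exp_add]
            congr 2
            ring
        _ ≤ C * Real.exp (b * C) * Real.exp (-b * l k0) *
            (Real.exp (c / 2 * |(k0:ℝ)|) * Real.exp (-(c / 2) * |(n:ℝ)|)) := by
            refine mul_le_mul_of_nonneg_left ?_ (by positivity)
            rw [← Real.exp_add]
            refine Real.exp_le_exp.2 ?_
            nlinarith
        _ = D * Real.exp (-(c / 2) * |(n:ℝ)|) := by rw [hD]; ring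
    · have : ∫⁻ y in Iio x0, ENNReal.ofReal (Real.exp (-b * y) * |un l l' n y|) = 0 := by
        rw [← lintegral_zero (μ := volume.restrict (Iio x0))]
        refine setLIntegral_congr_fun measurableSet_Iio (fun y hy => ?_)
        rw [hzero n hn y hy, abs_zero, mul_zero, ENNReal.ofReal_zero]
      rw [this]
      exact zero_le
  have hsumm : Summable (fun n : ℤ => D * Real.exp (-(c / 2) * |(n:ℝ)|)) :=
    (summable_exp_neg_abs (b := c / 2) (by positivity)).mul_left D
  have hmeas : Measurable fun y => Real.exp (-b * y) * |UU l l' y| := hexpm.mul hUm.abs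
  refine ⟨hmeas.aestronglyMeasurable, ?_⟩
  rw [hasFiniteIntegral_iff_ofReal (Eventually.of_forall fun y => by positivity)]
  have h1 : ∀ y, ENNReal.ofReal (Real.exp (-b * y) * |UU l l' y|) =
      ∑' n, ENNReal.ofReal (Real.exp (-b * y) * |un l l' n y|) := by
    intro y
    have hs := (hasSum_un hr h h' y).2.mul_left (Real.exp (-b * y))
    rw [← hs.tsum_eq, ENNReal.ofReal_tsum_of_nonneg (fun n => by positivity) hs.summable]
  simp only [h1]
  have h2 := lintegral_tsum (μ := volume.restrict (Iio x0))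
    (f := fun (n : ℤ) (y : ℝ) => ENNReal.ofReal (Real.exp (-b * y) * |un l l' n y|))
    (fun n => (Measurable.ennreal_ofReal (hexpm.mul (un_meas l l' n).abs)).aemeasurable)
  rw [h2]
  refine lt_of_le_of_lt (ENNReal.tsum_le_tsum hterm) ?_
  rw [← ENNReal.ofReal_tsum_of_nonneg (fun n => by positivity) hsumm]
  exact ENNReal.ofReal_lt_top

/-- equality of all counting indices gives equality of the sequences -/
theorem eq_of_UU {H : ℝ → ℝ} (hr : 0 < r) (h : TS H r R l) (h' : TS H r R l')
    (hU : ∀ y, UU l l' y = 0) : l = l' := by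
  have hidx : ∀ y, idx l y = idx l' y := by
    intro y
    have := hU y
    unfold UU at this
    exact_mod_cast sub_eq_zero.1 this
  funext n
  apply le_antisymm
  · rw [le_idx_iff hr h, hidx, ← le_idx_iff hr h']
  · rw [le_idx_iff hr h', ← hidx, ← le_idx_iff hr h]

theorem idx_right {H : ℝ → ℝ} (hr : 0 < r) (h : TS H r R l) (y : ℝ) :
    ∃ ε : ℝ, 0 < ε ∧ ∀ z, y ≤ z → z < y + ε → idx l z = idx l y := by
  obtain ⟨h1, h2⟩ := idx_spec hr h y
  refine ⟨l (idx l y + 1) - y, by linarith, fun z hz1 hz2 => ?_⟩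
  apply le_antisymm
  · by_contra hcon
    push Not at hcon
    have h3 : idx l y + 1 ≤ idx l z := by omega
    rw [← le_idx_iff hr h] at h3
    linarith
  · exact idx_mono hr h hz1

/-- **no left-asymptotic pairs** -/
theorem nla_full (hΩ : MeasurableSet Ω) (h0 : 0 < volume Ω) (h1 : volume Ω < ⊤) (hr : 0 < r) :
    NLA (Hm (volume.restrict Ω)) r R := by
  intro l l' h h' hlim
  have hf := fin_of h1
  have hμ : 0 < (volume.restrict Ω).real univ := by
    rw [measureReal_restrict_apply_univ]
    exact ENNReal.toReal_pos h0.ne' h1.ne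
  obtain ⟨M, hM0, hM⟩ := UU_bdd hr hμ h h'
  have hT := T1_of_TS hΩ h1 hr h
  obtain ⟨a, η, C, c, ha, hη, hC, hc, hFT, k0, hk0⟩ := decay_main hΩ h0 h1 hr h h' hT hM hlim
  have hR : 0 < R := hr.trans_le h.rle
  set b := c / (2 * R) with hb
  have hb0 : 0 < b := by positivity
  have hbR : b * R ≤ c / 2 := by
    rw [hb]; apply le_of_eq; field_simp
  have hUm := UU_meas hr h h'
  set g : ℝ → ℝ := fun y => ps a 1 (y - 0) * UU l l' y with hg
  have hpm : Measurable fun y : ℝ => ps a 1 (y - 0) :=
    ((ps_cont a 1).comp (continuous_id.sub continuous_const)).measurable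
  have hgm : Measurable g := hpm.mul hUm
  have hgi : Integrable g := by
    have h3 : Integrable (fun y : ℝ => ps a 1 (y - 0)) := (ps_int ha le_rfl).comp_sub_right 0
    exact h3.mul_bdd (c := M) hUm.aestronglyMeasurable (Eventually.of_forall hM)
  have hgU : ∀ y, |g y| ≤ |UU l l' y| := by
    intro y
    rw [hg]
    simp only [abs_mul]
    rw [abs_of_nonneg (ps_nonneg _ _ _)]
    have := ps_le_one a 1 (y - 0)
    have := abs_nonneg (UU l l' y)
    nlinarith
  have hexp := exp_int hr h h' hC hc hb0 hbR hk0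
  set x0 := min (l (k0 + 1)) (l' (k0 + 1)) with hx0
  have hΦ : Integrable (fun y => (1 + Real.exp (-b * y)) * |g y|) := by
    have hB : Integrable (fun y => (1 + Real.exp (-b * x0)) * |g y| +
        (Iio x0).indicator (fun y => Real.exp (-b * y) * |UU l l' y|) y) :=
      (hgi.abs.const_mul _).add ((integrable_indicator_iff measurableSet_Iio).2 hexp)
    refine Integrable.mono' hB ?_ (Eventually.of_forall fun y => ?_)
    · refine Measurable.aestronglyMeasurable (Measurable.mul ?_ hgm.abs)
      exact (by fun_prop : Continuous fun y : ℝ => 1 + Real.exp (-b * y)).measurable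
    · rw [Real.norm_of_nonneg (by positivity)]
      have hgy := hgU y
      have h5 := Real.exp_pos (-b * y)
      have h6 := Real.exp_pos (-b * x0)
      have h7 := abs_nonneg (g y)
      by_cases hy : y < x0
      · rw [indicator_of_mem (show y ∈ Iio x0 from hy)]
        have : Real.exp (-b * y) * |g y| ≤ Real.exp (-b * y) * |UU l l' y| :=
          mul_le_mul_of_nonneg_left hgy h5.le
        nlinarith
      · rw [indicator_of_notMem (show y ∉ Iio x0 from hy), add_zero]
        push Not at hy
        have : Real.exp (-b * y) ≤ Real.exp (-b * x0) := Real.exp_le_exp.2 (by nlinarith)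
        exact mul_le_mul_of_nonneg_right (by linarith) h7
  have hz : ∀ ξ : ℝ, |ξ| ≤ 2 * π * η → LL g (ξ * Complex.I) = 0 := by
    intro ξ hξ
    have h3 := hFT (ξ / (2 * π)) (by
      rw [abs_div, abs_of_pos (by positivity : (0:ℝ) < 2 * π), div_le_iff₀ (by positivity)]
      linarith)
    rw [← h3, Real.fourier_eq']
    unfold LL
    refine integral_congr_ae (Eventually.of_forall fun y => ?_)
    have hin : inner ℝ y (ξ / (2 * π)) = ξ / (2 * π) * y := by simp
    simp only [smul_eq_mul, hin, hg]
    congr 2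
    have hp : (π : ℂ) ≠ 0 := by exact_mod_cast Real.pi_ne_zero
    push_cast
    field_simp
  have hae := strip_unique hb0 (by positivity : 0 < 2 * π * η) hgm hΦ hz
  -- the weight vanishes only on a countable set
  have hcount : (range fun n : ℤ => (n:ℝ) * π / a).Countable := countable_range _
  have hps : ∀ᵐ y : ℝ, ps a 1 (y - 0) ≠ 0 := by
    filter_upwards [hcount.ae_notMem volume] with y hy h3
    apply hy
    rw [sub_zero] at h3
    unfold ps at h3
    have h4 : Real.sinc (a * y) = 0 := by
      have := pow_eq_zero_iff (n := 2 * 1) (by norm_num) |>.1 h3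
      simpa using this
    by_cases h5 : a * y = 0
    · rw [h5, Real.sinc_zero] at h4
      exact absurd h4 one_ne_zero
    · rw [Real.sinc_of_ne_zero h5, div_eq_zero_iff] at h4
      obtain ⟨n, hn⟩ := Real.sin_eq_zero_iff.1 (h4.resolve_right h5)
      refine ⟨n, ?_⟩
      simp only
      rw [hn]
      field_simp
  have hU0 : ∀ᵐ y : ℝ, UU l l' y = 0 := by
    filter_upwards [hae, hps] with y hy1 hy2
    exact (mul_eq_zero.1 hy1).resolve_left hy2
  refine eq_of_UU hr h h' (fun y => ?_)
  obtain ⟨ε1, hε1, he1⟩ := idx_right hr h y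
  obtain ⟨ε2, hε2, he2⟩ := idx_right hr h' y
  have hpos : volume (Ioo y (y + min ε1 ε2)) ≠ 0 := by
    rw [Real.volume_Ioo]
    simp [hε1, hε2]
  have hex : ∃ z ∈ Ioo y (y + min ε1 ε2), UU l l' z = 0 := by
    by_contra hcon
    push Not at hcon
    apply hpos
    refine measure_mono_null ?_ (ae_iff.1 hU0)
    intro z hz
    exact hcon z hz
  obtain ⟨z, hz1, hz2⟩ := hex
  have hm1 := min_le_left ε1 ε2
  have hm2 := min_le_right ε1 ε2
  unfold UU at hz2 ⊢
  rw [he1 z hz1.1.le (by linarith [hz1.2]), he2 z hz1.1.le (by linarith [hz1.2])] at hz2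
  exact hz2

/-- every level-one translation set is periodic, and there are finitely many up to translation -/
theorem full (hΩ : MeasurableSet Ω) (h0 : 0 < volume Ω) (h1 : volume Ω < ⊤) :
    (∀ Λ : Set ℝ, Λ.Countable → T1 Ω Λ → PS Λ) ∧
      {Λ : Set ℝ | (Λ.Countable ∧ T1 Ω Λ) ∧ 0 ∈ Λ}.Finite := by
  have hf := fin_of h1
  obtain ⟨r, R, x0, hr, hd, hall⟩ := exists_params hΩ h0 h1
  have hμ : 0 < (volume.restrict Ω).real univ := by
    rw [measureReal_restrict_apply_univ]
    exact ENNReal.toReal_pos h0.ne' h1.ne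
  have hfin := main_abstract (R := R) hr (prim_of h1) hd (dc_Hm hr hμ) (nla_full hΩ h0 h1 hr)
  refine ⟨fun Λ hc hT => ?_, ?_⟩
  · obtain ⟨l, hl, rfl⟩ := hall Λ hc hT
    obtain ⟨p, hp, hper⟩ := periodic_of_finite hfin hl
    exact ps_of_periodic (hl.mono hr) hp hper
  · refine (hfin.image range).subset ?_
    rintro Λ ⟨⟨hc, hT⟩, h0Λ⟩
    obtain ⟨l, hl, rfl⟩ := hall Λ hc hT
    obtain ⟨k, hk⟩ := h0Λ
    refine ⟨fun n => l (n + k) - 0, ⟨hl.shift k 0, by simp [hk]⟩, ?_⟩
    simp only [sub_zero]
    exact (Equiv.addRight k).surjective.range_comp l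

end Pool.Agent.L5helper94.TF
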