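import Pool.Agent.L5helper94.TF.Count
import Pool.Agent.Helper575.NP15

open MeasureTheory Set Filter Topology Real
open scoped ENNReal

namespace Pool.Agent.L5helper94.TF

open Helper575.NP

variable {Ω : Set ℝ} {r R : ℝ} {l l' : ℤ → ℝ}

/-- indicator of the tile -/
noncomputable def fI (Ω : Set ℝ) (t : ℝ) : ℝ := Ω.indicator (fun _ => (1:ℝ)) t

theorem fI_meas (hΩ : MeasurableSet Ω) : Measurable (fI Ω) := measurable_const.indicator hΩ

theorem fI_nonneg (Ω : Set ℝ) (t : ℝ) : 0 ≤ fI Ω t := indicator_nonneg (fun _ _ => zero_le_one) t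

theorem fI_le_one (Ω : Set ℝ) (t : ℝ) : fI Ω t ≤ 1 := indicator_le_self' (fun _ _ => zero_le_one) t

theorem fI_int (hΩ : MeasurableSet Ω) (h1 : volume Ω < ⊤) : Integrable (fI Ω) :=
  (integrable_indicator_iff hΩ).2 (integrableOn_const h1.ne)

theorem fI_integral (hΩ : MeasurableSet Ω) : ∫ t, fI Ω t = volume.real Ω := by
  unfold fI
  rw [integral_indicator hΩ]
  simp

theorem Hm_eq (hΩ : MeasurableSet Ω) (z : ℝ) :
    Hm (volume.restrict Ω) z = ∫ t, fI Ω t * (if t ≤ z then 1 else 0) := by
  have h1 : (fun t => fI Ω t * (if t ≤ z then (1:ℝ) else 0)) = (Iic z ∩ Ω).indicator (fun _ => (1:ℝ)) := by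
    funext t
    unfold fI
    by_cases ht : t ∈ Ω <;> by_cases hz : t ≤ z
    · rw [indicator_of_mem ht, if_pos hz, indicator_of_mem (show t ∈ Iic z ∩ Ω from ⟨hz, ht⟩)]; ring
    · rw [indicator_of_mem ht, if_neg hz, indicator_of_notMem (fun h => hz h.1)]; ring
    · rw [indicator_of_notMem ht, indicator_of_notMem (fun h => ht h.2)]; ring
    · rw [indicator_of_notMem ht, indicator_of_notMem (fun h => ht h.2)]; ring
  rw [h1, integral_indicator (measurableSet_Iic.inter hΩ)]
  unfold Hm
  rw [measureReal_restrict_apply measurableSet_Iic]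
  simp

theorem term_eq (hΩ : MeasurableSet Ω) (h1 : volume Ω < ⊤) (x : ℝ) (n : ℤ) :
    ∫ t, fI Ω t * un l l' n (x - t) =
      Hm (volume.restrict Ω) (x - l n) - Hm (volume.restrict Ω) (x - l' n) := by
  have hi : ∀ z : ℝ, Integrable (fun t => fI Ω t * (if t ≤ z then (1:ℝ) else 0)) := by
    intro z
    refine (fI_int hΩ h1).mul_bdd (c := 1) ?_ (Eventually.of_forall fun t => ?_)
    · exact (Measurable.ite measurableSet_Iic measurable_const measurable_const).aestronglyMeasurable
    · split_ifs <;> simp
  rw [Hm_eq hΩ, Hm_eq hΩ, ← integral_sub (hi _) (hi _)]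
  refine integral_congr_ae (Eventually.of_forall fun t => ?_)
  simp only [un]
  have e1 : (l n ≤ x - t) = (t ≤ x - l n) := by rw [eq_iff_iff]; constructor <;> intro h <;> linarith
  have e2 : (l' n ≤ x - t) = (t ≤ x - l' n) := by rw [eq_iff_iff]; constructor <;> intro h <;> linarith
  simp only [e1, e2]
  ring

theorem hasSum_conv (hΩ : MeasurableSet Ω) (h1 : volume Ω < ⊤) (hr : 0 < r)
    (h : TS (Hm (volume.restrict Ω)) r R l) (h' : TS (Hm (volume.restrict Ω)) r R l')
    {M : ℝ} (hM : ∀ y, |UU l l' y| ≤ M) (x : ℝ) :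
    HasSum (fun n => Hm (volume.restrict Ω) (x - l n) - Hm (volume.restrict Ω) (x - l' n))
      (∫ t, fI Ω t * UU l l' (x - t)) := by
  have hm1 : ∀ n, Measurable (fun t => un l l' n (x - t)) := fun n =>
    (un_meas l l' n).comp (measurable_const.sub measurable_id)
  have hm2 : Measurable (fun t => UU l l' (x - t)) :=
    (UU_meas hr h h').comp (measurable_const.sub measurable_id)
  have key := hasSum_integral_of_dominated_convergence (μ := (volume : Measure ℝ))
    (F := fun n t => fI Ω t * un l l' n (x - t)) (f := fun t => fI Ω t * UU l l' (x - t))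
    (fun n t => fI Ω t * |un l l' n (x - t)|)
    (fun n => ((fI_meas hΩ).mul (hm1 n)).aestronglyMeasurable)
    (fun n => Eventually.of_forall fun t => by
      rw [norm_mul, Real.norm_of_nonneg (fI_nonneg _ _), Real.norm_eq_abs])
    (Eventually.of_forall fun t => ((hasSum_un hr h h' (x - t)).2.mul_left _).summable)
    (by
      have : (fun t => ∑' n, fI Ω t * |un l l' n (x - t)|) = fun t => fI Ω t * |UU l l' (x - t)| := by
        funext t
        exact ((hasSum_un hr h h' (x - t)).2.mul_left _).tsum_eq
      rw [this]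
      refine (fI_int hΩ h1).mul_bdd (c := M) hm2.abs.aestronglyMeasurable
        (Eventually.of_forall fun t => ?_)
      rw [Real.norm_eq_abs, abs_abs]
      exact hM _)
    (Eventually.of_forall fun t => (hasSum_un hr h h' (x - t)).1.mul_left _)
  simpa only [term_eq hΩ h1] using key

theorem sum_abs_un_le (hr : 0 < r) {H : ℝ → ℝ} (h : TS H r R l) (h' : TS H r R l') (y : ℝ)
    (s : Finset ℤ) : ∑ n ∈ s, |un l l' n y| ≤ |UU l l' y| :=
  sum_le_hasSum s (fun n _ => abs_nonneg _) (hasSum_un hr h h' y).2

theorem conv_zero (hΩ : MeasurableSet Ω) (h1 : volume Ω < ⊤) (hr : 0 < r)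
    (h : TS (Hm (volume.restrict Ω)) r R l) (h' : TS (Hm (volume.restrict Ω)) r R l')
    {M : ℝ} (hM : ∀ y, |UU l l' y| ≤ M) (hlim : Tendsto (fun n => l' n - l n) atBot (𝓝 0)) (x : ℝ) :
    ∫ t, fI Ω t * UU l l' (x - t) = 0 := by
  have hf := fin_of h1
  have hP := prim_of h1
  have hM0 : 0 ≤ M := (abs_nonneg _).trans (hM 0)
  set H := Hm (volume.restrict Ω) with hH
  have hS := fun x => hasSum_conv hΩ h1 hr h h' hM x
  have hconst : ∀ y, ∫ t, fI Ω t * UU l l' (y - t) = ∫ t, fI Ω t * UU l l' (x - t) := by
    intro y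
    have := flux_const h h' (fun x => (hS x).summable) y x
    rwa [(hS y).tsum_eq, (hS x).tsum_eq] at this
  set κ := ∫ t, fI Ω t * UU l l' (x - t) with hκ
  have key : ∀ δ : ℝ, 0 < δ → |κ| ≤ 2 * δ := by
    intro δ hδ
    obtain ⟨k0, hk0⟩ := exists_close hlim hδ
    set x0 := min (l (k0 + 1)) (l' (k0 + 1)) with hx0
    have hmono := h.mono hr
    have hmono' := h'.mono hr
    have hzero : ∀ n, k0 < n → ∀ y, y < x0 → un l l' n y = 0 := by
      intro n hn y hy
      have a1 : y < l n := lt_of_lt_of_le (hy.trans_le (min_le_left _ _)) (hmono.monotone (by omega))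
      have a2 : y < l' n := lt_of_lt_of_le (hy.trans_le (min_le_right _ _)) (hmono'.monotone (by omega))
      unfold un
      rw [if_neg (not_le.2 a1), if_neg (not_le.2 a2), sub_zero]
    have hx : ∀ x : ℝ, |κ| ≤ 2 * δ + M * H (x - x0) := by
      intro x
      have hSx := hS x
      rw [hconst x] at hSx
      have hfin : ∀ s : Finset ℤ, |∑ n ∈ s, (H (x - l n) - H (x - l' n))| ≤ 2 * δ + M * H (x - x0) := by
        intro s
        rw [← Finset.sum_filter_add_sum_filter_not s (fun n => n ≤ k0)]
        refine (abs_add_le _ _).trans (add_le_add ?_ ?_)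
        · refine (Finset.abs_sum_le_sum_abs _ _).trans ?_
          have hw := hasSum_window h hδ.le x
          refine le_trans (Finset.sum_le_sum (fun n hn => ?_)) (sum_le_hasSum
            (s.filter (fun n => n ≤ k0)) (fun n _ => ?_) hw)
          · have hn' := (Finset.mem_filter.1 hn).2
            exact pt_bound hP (hk0 n hn')
          · rw [sub_nonneg]; exact hP.mono (by linarith)
        · have e1 : ∑ n ∈ s.filter (fun n => ¬ n ≤ k0), (H (x - l n) - H (x - l' n)) =
              ∫ t, ∑ n ∈ s.filter (fun n => ¬ n ≤ k0), fI Ω t * un l l' n (x - t) := by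
            rw [integral_finset_sum]
            · refine Finset.sum_congr rfl fun n _ => ?_
              exact (term_eq hΩ h1 x n).symm
            · intro n _
              refine (fI_int hΩ h1).mul_bdd (c := 1)
                ((un_meas l l' n).comp (measurable_const.sub measurable_id)).aestronglyMeasurable
                (Eventually.of_forall fun t => ?_)
              unfold un
              split_ifs <;> simp
          rw [e1, hH, Hm_eq hΩ, ← integral_const_mul, ← Real.norm_eq_abs]
          refine norm_integral_le_of_norm_le ?_ (Eventually.of_forall fun t => ?_)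
          · refine Integrable.const_mul ?_ _
            refine (fI_int hΩ h1).mul_bdd (c := 1) ?_ (Eventually.of_forall fun t => ?_)
            · exact (Measurable.ite measurableSet_Iic measurable_const measurable_const).aestronglyMeasurable
            · split_ifs <;> simp
          · rw [← Finset.mul_sum, norm_mul, Real.norm_of_nonneg (fI_nonneg _ _), Real.norm_eq_abs]
            by_cases ht : t ≤ x - x0
            · rw [if_pos ht, mul_one, mul_comm M]
              refine mul_le_mul_of_nonneg_left ?_ (fI_nonneg _ _)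
              refine (Finset.abs_sum_le_sum_abs _ _).trans ?_
              exact (sum_abs_un_le hr h h' _ _).trans (hM _)
            · rw [if_neg ht, mul_zero, mul_zero]
              have : ∑ n ∈ s.filter (fun n => ¬ n ≤ k0), un l l' n (x - t) = 0 := by
                refine Finset.sum_eq_zero fun n hn => ?_
                have hn' := (Finset.mem_filter.1 hn).2
                exact hzero n (by omega) _ (by push Not at ht; linarith)
              rw [this, abs_zero, mul_zero]
      exact le_of_tendsto hSx.abs (Eventually.of_forall hfin)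
    have hlimH : Tendsto (fun x : ℝ => 2 * δ + M * H (x - x0)) atBot (𝓝 (2 * δ + M * 0)) := by
      refine tendsto_const_nhds.add (Tendsto.const_mul M ?_)
      exact hP.bot.comp (tendsto_atBot_add_const_right atBot (-x0) tendsto_id)
    rw [mul_zero, add_zero] at hlimH
    exact ge_of_tendsto hlimH (Eventually.of_forall hx)
  by_contra hne
  have hpos : 0 < |κ| := abs_pos.2 hne
  have := key (|κ| / 4) (by positivity)
  linarith

end Pool.Agent.L5helper94.TF
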