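import Pool.Agent.L5helper94.TF.RConv
import Pool.Agent.L5helper94.TF.Flux

open MeasureTheory Set Filter Topology Real
open scoped ENNReal FourierTransform Convolution

namespace Pool.Agent.L5helper94.TF

open Helper575.NP

variable {Ω : Set ℝ} {r R ρ : ℝ} {l l' : ℤ → ℝ}

/-- normalised window -/
noncomputable def chi (ρ s : ℝ) : ℝ := (Ico 0 ρ).indicator (fun _ => 1 / ρ) s

theorem chi_meas (ρ : ℝ) : Measurable (chi ρ) := measurable_const.indicator measurableSet_Ico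

theorem chi_nonneg (hρ : 0 < ρ) (s : ℝ) : 0 ≤ chi ρ s :=
  indicator_nonneg (fun _ _ => by positivity) s

theorem chi_le (hρ : 0 < ρ) (s : ℝ) : chi ρ s ≤ 1 / ρ :=
  indicator_le_self' (fun _ _ => by positivity) s

theorem chi_abs_le (hρ : 0 < ρ) (s : ℝ) : |chi ρ s| ≤ 1 / ρ := by
  rw [abs_of_nonneg (chi_nonneg hρ s)]; exact chi_le hρ s

theorem chi_int (ρ : ℝ) : Integrable (chi ρ) :=
  (integrable_indicator_iff measurableSet_Ico).2 (integrableOn_const (by simp))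

theorem chi_IB (hρ : 0 < ρ) : IB (chi ρ) := ⟨chi_int ρ, 1 / ρ, chi_abs_le hρ⟩

theorem chi_integral (hρ : 0 < ρ) : ∫ s, chi ρ s = 1 := by
  unfold chi
  rw [integral_indicator measurableSet_Ico]
  simp [hρ.le, hρ.ne']

theorem chi_l1 (hρ : 0 < ρ) : ∫ s, |chi ρ s| = 1 := by
  rw [← chi_integral hρ]
  refine integral_congr_ae (Eventually.of_forall fun s => ?_)
  exact abs_of_nonneg (chi_nonneg hρ s)

/-- mollified tile -/
noncomputable def ph (Ω : Set ℝ) (ρ x : ℝ) : ℝ :=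
  1 / ρ * (Hm (volume.restrict Ω) x - Hm (volume.restrict Ω) (x - ρ))

theorem ph_eq (hΩ : MeasurableSet Ω) (h1 : volume Ω < ⊤) (hρ : 0 < ρ) (x : ℝ) :
    ph Ω ρ x = cR (fI Ω) (chi ρ) x := by
  have hi : ∀ z : ℝ, Integrable (fun t => fI Ω t * (if t ≤ z then (1:ℝ) else 0)) := by
    intro z
    refine (fI_int hΩ h1).mul_bdd (c := 1) ?_ (Eventually.of_forall fun t => ?_)
    · exact (Measurable.ite measurableSet_Iic measurable_const measurable_const).aestronglyMeasurable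
    · split_ifs <;> simp
  unfold ph cR
  rw [Hm_eq hΩ, Hm_eq hΩ, ← integral_sub (hi _) (hi _), ← integral_const_mul]
  refine integral_congr_ae (Eventually.of_forall fun t => ?_)
  simp only [chi]
  by_cases a1 : t ≤ x
  · by_cases a2 : t ≤ x - ρ
    · rw [if_pos a1, if_pos a2, indicator_of_notMem (by
        intro h; have := h.2; linarith)]
      ring
    · push Not at a2
      rw [if_pos a1, if_neg (not_le.2 a2), indicator_of_mem (show x - t ∈ Ico 0 ρ from
        ⟨by linarith, by linarith⟩)]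
      ring
  · push Not at a1
    rw [if_neg (not_le.2 a1), if_neg (by push Not; linarith), indicator_of_notMem (by
        intro h; have := h.1; linarith)]
    ring

theorem ph_nonneg (h1 : volume Ω < ⊤) (hρ : 0 < ρ) (x : ℝ) : 0 ≤ ph Ω ρ x := by
  have hP := prim_of h1
  unfold ph
  have := hP.mono (show x - ρ ≤ x by linarith)
  have h2 : 0 ≤ Hm (volume.restrict Ω) x - Hm (volume.restrict Ω) (x - ρ) := sub_nonneg.2 this
  positivity

theorem ph_le_one (h1 : volume Ω < ⊤) (hρ : 0 < ρ) (x : ℝ) : ph Ω ρ x ≤ 1 := by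
  have hP := prim_of h1
  unfold ph
  have := hP.lip (x - ρ) x (by linarith)
  rw [one_div, inv_mul_le_iff₀ hρ]
  linarith

theorem ph_cont (h1 : volume Ω < ⊤) (ρ : ℝ) : Continuous (ph Ω ρ) := by
  have hP := (prim_of h1).cont
  unfold ph
  fun_prop

theorem ph_int (hΩ : MeasurableSet Ω) (h1 : volume Ω < ⊤) (hρ : 0 < ρ) : Integrable (ph Ω ρ) := by
  have : ph Ω ρ = cR (fI Ω) (chi ρ) := funext (ph_eq hΩ h1 hρ)
  rw [this]
  exact cR_int (fI_int hΩ h1) (chi_int ρ)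

theorem ph_l1 (hΩ : MeasurableSet Ω) (h1 : volume Ω < ⊤) (hρ : 0 < ρ) :
    ∫ x, |ph Ω ρ x| ≤ volume.real Ω := by
  have : ph Ω ρ = cR (fI Ω) (chi ρ) := funext (ph_eq hΩ h1 hρ)
  rw [this]
  have h2 := cR_l1 (fI_int hΩ h1) (chi_IB hρ)
  rw [chi_l1 hρ, mul_one] at h2
  have h3 : ∫ s, |fI Ω s| = volume.real Ω := by
    rw [← fI_integral hΩ]
    refine integral_congr_ae (Eventually.of_forall fun s => ?_)
    exact abs_of_nonneg (fI_nonneg Ω s)
  rwa [h3] at h2

/-- the mollified tile is close to the tile, also after a small translation -/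
theorem ph_close (hΩ : MeasurableSet Ω) (h1 : volume Ω < ⊤) (hρ : 0 < ρ) {ρ0 ω : ℝ}
    (hω : ∀ s : ℝ, |s| ≤ ρ0 → ∫⁻ x, ‖fI Ω (x + s) - fI Ω x‖ₑ ≤ ENNReal.ofReal ω) {c : ℝ}
    (hc : |c| + ρ ≤ ρ0) : ∫⁻ x, ‖ph Ω ρ (x - c) - fI Ω x‖ₑ ≤ ENNReal.ofReal ω := by
  have hfm := fI_meas hΩ
  have hfIB : IB (fI Ω) := ⟨fI_int hΩ h1, 1, fun x => by
    rw [abs_of_nonneg (fI_nonneg Ω x)]; exact fI_le_one Ω x⟩
  have hpt : ∀ x, ‖ph Ω ρ (x - c) - fI Ω x‖ₑ ≤
      ∫⁻ s, ‖chi ρ s‖ₑ * ‖fI Ω (x - c - s) - fI Ω x‖ₑ := by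
    intro x
    have e1 : ph Ω ρ (x - c) - fI Ω x = ∫ s, chi ρ s * (fI Ω (x - c - s) - fI Ω x) := by
      rw [ph_eq hΩ h1 hρ, cR_flip]
      have e2 : fI Ω x = ∫ s, chi ρ s * fI Ω x := by
        rw [integral_mul_const, chi_integral hρ, one_mul]
      have e3 : (∫ s, chi ρ s * fI Ω (x - c - s)) - ∫ s, chi ρ s * fI Ω x =
          ∫ s, chi ρ s * (fI Ω (x - c - s) - fI Ω x) := by
        rw [← integral_sub (cR_integrand (chi_int ρ) hfIB _) ((chi_int ρ).mul_const _)]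
        refine integral_congr_ae (Eventually.of_forall fun s => ?_)
        simp only; ring
      rw [← e3, ← e2]
    rw [e1]
    refine (enorm_integral_le_lintegral_enorm _).trans (le_of_eq ?_)
    refine lintegral_congr fun s => ?_
    rw [enorm_mul]
  have hm : Measurable (fun p : ℝ × ℝ => ‖chi ρ p.2‖ₑ * ‖fI Ω (p.1 - c - p.2) - fI Ω p.1‖ₑ) := by
    have m1 : Measurable (fun p : ℝ × ℝ => ‖chi ρ p.2‖ₑ) :=
      ((chi_meas ρ).comp measurable_snd).enorm
    have m2 : Measurable (fun p : ℝ × ℝ => ‖fI Ω (p.1 - c - p.2) - fI Ω p.1‖ₑ) :=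
      ((hfm.comp ((measurable_fst.sub measurable_const).sub measurable_snd)).sub
        (hfm.comp measurable_fst)).enorm
    exact m1.mul m2
  calc ∫⁻ x, ‖ph Ω ρ (x - c) - fI Ω x‖ₑ
      ≤ ∫⁻ x, ∫⁻ s, ‖chi ρ s‖ₑ * ‖fI Ω (x - c - s) - fI Ω x‖ₑ := lintegral_mono hpt
    _ = ∫⁻ s, ∫⁻ x, ‖chi ρ s‖ₑ * ‖fI Ω (x - c - s) - fI Ω x‖ₑ :=
        lintegral_lintegral_swap hm.aemeasurable
    _ ≤ ∫⁻ s, ‖chi ρ s‖ₑ * ENNReal.ofReal ω := by
        refine lintegral_mono fun s => ?_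
        simp only
        rw [lintegral_const_mul _ (by
          refine Measurable.enorm ?_
          exact (hfm.comp ((measurable_id.sub measurable_const).sub measurable_const)).sub hfm)]
        by_cases hs : s ∈ Ico 0 ρ
        · refine mul_le_mul_right ?_ _
          have h2 := hω (-(c + s)) (by
            rw [abs_neg]
            refine (abs_add_le _ _).trans ?_
            rw [abs_of_nonneg hs.1]
            linarith [hs.2])
          refine le_trans (le_of_eq ?_) h2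
          refine lintegral_congr fun x => ?_
          rw [show x - c - s = x + -(c + s) by ring]
        · unfold chi
          rw [indicator_of_notMem hs]
          simp
    _ = ENNReal.ofReal ω := by
        rw [lintegral_mul_const _ (chi_meas ρ).enorm, ← ofReal_integral_norm_eq_lintegral_enorm
          (chi_int ρ)]
        simp only [Real.norm_eq_abs]
        rw [chi_l1 hρ, ENNReal.ofReal_one, one_mul]

/-- pointwise bound of the local error -/
theorem E_point (hΩ : MeasurableSet Ω) (h1 : volume Ω < ⊤) (hρ : 0 < ρ) {q : ℝ → ℝ} (hq : IB q)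
    {c0 ε : ℝ} (hs : ∀ y, q y ≠ 0 → |y - c0| ≤ ε) (x : ℝ) :
    |cR (ph Ω ρ) q x - (∫ y, q y) * fI Ω (x - c0)| ≤
      (∫ y, |q y|) * (1 / ρ * (Hm (volume.restrict Ω) (x - c0 + ε) -
        Hm (volume.restrict Ω) (x - c0 - ρ - ε)) + fI Ω (x - c0)) := by
  have hP := prim_of h1
  have hphi : IB (ph Ω ρ) := ⟨ph_int hΩ h1 hρ, 1, fun x => by
    rw [abs_of_nonneg (ph_nonneg h1 hρ x)]; exact ph_le_one h1 hρ x⟩
  rw [cR_flip, ← integral_mul_const, ← integral_sub (cR_integrand hq.1 hphi x) (hq.1.mul_const _),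
    ← integral_mul_const, ← Real.norm_eq_abs]
  refine norm_integral_le_of_norm_le (hq.1.abs.mul_const _) (Eventually.of_forall fun y => ?_)
  rw [← mul_sub, norm_mul, Real.norm_eq_abs, Real.norm_eq_abs]
  by_cases hy : q y = 0
  · rw [hy]; simp
  · refine mul_le_mul_of_nonneg_left ?_ (abs_nonneg _)
    have hy' := abs_le.1 (hs y hy)
    have b1 := ph_nonneg h1 hρ (x - y)
    have b2 := fI_nonneg Ω (x - c0)
    have b3 : ph Ω ρ (x - y) ≤ 1 / ρ * (Hm (volume.restrict Ω) (x - c0 + ε) -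
        Hm (volume.restrict Ω) (x - c0 - ρ - ε)) := by
      unfold ph
      refine mul_le_mul_of_nonneg_left ?_ (by positivity)
      have c1 := hP.mono (show x - y ≤ x - c0 + ε by linarith)
      have c2 := hP.mono (show x - c0 - ρ - ε ≤ x - y - ρ by linarith)
      linarith
    rw [abs_le]
    constructor <;> linarith

/-- `L¹` bound of the local error -/
theorem E_l1 (hΩ : MeasurableSet Ω) (h1 : volume Ω < ⊤) (hρ : 0 < ρ) {ρ0 ω : ℝ} (hω0 : 0 ≤ ω)
    (hω : ∀ s : ℝ, |s| ≤ ρ0 → ∫⁻ x, ‖fI Ω (x + s) - fI Ω x‖ₑ ≤ ENNReal.ofReal ω)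
    {q : ℝ → ℝ} (hqm : Measurable q) (hq : IB q)
    {c0 ε : ℝ} (hε : ε + ρ ≤ ρ0) (hs : ∀ y, q y ≠ 0 → |y - c0| ≤ ε) :
    ∫ x, |cR (ph Ω ρ) q x - (∫ y, q y) * fI Ω (x - c0)| ≤ (∫ y, |q y|) * ω := by
  have hfm := fI_meas hΩ
  have hpm : Measurable (ph Ω ρ) := (ph_cont h1 ρ).measurable
  have hfIB : IB (fI Ω) := ⟨fI_int hΩ h1, 1, fun x => by
    rw [abs_of_nonneg (fI_nonneg Ω x)]; exact fI_le_one Ω x⟩
  have hphi : IB (ph Ω ρ) := ⟨ph_int hΩ h1 hρ, 1, fun x => by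
    rw [abs_of_nonneg (ph_nonneg h1 hρ x)]; exact ph_le_one h1 hρ x⟩
  have hEi : Integrable (fun x => cR (ph Ω ρ) q x - (∫ y, q y) * fI Ω (x - c0)) :=
    (cR_int hphi.1 hq.1).sub ((hfIB.shift c0).1.const_mul _)
  have hpt : ∀ x, ‖cR (ph Ω ρ) q x - (∫ y, q y) * fI Ω (x - c0)‖ₑ ≤
      ∫⁻ y, ‖q y‖ₑ * ‖ph Ω ρ (x - y) - fI Ω (x - c0)‖ₑ := by
    intro x
    rw [cR_flip, ← integral_mul_const, ← integral_sub (cR_integrand hq.1 hphi x) (hq.1.mul_const _)]
    refine (enorm_integral_le_lintegral_enorm _).trans (le_of_eq ?_)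
    refine lintegral_congr fun s => ?_
    rw [← mul_sub, enorm_mul]
  have hm : Measurable (fun p : ℝ × ℝ => ‖q p.2‖ₑ * ‖ph Ω ρ (p.1 - p.2) - fI Ω (p.1 - c0)‖ₑ) := by
    have m1 : Measurable (fun p : ℝ × ℝ => ‖q p.2‖ₑ) := (hqm.comp measurable_snd).enorm
    have m2 : Measurable (fun p : ℝ × ℝ => ‖ph Ω ρ (p.1 - p.2) - fI Ω (p.1 - c0)‖ₑ) :=
      ((hpm.comp (measurable_fst.sub measurable_snd)).sub
        (hfm.comp (measurable_fst.sub measurable_const))).enorm
    exact m1.mul m2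
  have key : ∫⁻ x, ‖cR (ph Ω ρ) q x - (∫ y, q y) * fI Ω (x - c0)‖ₑ ≤
      ENNReal.ofReal ((∫ y, |q y|) * ω) := by
    calc ∫⁻ x, ‖cR (ph Ω ρ) q x - (∫ y, q y) * fI Ω (x - c0)‖ₑ
        ≤ ∫⁻ x, ∫⁻ y, ‖q y‖ₑ * ‖ph Ω ρ (x - y) - fI Ω (x - c0)‖ₑ := lintegral_mono hpt
      _ = ∫⁻ y, ∫⁻ x, ‖q y‖ₑ * ‖ph Ω ρ (x - y) - fI Ω (x - c0)‖ₑ :=
          lintegral_lintegral_swap hm.aemeasurable
      _ ≤ ∫⁻ y, ‖q y‖ₑ * ENNReal.ofReal ω := by
          refine lintegral_mono fun y => ?_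
          simp only
          rw [lintegral_const_mul _ (by
            refine Measurable.enorm ?_
            exact (hpm.comp (measurable_id.sub measurable_const)).sub
              (hfm.comp (measurable_id.sub measurable_const)))]
          by_cases hy : q y = 0
          · rw [hy]; simp
          · refine mul_le_mul_right ?_ _
            have h2 := ph_close hΩ h1 hρ hω (c := y - c0) (by linarith [hs y hy])
            refine le_trans (le_of_eq ?_) h2
            rw [← lintegral_sub_right_eq_self (fun x => ‖ph Ω ρ (x - (y - c0)) - fI Ω x‖ₑ) c0]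
            refine lintegral_congr fun x => ?_
            rw [show x - c0 - (y - c0) = x - y by ring]
      _ = ENNReal.ofReal ((∫ y, |q y|) * ω) := by
          rw [lintegral_mul_const _ hqm.enorm, ← ofReal_integral_norm_eq_lintegral_enorm hq.1,
            ENNReal.ofReal_mul (integral_nonneg fun y => abs_nonneg _)]
          rfl
  rw [← ofReal_integral_norm_eq_lintegral_enorm hEi] at key
  refine (ENNReal.ofReal_le_ofReal_iff ?_).1 key
  exact mul_nonneg (integral_nonneg fun y => abs_nonneg _) hω0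

end Pool.Agent.L5helper94.TF
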