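import Pool.Agent.L5helper94.TF.Vanish
import Pool.Agent.L5helper94.TA.Bessel

open MeasureTheory Set Filter Topology Real
open scoped ENNReal FourierTransform Convolution

namespace Pool.Agent.L5helper94.TF

open Pool.Agent.L5helper94

theorem fourier_cont' {q : ℝ → ℂ} (hq : Integrable q) : Continuous (𝓕 q) :=
  VectorFourier.fourierIntegral_continuous (μ := (volume : Measure ℝ)) (f := q)
      Real.continuous_fourierChar (L := innerₗ ℝ) continuous_inner hq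

theorem fourier_bound {q : ℝ → ℂ} (w : ℝ) : ‖𝓕 q w‖ ≤ ∫ x, ‖q x‖ :=
  VectorFourier.norm_fourierIntegral_le_integral_norm _ _ _ _ _

/-- the easy half of Plancherel -/
theorem planch_lower {T : ℝ → ℂ} (hc : Continuous T) (hi : Integrable T) (hF : Integrable (𝓕 T))
    (hF2 : Integrable (fun ξ => ‖𝓕 T ξ‖ ^ 2)) :
    ∫⁻ x, ENNReal.ofReal (‖T x‖ ^ 2) ≤ ENNReal.ofReal (∫ ξ, ‖𝓕 T ξ‖ ^ 2) := by
  have h1 := TA.bessel (𝓕 T) hF hF2
  have h2 : ∀ w, 𝓕 (𝓕 T) w = T (-w) := by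
    intro w
    have h := congrFun (hc.fourierInv_fourier_eq hi hF) (-w)
    rw [← h, Real.fourierInv_eq, Real.fourier_eq]
    refine integral_congr_ae (Eventually.of_forall fun v => ?_)
    simp
  simp only [h2] at h1
  have h3 := (Measure.measurePreserving_neg (volume : Measure ℝ)).lintegral_comp
    (f := fun x => ENNReal.ofReal (‖T x‖ ^ 2)) (by
      refine Measurable.ennreal_ofReal ?_
      exact ((continuous_norm.comp hc).pow 2).measurable)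
  rw [← h3]
  exact h1

theorem bessel_int {q : ℝ → ℂ} (hq : Integrable q) (hq2 : Integrable (fun x => ‖q x‖ ^ 2)) :
    Integrable (fun w => ‖𝓕 q w‖ ^ 2) ∧ ∫ w, ‖𝓕 q w‖ ^ 2 ≤ ∫ x, ‖q x‖ ^ 2 := by
  have h := TA.bessel q hq hq2
  have hc := fourier_cont' hq
  have hm : AEStronglyMeasurable (fun w => ‖𝓕 q w‖ ^ 2) volume :=
    ((continuous_norm.comp hc).pow 2).aestronglyMeasurable
  have hi : Integrable (fun w => ‖𝓕 q w‖ ^ 2) := by
    refine ⟨hm, ?_⟩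
    rw [hasFiniteIntegral_iff_ofReal (Eventually.of_forall fun w => by positivity)]
    exact h.trans_lt ENNReal.ofReal_lt_top
  refine ⟨hi, ?_⟩
  rw [← ofReal_integral_eq_lintegral_ofReal hi (Eventually.of_forall fun w => by positivity)] at h
  exact (ENNReal.ofReal_le_ofReal_iff (integral_nonneg fun w => by positivity)).1 h

theorem sq_int {g : ℝ → ℂ} {B : ℝ} (hg : Integrable g) (hb : ∀ x, ‖g x‖ ≤ B) :
    Integrable (fun x => ‖g x‖ ^ 2) := by
  have : Integrable (fun x => ‖g x‖ * ‖g x‖) := by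
    refine hg.norm.mul_bdd (c := B) hg.norm.aestronglyMeasurable (Eventually.of_forall fun x => ?_)
    rw [norm_norm]; exact hb x
  refine this.congr (Eventually.of_forall fun x => ?_)
  simp only [sq]

/-- the main `L²` inequality -/
theorem L2_main {f χ g : ℝ → ℂ} {Bχ Bg τ : ℝ} (hf : Integrable f) (hχ : Integrable χ)
    (hχb : ∀ x, ‖χ x‖ ≤ Bχ) (hgm : Measurable g) (hg : Integrable g) (hgb : ∀ x, ‖g x‖ ≤ Bg)
    {φ : ℝ → ℂ} (hφ : ∀ x, φ x = ∫ t, f t * χ (x - t)) (hφc : Continuous φ) {Bφ : ℝ}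
    (hφb : ∀ x, ‖φ x‖ ≤ Bφ)
    (hτ : ∀ ξ, 𝓕 g ξ ≠ 0 → ‖𝓕 f ξ‖ ≤ τ) (hτ0 : 0 ≤ τ) :
    ∫⁻ x, ENNReal.ofReal (‖∫ s, φ s * g (x - s)‖ ^ 2) ≤
      ENNReal.ofReal (τ ^ 2 * ∫ x, ‖∫ s, χ s * g (x - s)‖ ^ 2) := by
  set P : ℝ → ℂ := χ ⋆[ContinuousLinearMap.mul ℂ ℂ, volume] g with hP
  set T : ℝ → ℂ := f ⋆[ContinuousLinearMap.mul ℂ ℂ, volume] P with hT
  have hPe : ∀ x, P x = ∫ s, χ s * g (x - s) := fun x => rfl
  have hPi : Integrable P := hχ.integrable_convolution _ hg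
  have hPb : ∀ x, ‖P x‖ ≤ (∫ s, ‖χ s‖) * Bg := fun x => conv_bound hχ hgb x
  have hP2 := sq_int hPi hPb
  have hTi : Integrable T := hf.integrable_convolution _ hPi
  have hφi : Integrable φ := by
    have : φ = f ⋆[ContinuousLinearMap.mul ℂ ℂ, volume] χ := by
      funext x; rw [hφ x]; rfl
    rw [this]
    exact hf.integrable_convolution _ hχ
  have hTe : ∀ x, T x = ∫ s, φ s * g (x - s) := by
    intro x
    have := fub2 hf hχ hgm hgb x
    simp only [← hφ] at this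
    exact this
  have hTc : Continuous T := by
    have h1 : T = g ⋆[ContinuousLinearMap.mul ℂ ℂ, volume] φ := by
      funext x
      rw [hTe x]
      show _ = ∫ t, (ContinuousLinearMap.mul ℂ ℂ) (g t) (φ (x - t))
      rw [← integral_sub_left_eq_self _ volume x]
      refine integral_congr_ae (Eventually.of_forall fun t => ?_)
      simp only [ContinuousLinearMap.mul_apply', sub_sub_cancel]
      ring
    rw [h1]
    refine BddAbove.continuous_convolution_right_of_integrable _ ?_ hg hφc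
    exact ⟨Bφ, by rintro _ ⟨x, rfl⟩; exact hφb x⟩
  have hFP : ∀ ξ, 𝓕 P ξ = 𝓕 χ ξ * 𝓕 g ξ := fun ξ => Real.fourier_mul_convolution_eq hχ hg ξ
  have hFT : ∀ ξ, 𝓕 T ξ = 𝓕 f ξ * 𝓕 P ξ := fun ξ => Real.fourier_mul_convolution_eq hf hPi ξ
  have hbd : ∀ ξ, ‖𝓕 T ξ‖ ≤ τ * ‖𝓕 P ξ‖ := by
    intro ξ
    rw [hFT ξ, norm_mul]
    by_cases h : 𝓕 g ξ = 0
    · rw [hFP ξ, h]; simp
    · exact mul_le_mul_of_nonneg_right (hτ ξ h) (norm_nonneg _)
  obtain ⟨hχ2, -⟩ := bessel_int hχ (sq_int hχ hχb)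
  obtain ⟨hg2, -⟩ := bessel_int hg (sq_int hg hgb)
  obtain ⟨hPF, hPF'⟩ := bessel_int hPi hP2
  have hTFi : Integrable (𝓕 T) := by
    refine Integrable.mono' ((hχ2.add hg2).const_mul τ) (fourier_cont' hTi).aestronglyMeasurable
      (Eventually.of_forall fun ξ => ?_)
    refine (hbd ξ).trans ?_
    rw [hFP ξ, norm_mul]
    simp only [Pi.add_apply]
    apply mul_le_mul_of_nonneg_left _ hτ0
    nlinarith [sq_nonneg (‖𝓕 χ ξ‖ - ‖𝓕 g ξ‖), sq_nonneg ‖𝓕 χ ξ‖, sq_nonneg ‖𝓕 g ξ‖]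
  have hsqb : ∀ ξ, ‖𝓕 T ξ‖ ^ 2 ≤ τ ^ 2 * ‖𝓕 P ξ‖ ^ 2 := fun ξ => by
    rw [← mul_pow]; exact pow_le_pow_left₀ (norm_nonneg _) (hbd ξ) 2
  have hTF2 : Integrable (fun ξ => ‖𝓕 T ξ‖ ^ 2) := by
    refine Integrable.mono' (hPF.const_mul (τ ^ 2))
      ((continuous_norm.comp (fourier_cont' hTi)).pow 2).aestronglyMeasurable
      (Eventually.of_forall fun ξ => ?_)
    rw [Real.norm_of_nonneg (by positivity)]
    exact hsqb ξ
  have h1 := planch_lower hTc hTi hTFi hTF2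
  simp only [hTe] at h1
  refine h1.trans (ENNReal.ofReal_le_ofReal ?_)
  simp only [← hPe]
  have h2 : ∫ ξ, ‖𝓕 T ξ‖ ^ 2 ≤ ∫ ξ, τ ^ 2 * ‖𝓕 P ξ‖ ^ 2 := integral_mono hTF2 (hPF.const_mul _) hsqb
  rw [integral_const_mul] at h2
  exact h2.trans (mul_le_mul_of_nonneg_left hPF' (sq_nonneg _))

end Pool.Agent.L5helper94.TF
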