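import Pool.Agent.L5helper94.TF.Planch

open MeasureTheory Set Filter Topology Real
open scoped ENNReal FourierTransform Convolution

namespace Pool.Agent.L5helper94.TF

/-- integrable and bounded -/
def IB (f : ℝ → ℝ) : Prop := Integrable f ∧ ∃ C : ℝ, ∀ x, |f x| ≤ C

/-- real convolution -/
noncomputable def cR (A B : ℝ → ℝ) (x : ℝ) : ℝ := ∫ s, A s * B (x - s)

theorem cR_flip (A B : ℝ → ℝ) (x : ℝ) : cR A B x = ∫ y, B y * A (x - y) := by
  unfold cR
  rw [← integral_sub_left_eq_self _ volume x]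
  refine integral_congr_ae (Eventually.of_forall fun t => ?_)
  simp only [sub_sub_cancel]
  ring

theorem cR_eq_conv (A B : ℝ → ℝ) : cR A B = A ⋆[ContinuousLinearMap.mul ℝ ℝ, volume] B := by
  funext x
  rfl

theorem cR_integrand {A B : ℝ → ℝ} (hA : Integrable A) (hB : IB B) (x : ℝ) :
    Integrable (fun s => A s * B (x - s)) := by
  obtain ⟨hB1, C, hC⟩ := hB
  exact hA.mul_bdd (c := C) (hB1.comp_sub_left x).aestronglyMeasurable
    (Eventually.of_forall fun s => hC _)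

theorem cR_bound {A B : ℝ → ℝ} (hA : Integrable A) {C : ℝ} (hC : ∀ x, |B x| ≤ C)
    (x : ℝ) : |cR A B x| ≤ (∫ s, |A s|) * C := by
  have := norm_integral_le_of_norm_le (μ := volume) (f := fun s => A s * B (x - s))
      (g := fun s => |A s| * C) (hA.abs.mul_const C) (Eventually.of_forall fun s => by
        rw [norm_mul]
        exact mul_le_mul_of_nonneg_left (hC _) (norm_nonneg _))
  rwa [integral_mul_const] at this

theorem cR_int {A B : ℝ → ℝ} (hA : Integrable A) (hB : Integrable B) : Integrable (cR A B) := by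
  rw [cR_eq_conv]
  exact hA.integrable_convolution _ hB

theorem cR_IB {A B : ℝ → ℝ} (hA : Integrable A) (hB : IB B) : IB (cR A B) := by
  obtain ⟨hB1, C, hC⟩ := hB
  exact ⟨cR_int hA hB1, (∫ s, |A s|) * C, cR_bound hA hC⟩

theorem cR_l1 {A B : ℝ → ℝ} (hA : Integrable A) (hB : IB B) :
    ∫ x, |cR A B x| ≤ (∫ s, |A s|) * ∫ s, |B s| := by
  have hBa : IB (fun x => |B x|) := ⟨hB.1.abs, by
    obtain ⟨C, hC⟩ := hB.2
    exact ⟨C, fun x => by rw [abs_abs]; exact hC x⟩⟩
  have h1 : ∫ x, |cR A B x| ≤ ∫ x, cR (fun s => |A s|) (fun s => |B s|) x := by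
    refine integral_mono (cR_int hA hB.1).abs (cR_int hA.abs hB.1.abs) (fun x => ?_)
    have h2 := norm_integral_le_of_norm_le (μ := volume) (f := fun s => A s * B (x - s))
      (g := fun s => |A s| * |B (x - s)|) (cR_integrand hA.abs hBa x)
      (Eventually.of_forall fun s => by rw [norm_mul, Real.norm_eq_abs, Real.norm_eq_abs])
    exact h2
  refine h1.trans (le_of_eq ?_)
  rw [cR_eq_conv]
  have := integral_convolution (ContinuousLinearMap.mul ℝ ℝ) (μ := (volume : Measure ℝ))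
    (ν := (volume : Measure ℝ)) hA.abs hB.1.abs
  rw [this]
  rfl

theorem IB.sq {f : ℝ → ℝ} (hf : IB f) : Integrable (fun x => f x ^ 2) := by
  obtain ⟨h1, C, hC⟩ := hf
  have : Integrable (fun x => f x * f x) :=
    h1.mul_bdd (c := C) h1.aestronglyMeasurable (Eventually.of_forall hC)
  refine this.congr (Eventually.of_forall fun x => ?_)
  simp only [_root_.sq]

theorem IB.add {f g : ℝ → ℝ} (hf : IB f) (hg : IB g) : IB (fun x => f x + g x) := by
  obtain ⟨h1, C, hC⟩ := hf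
  obtain ⟨h2, D, hD⟩ := hg
  exact ⟨h1.add h2, C + D, fun x => (abs_add_le _ _).trans (add_le_add (hC x) (hD x))⟩

theorem IB.neg {f : ℝ → ℝ} (hf : IB f) : IB (fun x => - f x) := by
  obtain ⟨h1, C, hC⟩ := hf
  exact ⟨h1.neg, C, fun x => by rw [abs_neg]; exact hC x⟩

theorem IB.sub {f g : ℝ → ℝ} (hf : IB f) (hg : IB g) : IB (fun x => f x - g x) := by
  have := hf.add hg.neg
  simpa only [← sub_eq_add_neg] using this

theorem IB.const_mul {f : ℝ → ℝ} (hf : IB f) (c : ℝ) : IB (fun x => c * f x) := by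
  obtain ⟨h1, C, hC⟩ := hf
  exact ⟨h1.const_mul c, |c| * C, fun x => by
    rw [abs_mul]; exact mul_le_mul_of_nonneg_left (hC x) (abs_nonneg _)⟩

theorem IB.abs {f : ℝ → ℝ} (hf : IB f) : IB (fun x => |f x|) := by
  obtain ⟨h1, C, hC⟩ := hf
  exact ⟨h1.abs, C, fun x => by rw [abs_abs]; exact hC x⟩

theorem IB.mul_bdd {f g : ℝ → ℝ} (hf : IB f) (hg : Measurable g) {D : ℝ} (hD : ∀ x, |g x| ≤ D) :
    IB (fun x => f x * g x) := by
  obtain ⟨h1, C, hC⟩ := hf
  refine ⟨h1.mul_bdd (c := D) hg.aestronglyMeasurable (Eventually.of_forall hD), C * D, fun x => ?_⟩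
  rw [abs_mul]
  exact mul_le_mul (hC x) (hD x) (abs_nonneg _) ((abs_nonneg _).trans (hC x))

theorem IB.shift {f : ℝ → ℝ} (hf : IB f) (c : ℝ) : IB (fun x => f (x - c)) := by
  obtain ⟨h1, C, hC⟩ := hf
  exact ⟨h1.comp_sub_right c, C, fun x => hC _⟩

theorem IB.zero : IB (fun _ => 0) := ⟨integrable_zero _ _ _, 0, fun x => by simp⟩

theorem IB.sum {ι : Type*} (s : Finset ι) {q : ι → ℝ → ℝ} (h : ∀ i ∈ s, IB (q i)) :
    IB (fun x => ∑ i ∈ s, q i x) := by
  classical
  induction s using Finset.induction_on with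
  | empty => simpa using IB.zero
  | insert a s ha ih =>
    have h1 := (h a (Finset.mem_insert_self a s)).add (ih (fun i hi => h i (Finset.mem_insert_of_mem hi)))
    have e : (fun x => ∑ i ∈ insert a s, q i x) = fun x => q a x + ∑ i ∈ s, q i x := by
      funext x; rw [Finset.sum_insert ha]
    rw [e]; exact h1

theorem cR_sq {A B : ℝ → ℝ} (hA : Integrable A) (hB : IB B) {C : ℝ} (hC : ∀ x, |B x| ≤ C) :
    ∫ x, cR A B x ^ 2 ≤ (∫ s, |A s|) ^ 2 * (C * ∫ s, |B s|) := by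
  have hC0 : 0 ≤ C := (abs_nonneg _).trans (hC 0)
  have hA0 : 0 ≤ ∫ s, |A s| := integral_nonneg fun s => abs_nonneg _
  have hI := cR_IB hA hB
  have h1 : ∫ x, cR A B x ^ 2 ≤ ∫ x, ((∫ s, |A s|) * C) * |cR A B x| := by
    refine integral_mono hI.sq (hI.1.abs.const_mul _) (fun x => ?_)
    simp only
    rw [← sq_abs, sq]
    exact mul_le_mul_of_nonneg_right (cR_bound hA hC x) (abs_nonneg _)
  rw [integral_const_mul] at h1
  have h2 := mul_le_mul_of_nonneg_left (cR_l1 hA hB) (mul_nonneg hA0 hC0)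
  refine h1.trans (h2.trans (le_of_eq ?_))
  ring

theorem cR_add {A B D : ℝ → ℝ} (hA : Integrable A) (hB : IB B) (hD : IB D) (x : ℝ) :
    cR A (fun y => B y + D y) x = cR A B x + cR A D x := by
  unfold cR
  rw [← integral_add (cR_integrand hA hB x) (cR_integrand hA hD x)]
  refine integral_congr_ae (Eventually.of_forall fun t => ?_)
  simp only; ring

theorem cR_sum {ι : Type*} {A : ℝ → ℝ} (hA : Integrable A) (s : Finset ι) {q : ι → ℝ → ℝ}
    (h : ∀ i ∈ s, IB (q i)) (x : ℝ) :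
    cR A (fun y => ∑ i ∈ s, q i y) x = ∑ i ∈ s, cR A (q i) x := by
  unfold cR
  rw [← integral_finset_sum s (fun i hi => cR_integrand hA (h i hi) x)]
  refine integral_congr_ae (Eventually.of_forall fun t => ?_)
  simp only
  rw [Finset.mul_sum]

/-- real form of the main `L²` inequality -/
theorem L2_real {f χ g φ : ℝ → ℝ} {Bχ Bφ τ : ℝ} (hf : Integrable f) (hχ : Integrable χ)
    (hχb : ∀ x, |χ x| ≤ Bχ) (hgm : Measurable g) (hg : IB g)
    (hφ : ∀ x, φ x = cR f χ x) (hφc : Continuous φ) (hφb : ∀ x, |φ x| ≤ Bφ)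
    (hτ : ∀ ξ, 𝓕 (fun y => ((g y : ℝ) : ℂ)) ξ ≠ 0 → ‖𝓕 (fun y => ((f y : ℝ) : ℂ)) ξ‖ ≤ τ)
    (hτ0 : 0 ≤ τ) :
    ∫ x, cR φ g x ^ 2 ≤ τ ^ 2 * ∫ x, cR χ g x ^ 2 := by
  obtain ⟨hg1, Bg, hgb⟩ := hg
  have hφi : Integrable φ := by
    have : φ = cR f χ := funext hφ
    rw [this]; exact cR_int hf hχ
  have e1 : ∀ (A : ℝ → ℝ) (x : ℝ), ∫ s, ((A s : ℝ) : ℂ) * ((g (x - s) : ℝ) : ℂ) = ((cR A g x : ℝ) : ℂ) := by
    intro A x
    unfold cR
    rw [← integral_complex_ofReal]
    refine integral_congr_ae (Eventually.of_forall fun t => ?_)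
    simp
  have := L2_main (f := fun y => ((f y : ℝ) : ℂ)) (χ := fun y => ((χ y : ℝ) : ℂ))
    (g := fun y => ((g y : ℝ) : ℂ)) (φ := fun y => ((φ y : ℝ) : ℂ)) (Bχ := Bχ) (Bg := Bg) (Bφ := Bφ)
    (τ := τ) hf.ofReal hχ.ofReal (fun x => by rw [Complex.norm_real]; exact hχb x)
    (Complex.measurable_ofReal.comp hgm) hg1.ofReal
    (fun x => by rw [Complex.norm_real]; exact hgb x)
    (fun x => by
      rw [hφ x]; unfold cR
      rw [← integral_complex_ofReal]
      refine integral_congr_ae (Eventually.of_forall fun t => ?_)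
      simp)
    (Complex.continuous_ofReal.comp hφc) (fun x => by rw [Complex.norm_real]; exact hφb x) hτ hτ0
  simp only [e1, Complex.norm_real, Real.norm_eq_abs, sq_abs] at this
  have hT : IB (cR φ g) := cR_IB hφi ⟨hg1, Bg, hgb⟩
  rw [← ofReal_integral_eq_lintegral_ofReal hT.sq (Eventually.of_forall fun w => by positivity)] at this
  refine (ENNReal.ofReal_le_ofReal_iff ?_).1 this
  exact mul_nonneg (sq_nonneg _) (integral_nonneg fun x => sq_nonneg _)

end Pool.Agent.L5helper94.TF
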