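import Mathlib

open Set Filter Topology
open scoped ComplexConjugate

namespace Pool.Agent.L5helper94.TF

/-- a holomorphic function on a square vanishing on one side vanishes near the centre -/
theorem square_zero {F : ℂ → ℂ} {δ : ℝ} (hδ : 0 < δ)
    (hF : DiffContOnCl ℂ F (Ioo 0 (2 * δ) ×ℂ Ioo (-δ) δ))
    (hz : ∀ w : ℂ, w.re = 0 → |w.im| ≤ δ → F w = 0) : ∀ᶠ w in 𝓝 (δ : ℂ), F w = 0 := by
  set Q : Set ℂ := Ioo 0 (2 * δ) ×ℂ Ioo (-δ) δ with hQ
  have hmem : ∀ w : ℂ, w ∈ Q ↔ (0 < w.re ∧ w.re < 2 * δ) ∧ (-δ < w.im ∧ w.im < δ) := by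
    intro w
    rw [hQ, Complex.mem_reProdIm, mem_Ioo, mem_Ioo]
  have hopen : IsOpen Q := by
    rw [hQ]; exact isOpen_Ioo.reProdIm isOpen_Ioo
  have hbdd : Bornology.IsBounded Q := by
    rw [hQ]; exact (Metric.isBounded_Ioo _ _).reProdIm (Metric.isBounded_Ioo _ _)
  have hδQ : (δ : ℂ) ∈ Q := by
    rw [hmem, Complex.ofReal_re, Complex.ofReal_im]
    exact ⟨⟨hδ, by linarith⟩, by linarith, hδ⟩
  let R1 : ℂ → ℂ := fun w => δ + Complex.I * (w - δ)
  let R2 : ℂ → ℂ := fun w => δ - (w - δ)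
  let R3 : ℂ → ℂ := fun w => δ - Complex.I * (w - δ)
  have r1 : ∀ w, (R1 w).re = δ - w.im ∧ (R1 w).im = w.re - δ := by
    intro w; simp [R1]; ring
  have r2 : ∀ w, (R2 w).re = 2 * δ - w.re ∧ (R2 w).im = -w.im := by
    intro w; simp [R2]; ring
  have r3 : ∀ w, (R3 w).re = δ + w.im ∧ (R3 w).im = δ - w.re := by
    intro w; simp [R3]
  have m1 : MapsTo R1 Q Q := by
    intro w hw
    rw [hmem] at hw ⊢
    rw [(r1 w).1, (r1 w).2]
    refine ⟨⟨?_, ?_⟩, ?_, ?_⟩ <;> linarith [hw.1.1, hw.1.2, hw.2.1, hw.2.2]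
  have m2 : MapsTo R2 Q Q := by
    intro w hw
    rw [hmem] at hw ⊢
    rw [(r2 w).1, (r2 w).2]
    refine ⟨⟨?_, ?_⟩, ?_, ?_⟩ <;> linarith [hw.1.1, hw.1.2, hw.2.1, hw.2.2]
  have m3 : MapsTo R3 Q Q := by
    intro w hw
    rw [hmem] at hw ⊢
    rw [(r3 w).1, (r3 w).2]
    refine ⟨⟨?_, ?_⟩, ?_, ?_⟩ <;> linarith [hw.1.1, hw.1.2, hw.2.1, hw.2.2]
  have d1 : Differentiable ℂ R1 := by simp only [R1]; fun_prop
  have d2 : Differentiable ℂ R2 := by simp only [R2]; fun_prop
  have d3 : Differentiable ℂ R3 := by simp only [R3]; fun_prop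
  have f1 : DiffContOnCl ℂ (F ∘ R1) Q := hF.comp d1.diffContOnCl m1
  have f2 : DiffContOnCl ℂ (F ∘ R2) Q := hF.comp d2.diffContOnCl m2
  have f3 : DiffContOnCl ℂ (F ∘ R3) Q := hF.comp d3.diffContOnCl m3
  have hK : DiffContOnCl ℂ (fun w => F w • ((F ∘ R1) w • ((F ∘ R2) w • (F ∘ R3) w))) Q :=
    hF.smul (f1.smul (f2.smul f3))
  have hfr : EqOn (fun w => F w • ((F ∘ R1) w • ((F ∘ R2) w • (F ∘ R3) w))) (fun _ => (0:ℂ))
      (frontier Q) := by
    intro w hw
    rw [hQ, Complex.frontier_reProdIm, closure_Ioo (by linarith), closure_Ioo (by linarith),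
      frontier_Ioo (by linarith), frontier_Ioo (by linarith)] at hw
    simp only [mem_union, Complex.mem_reProdIm, mem_Icc, mem_insert_iff, mem_singleton_iff] at hw
    simp only [smul_eq_mul, Function.comp_apply]
    rcases hw with ⟨⟨h1, h2⟩, h3 | h3⟩ | ⟨h3 | h3, h1, h2⟩
    · have : F (R3 w) = 0 := hz _ (by rw [(r3 w).1, h3]; ring) (by
        rw [(r3 w).2, abs_le]; constructor <;> linarith)
      rw [this]; ring
    · have : F (R1 w) = 0 := hz _ (by rw [(r1 w).1, h3]; ring) (by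
        rw [(r1 w).2, abs_le]; constructor <;> linarith)
      rw [this]; ring
    · have : F w = 0 := hz _ h3 (by rw [abs_le]; constructor <;> linarith)
      rw [this]; ring
    · have : F (R2 w) = 0 := hz _ (by rw [(r2 w).1, h3]; ring) (by
        rw [(r2 w).2, abs_le]; constructor <;> linarith)
      rw [this]; ring
  have hzero := Complex.eqOn_of_eqOn_frontier hbdd hK diffContOnCl_const hfr
  -- dichotomy at the centre
  have hQn : Q ∈ 𝓝 (δ : ℂ) := hopen.mem_nhds hδQ
  have hAn : AnalyticAt ℂ F δ := (hF.differentiableOn.analyticAt hQn)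
  rcases hAn.eventually_eq_zero_or_eventually_ne_zero with h | h
  · exact h
  · exfalso
    have t : ∀ R : ℂ → ℂ, Differentiable ℂ R → R δ = δ → Function.Injective R →
        ∀ᶠ w in 𝓝[≠] (δ : ℂ), F (R w) ≠ 0 := by
      intro R hR hRδ hinj
      have ht : Tendsto R (𝓝[≠] (δ : ℂ)) (𝓝[≠] (δ : ℂ)) := by
        refine tendsto_nhdsWithin_iff.2 ⟨?_, ?_⟩
        · have := (hR.continuous.tendsto (δ : ℂ))
          rw [hRδ] at this
          exact this.mono_left nhdsWithin_le_nhds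
        · filter_upwards [self_mem_nhdsWithin] with w hw
          intro hcon
          apply hw
          apply hinj
          rw [hRδ]
          exact hcon
      exact ht.eventually h
    have e1 := t R1 d1 (by simp [R1]) (by
      intro x y hxy
      simp only [R1] at hxy
      have := mul_left_cancel₀ Complex.I_ne_zero (add_left_cancel hxy)
      exact sub_left_inj.1 this)
    have e2 := t R2 d2 (by simp [R2]) (by
      intro x y hxy
      simp only [R2] at hxy
      exact sub_left_inj.1 (sub_right_inj.1 hxy))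
    have e3 := t R3 d3 (by simp [R3]) (by
      intro x y hxy
      simp only [R3] at hxy
      have := mul_left_cancel₀ Complex.I_ne_zero (sub_right_inj.1 hxy)
      exact sub_left_inj.1 this)
    have e4 : ∀ᶠ w in 𝓝[≠] (δ : ℂ), w ∈ Q := nhdsWithin_le_nhds hQn
    obtain ⟨w, a0, a1, a2, a3, a4⟩ := (h.and (e1.and (e2.and (e3.and e4)))).exists
    have := hzero a4
    simp only [smul_eq_mul, Function.comp_apply, mul_eq_zero] at this
    rcases this with q | q | q | q
    · exact a0 q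
    · exact a1 q
    · exact a2 q
    · exact a3 q

end Pool.Agent.L5helper94.TF
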