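import Mathlib

open MeasureTheory Set Filter Topology Real
open scoped ENNReal FourierTransform

namespace Pool.Agent.L5helper94.TF

/-- swap in an iterated convolution against a bounded function -/
theorem fub1 {A B u : ℝ → ℂ} {M : ℝ} (hA : Integrable A) (hB : Integrable B) (hu : Measurable u)
    (hM : ∀ x, ‖u x‖ ≤ M) (x : ℝ) :
    ∫ t, A t * ∫ s, B s * u (x - t - s) = ∫ s, B s * ∫ t, A t * u (x - s - t) := by
  have hint : Integrable (fun p : ℝ × ℝ => A p.1 * B p.2 * u (x - p.1 - p.2))
      (volume.prod volume) := by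
    refine (hA.mul_prod hB).mul_bdd (c := M) ?_ (Eventually.of_forall fun p => hM _)
    exact (hu.comp (by fun_prop)).aestronglyMeasurable
  have e1 : ∫ t, A t * ∫ s, B s * u (x - t - s) = ∫ t, ∫ s, A t * B s * u (x - t - s) := by
    refine integral_congr_ae (Eventually.of_forall fun t => ?_)
    simp only
    rw [← integral_const_mul]
    refine integral_congr_ae (Eventually.of_forall fun s => ?_)
    simp only; ring
  rw [e1, integral_integral_swap hint]
  refine integral_congr_ae (Eventually.of_forall fun s => ?_)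
  simp only
  rw [← integral_const_mul]
  refine integral_congr_ae (Eventually.of_forall fun t => ?_)
  simp only
  rw [show x - t - s = x - s - t by ring]
  ring

/-- associativity of convolution against a bounded function -/
theorem fub2 {A B u : ℝ → ℂ} {M : ℝ} (hA : Integrable A) (hB : Integrable B) (hu : Measurable u)
    (hM : ∀ x, ‖u x‖ ≤ M) (x : ℝ) :
    ∫ t, A t * ∫ s, B s * u (x - t - s) = ∫ s, (∫ t, A t * B (s - t)) * u (x - s) := by
  have hint0 : Integrable (fun p : ℝ × ℝ => A p.2 * B (p.1 - p.2)) (volume.prod volume) := by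
    have := hA.convolution_integrand (ContinuousLinearMap.mul ℂ ℂ) hB
    simpa using this
  have hint : Integrable (fun p : ℝ × ℝ => A p.2 * B (p.1 - p.2) * u (x - p.1))
      (volume.prod volume) := by
    refine hint0.mul_bdd (c := M) ?_ (Eventually.of_forall fun p => hM _)
    exact (hu.comp (by fun_prop)).aestronglyMeasurable
  have e1 : ∫ t, A t * ∫ s, B s * u (x - t - s) = ∫ t, ∫ s, A t * B (s - t) * u (x - s) := by
    refine integral_congr_ae (Eventually.of_forall fun t => ?_)
    simp only
    have h := integral_sub_right_eq_self (fun s => B s * u (x - t - s)) t (μ := (volume : Measure ℝ))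
    rw [← h, ← integral_const_mul]
    refine integral_congr_ae (Eventually.of_forall fun s => ?_)
    simp only
    rw [show x - t - (s - t) = x - s by ring]
    ring
  have hs : Integrable (Function.uncurry fun t s => A t * B (s - t) * u (x - s))
      (volume.prod volume) := hint.swap
  rw [e1, integral_integral_swap hs]
  refine integral_congr_ae (Eventually.of_forall fun s => ?_)
  simp only
  rw [← integral_mul_const]

theorem conv_bound {A u : ℝ → ℂ} {M : ℝ} (hA : Integrable A) (hM : ∀ x, ‖u x‖ ≤ M) (x : ℝ) :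
    ‖∫ s, A s * u (x - s)‖ ≤ (∫ s, ‖A s‖) * M := by
  have := norm_integral_le_of_norm_le (μ := volume) (f := fun s => A s * u (x - s))
      (g := fun s => ‖A s‖ * M) (hA.norm.mul_const M) (Eventually.of_forall fun s => by
        rw [norm_mul]
        exact mul_le_mul_of_nonneg_left (hM _) (norm_nonneg _))
  rwa [integral_mul_const] at this

theorem conv_meas {A u : ℝ → ℂ} (hA : Measurable A) (hu : Measurable u) :
    Measurable (fun x => ∫ s, A s * u (x - s)) := by
  have h : StronglyMeasurable (fun p : ℝ × ℝ => A p.2 * u (p.1 - p.2)) := by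
    refine Measurable.stronglyMeasurable ?_
    exact (hA.comp measurable_snd).mul (hu.comp (measurable_fst.sub measurable_snd))
  exact (h.integral_prod_right (ν := volume)).measurable

/-- contraction step -/
theorem vanish_step {f V W : ℝ → ℂ} (hf : Integrable f) (hV : Integrable V) {κ : ℝ}
    (hκi : Integrable fun y => ‖f y‖ * ∫ t, ‖V t - V (t - y)‖)
    (hκ : ∫ y, ‖f y‖ * (∫ t, ‖V t - V (t - y)‖) ≤ κ)
    (hWm : Measurable W) {M : ℝ} (hM : 0 ≤ M) (hWb : ∀ x, ‖W x‖ ≤ M)
    (hVW : ∀ x, ∫ t, V t * W (x - t) = W x)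
    (hfW : ∀ x, ∫ t, f t * W (x - t) = 0) (x : ℝ) : ‖∫ y, f y‖ * ‖W x‖ ≤ κ * M := by
  have hVWi : ∀ x, Integrable (fun t => V t * W (x - t)) := fun x =>
    hV.mul_bdd (c := M) ((hWm.comp (by fun_prop)).aestronglyMeasurable)
      (Eventually.of_forall fun p => hWb _)
  have hd : ∀ y, ‖W x - W (x - y)‖ ≤ (∫ t, ‖V t - V (t - y)‖) * M := by
    intro y
    have e1 : W (x - y) = ∫ t, V (t - y) * W (x - t) := by
      rw [← hVW (x - y)]
      have h := integral_sub_right_eq_self (fun t => V t * W (x - y - t)) y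
        (μ := (volume : Measure ℝ))
      rw [← h]
      refine integral_congr_ae (Eventually.of_forall fun t => ?_)
      simp only
      rw [show x - y - (t - y) = x - t by ring]
    have hVy : Integrable (fun t => V (t - y)) := hV.comp_sub_right y
    have hi2 : Integrable (fun t => V (t - y) * W (x - t)) :=
      hVy.mul_bdd (c := M) ((hWm.comp (by fun_prop)).aestronglyMeasurable)
        (Eventually.of_forall fun p => hWb _)
    rw [e1]
    nth_rw 1 [← hVW x]
    rw [← integral_sub (hVWi x) hi2]
    have e2 : ∫ t, (V t * W (x - t) - V (t - y) * W (x - t))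
        = ∫ t, (V t - V (t - y)) * W (x - t) := by
      refine integral_congr_ae (Eventually.of_forall fun t => ?_)
      simp only; ring
    rw [e2]
    exact conv_bound (A := fun t => V t - V (t - y)) (hV.sub hVy) hWb x
  have hfWi : Integrable (fun t => f t * W (x - t)) :=
    hf.mul_bdd (c := M) ((hWm.comp (by fun_prop)).aestronglyMeasurable)
      (Eventually.of_forall fun p => hWb _)
  have e3 : (∫ y, f y) * W x = ∫ y, f y * (W x - W (x - y)) := by
    have : ∫ y, f y * (W x - W (x - y)) = ∫ y, (f y * W x - f y * W (x - y)) := by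
      refine integral_congr_ae (Eventually.of_forall fun t => ?_)
      simp only; ring
    rw [this, integral_sub (hf.mul_const _) hfWi, hfW x, sub_zero, integral_mul_const]
  rw [← norm_mul, e3]
  have h4 := norm_integral_le_of_norm_le (μ := volume) (f := fun y => f y * (W x - W (x - y)))
      (g := fun y => (‖f y‖ * ∫ t, ‖V t - V (t - y)‖) * M) (hκi.mul_const M)
      (Eventually.of_forall fun y => by
        rw [norm_mul, mul_assoc]
        exact mul_le_mul_of_nonneg_left (hd y) (norm_nonneg _))
  rw [integral_mul_const] at h4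
  exact h4.trans (mul_le_mul_of_nonneg_right hκ hM)

theorem vanish {f V W : ℝ → ℂ} (hf : Integrable f) (hV : Integrable V) {κ : ℝ}
    (hκi : Integrable fun y => ‖f y‖ * ∫ t, ‖V t - V (t - y)‖)
    (hκ : ∫ y, ‖f y‖ * (∫ t, ‖V t - V (t - y)‖) ≤ κ) (hτ : κ < ‖∫ y, f y‖)
    (hWm : Measurable W) {M : ℝ} (hWb : ∀ x, ‖W x‖ ≤ M)
    (hVW : ∀ x, ∫ t, V t * W (x - t) = W x)
    (hfW : ∀ x, ∫ t, f t * W (x - t) = 0) (x : ℝ) : W x = 0 := by
  have hκ0 : 0 ≤ κ := by
    refine le_trans (integral_nonneg fun y => ?_) hκ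
    exact mul_nonneg (norm_nonneg _) (integral_nonneg fun t => norm_nonneg _)
  have hM : 0 ≤ M := (norm_nonneg _).trans (hWb 0)
  set c := ‖∫ y, f y‖ with hc
  have hc0 : 0 < c := hκ0.trans_lt hτ
  have hq0 : 0 ≤ κ / c := by positivity
  have hq1 : κ / c < 1 := (div_lt_one hc0).2 hτ
  have key : ∀ n : ℕ, ∀ x, ‖W x‖ ≤ (κ / c) ^ n * M := by
    intro n
    induction n with
    | zero => intro x; simpa using hWb x
    | succ n ih =>
      intro x
      have := vanish_step hf hV hκi hκ hWm (M := (κ / c) ^ n * M) (by positivity) ih hVW hfW x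
      rw [← hc] at this
      have h2 : ‖W x‖ = (c * ‖W x‖) / c := by field_simp
      rw [h2, div_le_iff₀ hc0]
      refine this.trans (le_of_eq ?_)
      rw [pow_succ]
      field_simp
  have hlim : Tendsto (fun n : ℕ => (κ / c) ^ n * M) atTop (𝓝 (0 * M)) :=
    (tendsto_pow_atTop_nhds_zero_of_lt_one hq0 hq1).mul_const M
  rw [zero_mul] at hlim
  have := ge_of_tendsto' hlim (fun n => key n x)
  exact norm_le_zero_iff.1 this

/-- the transform of a band limited weight times `U` vanishes where the transform of `f` is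
not small -/
theorem FT_zero {f V Ψ U : ℝ → ℂ} (hf : Integrable f) (hV : Integrable V) {κ : ℝ}
    (hκi : Integrable fun y => ‖f y‖ * ∫ t, ‖V t - V (t - y)‖)
    (hκ : ∫ y, ‖f y‖ * (∫ t, ‖V t - V (t - y)‖) ≤ κ)
    (hU : Measurable U) {M : ℝ} (hM : ∀ x, ‖U x‖ ≤ M)
    (hfU : ∀ x, ∫ t, f t * U (x - t) = 0)
    (hΨm : Measurable Ψ) (hΨ : Integrable Ψ) (hVΨ : ∀ x, ∫ t, V t * Ψ (x - t) = Ψ x)
    (ξ : ℝ) (hξ : κ < ‖𝓕 f ξ‖) (x : ℝ) :
    ∫ s, Ψ s * (Complex.exp (-(2 * π * ξ * (x - s) * Complex.I)) * U (x - s)) = 0 := by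
  have hexp : ∀ y : ℝ, ‖Complex.exp (-(2 * π * ξ * y * Complex.I))‖ = 1 := by
    intro y
    have := Complex.norm_exp_ofReal_mul_I (-(2 * π * ξ * y))
    rw [← this]; congr 2; push_cast; ring
  set u : ℝ → ℂ := fun y => Complex.exp (-(2 * π * ξ * y * Complex.I)) * U y with hu
  set g : ℝ → ℂ := fun y => Complex.exp (-(2 * π * ξ * y * Complex.I)) * f y with hg
  have hum : Measurable u := by
    refine Measurable.mul ?_ hU
    exact (by fun_prop : Continuous fun y : ℝ => Complex.exp (-(2 * π * ξ * y * Complex.I))).measurable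
  have huM : ∀ y, ‖u y‖ ≤ M := fun y => by
    rw [hu]; simp only [norm_mul, hexp, one_mul]; exact hM y
  have hgi : Integrable g := by
    refine hf.bdd_mul (c := 1) ?_ (Eventually.of_forall fun y => (hexp y).le)
    exact (by fun_prop : Continuous fun y : ℝ => Complex.exp (-(2 * π * ξ * y * Complex.I))).aestronglyMeasurable
  have hgn : ∀ y, ‖g y‖ = ‖f y‖ := fun y => by rw [hg]; simp only [norm_mul, hexp, one_mul]
  have hgu : ∀ x, ∫ t, g t * u (x - t) = 0 := by
    intro x
    have : ∫ t, g t * u (x - t) = ∫ t, Complex.exp (-(2 * π * ξ * x * Complex.I)) * (f t * U (x - t)) := by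
      refine integral_congr_ae (Eventually.of_forall fun t => ?_)
      simp only [hg, hu]
      have : Complex.exp (-(2 * π * ξ * x * Complex.I))
          = Complex.exp (-(2 * π * ξ * t * Complex.I)) *
            Complex.exp (-(2 * π * ξ * ((x - t : ℝ) : ℂ) * Complex.I)) := by
        rw [← Complex.exp_add]; congr 1; push_cast; ring
      rw [this]; ring
    rw [this, integral_const_mul, hfU x, mul_zero]
  set W : ℝ → ℂ := fun x => ∫ s, Ψ s * u (x - s) with hW
  have hWb : ∀ x, ‖W x‖ ≤ (∫ s, ‖Ψ s‖) * M := fun x => conv_bound hΨ huM x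
  have hWm : Measurable W := conv_meas hΨm hum
  have hVW : ∀ x, ∫ t, V t * W (x - t) = W x := by
    intro x
    simp only [hW]
    rw [fub2 hV hΨ hum huM x]
    simp only [hVΨ]
  have hgW : ∀ x, ∫ t, g t * W (x - t) = 0 := by
    intro x
    simp only [hW]
    rw [fub1 hgi hΨ hum huM x]
    simp only [hgu, mul_zero, integral_zero]
  have hgF : ∫ y, g y = 𝓕 f ξ := by
    rw [Real.fourier_eq']
    refine integral_congr_ae (Eventually.of_forall fun y => ?_)
    simp only [hg, smul_eq_mul]
    congr 2
    simp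
    ring
  have := vanish (f := g) (V := V) (W := W) hgi hV (κ := κ) (by simpa only [hgn] using hκi)
    (by simpa only [hgn] using hκ) (by rw [hgF]; exact hξ) hWm hWb hVW hgW x
  simp only [hW, hu] at this
  rw [← this]
  refine integral_congr_ae (Eventually.of_forall fun s => ?_)
  simp only
  push_cast
  ring_nf

end Pool.Agent.L5helper94.TF
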