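import Pool.Agent.L5helper94.TF.Local

open MeasureTheory Set Filter Topology Real
open scoped ENNReal FourierTransform Convolution

namespace Pool.Agent.L5helper94.TF

open Helper575.NP

variable {Ω : Set ℝ} {r R ρ : ℝ} {l l' : ℤ → ℝ}

/-- almost everywhere at most one tile -/
theorem ae_one (hr : 0 < r) (h : TS (Hm (volume.restrict Ω)) r R l) (hT : T1 Ω (range l)) :
    ∀ᵐ x : ℝ, ∀ n k : ℤ, x - l n ∈ Ω → x - l k ∈ Ω → n = k := by
  have hT' : ∀ᵐ x : ℝ, {t | t ∈ range l ∧ x - t ∈ Ω}.encard = 1 := hT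
  filter_upwards [hT'] with x hx n k hn hk
  obtain ⟨a, ha⟩ := encard_eq_one.1 hx
  have h1 : l n ∈ {t | t ∈ range l ∧ x - t ∈ Ω} := ⟨⟨n, rfl⟩, hn⟩
  have h2 : l k ∈ {t | t ∈ range l ∧ x - t ∈ Ω} := ⟨⟨k, rfl⟩, hk⟩
  rw [ha] at h1 h2
  have h3 : l n = l k := (mem_singleton_iff.1 h1).trans (mem_singleton_iff.1 h2).symm
  exact (h.mono hr).injective h3

theorem sum_disj {x : ℝ} (hx : ∀ n k : ℤ, x - l n ∈ Ω → x - l k ∈ Ω → n = k) (I : Finset ℤ)
    (b : ℤ → ℝ) : (∑ n ∈ I, b n * fI Ω (x - l n)) ^ 2 = ∑ n ∈ I, b n ^ 2 * fI Ω (x - l n) ∧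
      ∑ n ∈ I, fI Ω (x - l n) ≤ 1 := by
  by_cases hex : ∃ n ∈ I, x - l n ∈ Ω
  · obtain ⟨n, hn, hnx⟩ := hex
    have hz : ∀ k ∈ I, k ≠ n → fI Ω (x - l k) = 0 := by
      intro k _ hkn
      unfold fI
      exact indicator_of_notMem (fun hk => hkn (hx k n hk hnx)) _
    have h1 : fI Ω (x - l n) = 1 := by unfold fI; exact indicator_of_mem hnx _
    rw [Finset.sum_eq_single_of_mem n hn (fun k hk hkn => by rw [hz k hk hkn, mul_zero]),
      Finset.sum_eq_single_of_mem n hn (fun k hk hkn => by rw [hz k hk hkn, mul_zero]),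
      Finset.sum_eq_single_of_mem n hn hz, h1]
    constructor
    · ring
    · exact le_rfl
  · push Not at hex
    have hz : ∀ k ∈ I, fI Ω (x - l k) = 0 := by
      intro k hk
      unfold fI
      exact indicator_of_notMem (hex k hk) _
    rw [Finset.sum_eq_zero (fun k hk => by rw [hz k hk, mul_zero]),
      Finset.sum_eq_zero (fun k hk => by rw [hz k hk, mul_zero]), Finset.sum_eq_zero hz]
    constructor
    · ring
    · exact zero_le_one

theorem un_abs_le (n : ℤ) (y : ℝ) : |un l l' n y| ≤ 1 := by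
  unfold un; split_ifs <;> simp

theorem un_supp {n : ℤ} {ε : ℝ} (hn : |l' n - l n| ≤ ε) {y : ℝ} (hy : un l l' n y ≠ 0) :
    |y - l n| ≤ ε := by
  have hn' := abs_le.1 hn
  unfold un at hy
  rw [abs_le]
  by_cases h1 : l n ≤ y <;> by_cases h2 : l' n ≤ y
  · simp [h1, h2] at hy
  · push Not at h2
    constructor <;> linarith
  · push Not at h1
    constructor <;> linarith
  · simp [h1, h2] at hy

theorem un_sign (n : ℤ) : (∀ y, 0 ≤ un l l' n y) ∨ (∀ y, un l l' n y ≤ 0) := by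
  rcases le_total (l n) (l' n) with h | h
  · left
    intro y
    unfold un
    by_cases h2 : l' n ≤ y
    · rw [if_pos (h.trans h2), if_pos h2]; simp
    · rw [if_neg h2]; split_ifs <;> simp
  · right
    intro y
    unfold un
    by_cases h2 : l n ≤ y
    · rw [if_pos h2, if_pos (h.trans h2)]; simp
    · rw [if_neg h2]; split_ifs <;> simp

theorem abs_b {w : ℝ → ℝ} (hw0 : ∀ y, 0 ≤ w y) (n : ℤ) :
    |∫ y, w y * un l l' n y| = ∫ y, |w y * un l l' n y| := by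
  rcases un_sign (l := l) (l' := l') n with h | h
  · rw [abs_of_nonneg (integral_nonneg fun y => mul_nonneg (hw0 y) (h y))]
    refine integral_congr_ae (Eventually.of_forall fun y => ?_)
    exact (abs_of_nonneg (mul_nonneg (hw0 y) (h y))).symm
  · have h2 : ∫ y, |w y * un l l' n y| = ∫ y, -(w y * un l l' n y) := by
      refine integral_congr_ae (Eventually.of_forall fun y => ?_)
      exact abs_of_nonpos (mul_nonpos_of_nonneg_of_nonpos (hw0 y) (h y))
    rw [h2, integral_neg, abs_of_nonpos]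
    exact integral_nonpos fun y => mul_nonpos_of_nonneg_of_nonpos (hw0 y) (h y)

/-- bound of the square of a sum of local pieces -/
theorem sq_sum_bound {I : Finset ℤ} {e : ℤ → ℝ → ℝ} {B : ℤ → ℝ} {κ : ℤ → ℝ → ℝ} {K W : ℝ}
    (hK : 0 ≤ K) (hB : ∀ n ∈ I, 0 ≤ B n) (he : ∀ n ∈ I, IB (e n)) (hκ : ∀ n ∈ I, ∀ x, 0 ≤ κ n x)
    (hpt : ∀ n ∈ I, ∀ x, |e n x| ≤ B n * κ n x) (hsum : ∀ᵐ x : ℝ, ∑ n ∈ I, κ n x ≤ K)
    (hl1 : ∀ n ∈ I, ∫ x, |e n x| ≤ B n * W) :
    ∫ x, (∑ n ∈ I, e n x) ^ 2 ≤ K * W * ∑ n ∈ I, B n ^ 2 := by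
  have h1 : ∀ᵐ x : ℝ, (∑ n ∈ I, e n x) ^ 2 ≤ K * ∑ n ∈ I, B n * |e n x| := by
    filter_upwards [hsum] with x hx
    have h2 : (∑ n ∈ I, e n x) ^ 2 ≤ (∑ n ∈ I, B n * |e n x|) * ∑ n ∈ I, κ n x := by
      refine Finset.sum_sq_le_sum_mul_sum_of_sq_le_mul I
        (fun n hn => mul_nonneg (hB n hn) (abs_nonneg _)) (fun n hn => hκ n hn x) (fun n hn => ?_)
      rw [← sq_abs, sq]
      have := mul_le_mul_of_nonneg_left (hpt n hn x) (abs_nonneg (e n x))
      refine this.trans (le_of_eq ?_)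
      ring
    refine h2.trans ?_
    rw [mul_comm]
    exact mul_le_mul_of_nonneg_right hx (Finset.sum_nonneg fun n hn =>
      mul_nonneg (hB n hn) (abs_nonneg _))
  have hi : Integrable (fun x => K * ∑ n ∈ I, B n * |e n x|) :=
    (integrable_finsetSum I fun n hn => ((he n hn).1.abs.const_mul _)).const_mul _
  have h3 := integral_mono_ae (IB.sum I he).sq hi h1
  refine h3.trans ?_
  rw [integral_const_mul, integral_finsetSum I fun n hn => ((he n hn).1.abs.const_mul _),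
    mul_assoc]
  refine mul_le_mul_of_nonneg_left ?_ hK
  rw [Finset.mul_sum]
  refine Finset.sum_le_sum fun n hn => ?_
  rw [integral_const_mul]
  have := mul_le_mul_of_nonneg_left (hl1 n hn) (hB n hn)
  refine this.trans (le_of_eq ?_)
  ring

theorem window (hΩ : MeasurableSet Ω) (h1 : volume Ω < ⊤) (hr : 0 < r)
    (h : TS (Hm (volume.restrict Ω)) r R l) (h' : TS (Hm (volume.restrict Ω)) r R l')
    (hT : T1 Ω (range l)) {M : ℝ} (hM : ∀ y, |UU l l' y| ≤ M)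
    {ρ0 ω ε τ : ℝ} (hρ : 0 < ρ) (hω0 : 0 ≤ ω) (hε0 : 0 ≤ ε) (hτ0 : 0 ≤ τ)
    (hω : ∀ s : ℝ, |s| ≤ ρ0 → ∫⁻ x, ‖fI Ω (x + s) - fI Ω x‖ₑ ≤ ENNReal.ofReal ω)
    (hε : ε + ρ ≤ ρ0) (h2ε : 2 * ε ≤ ρ) (hsep : 2 * (ρ + ε) < r)
    {w : ℝ → ℝ} (hwm : Measurable w) (hw : IB w) (hw0 : ∀ y, 0 ≤ w y)
    (hFT : ∀ ξ, 𝓕 (fun y => ((w y * UU l l' y : ℝ) : ℂ)) ξ ≠ 0 →
      ‖𝓕 (fun y => ((fI Ω y : ℝ) : ℂ)) ξ‖ ≤ τ)
    (I : Finset ℤ) (hI : ∀ n ∈ I, |l' n - l n| ≤ ε)
    {G1 Gs : ℝ} (hG1 : ∫ y, |w y * (UU l l' y - ∑ n ∈ I, un l l' n y)| ≤ G1)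
    (hGs : ∀ y, |w y * (UU l l' y - ∑ n ∈ I, un l l' n y)| ≤ Gs)
    (hc1 : 9 * ω ≤ volume.real Ω / 4) (hc2 : 6 * τ ^ 2 / ρ ≤ volume.real Ω / 4) :
    volume.real Ω / 2 * ∑ n ∈ I, (∫ y, w y * un l l' n y) ^ 2 ≤
      (6 * τ ^ 2 + 3 * volume.real Ω ^ 2) * (Gs * G1) := by
  have hP := prim_of h1
  set m := volume.real Ω with hm
  have hm0 : 0 ≤ m := measureReal_nonneg
  have hUm := UU_meas hr h h'
  set q : ℤ → ℝ → ℝ := fun n y => w y * un l l' n y with hqd
  have hqm : ∀ n, Measurable (q n) := fun n => hwm.mul (un_meas l l' n)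
  have hq : ∀ n, IB (q n) := fun n => hw.mul_bdd (un_meas l l' n) (un_abs_le n)
  set gr : ℝ → ℝ := fun y => w y * (UU l l' y - ∑ n ∈ I, un l l' n y) with hgr
  set g : ℝ → ℝ := fun y => w y * UU l l' y with hg
  have hgIB : IB g := hw.mul_bdd hUm hM
  have hgm : Measurable g := hwm.mul hUm
  have hgrIB : IB gr := by
    have : gr = fun y => g y - ∑ n ∈ I, q n y := by
      funext y
      simp only [hgr, hg, hqd]
      rw [mul_sub, Finset.mul_sum]
    rw [this]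
    exact hgIB.sub (IB.sum I fun n _ => hq n)
  have hdec : ∀ y, g y = (∑ n ∈ I, q n y) + gr y := by
    intro y
    simp only [hgr, hg, hqd]
    rw [mul_sub, Finset.mul_sum]; ring
  have hsumIB : IB (fun y => ∑ n ∈ I, q n y) := IB.sum I fun n _ => hq n
  have hsupp : ∀ n ∈ I, ∀ y, q n y ≠ 0 → |y - l n| ≤ ε := by
    intro n hn y hy
    refine un_supp (hI n hn) (fun h0 => hy ?_)
    simp only [hqd, h0, mul_zero]
  have hgd : g = fun y => (∑ n ∈ I, q n y) + gr y := funext hdec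
  -- coefficients
  set b : ℤ → ℝ := fun n => ∫ y, q n y with hb
  set B : ℤ → ℝ := fun n => ∫ y, |q n y| with hB
  have hB0 : ∀ n, 0 ≤ B n := fun n => integral_nonneg fun y => abs_nonneg _
  have hbB : ∀ n, |b n| = B n := fun n => abs_b hw0 n
  have hbB2 : ∀ n, B n ^ 2 = b n ^ 2 := fun n => by rw [← hbB n, sq_abs]
  set S := ∑ n ∈ I, b n ^ 2 with hS
  have hSB : ∑ n ∈ I, B n ^ 2 = S := Finset.sum_congr rfl fun n _ => hbB2 n
  have hG1' : 0 ≤ G1 := (integral_nonneg fun y => abs_nonneg _).trans hG1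
  have hGs' : 0 ≤ Gs := (abs_nonneg _).trans (hGs 0)
  have hae := ae_one hr h hT
  have hphi : IB (ph Ω ρ) := ⟨ph_int hΩ h1 hρ, 1, fun x => by
    rw [abs_of_nonneg (ph_nonneg h1 hρ x)]; exact ph_le_one h1 hρ x⟩
  have hfIB : IB (fI Ω) := ⟨fI_int hΩ h1, 1, fun x => by
    rw [abs_of_nonneg (fI_nonneg Ω x)]; exact fI_le_one Ω x⟩
  -- decomposition of `T`
  have hTd : ∀ x, cR (ph Ω ρ) g x = (∑ n ∈ I, cR (ph Ω ρ) (q n) x) + cR (ph Ω ρ) gr x := by
    intro x
    rw [hgd, cR_add hphi.1 hsumIB hgrIB, cR_sum hphi.1 I (fun n _ => hq n)]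
  have hPd : ∀ x, cR (chi ρ) g x = (∑ n ∈ I, cR (chi ρ) (q n) x) + cR (chi ρ) gr x := by
    intro x
    rw [hgd, cR_add (chi_int ρ) hsumIB hgrIB, cR_sum (chi_int ρ) I (fun n _ => hq n)]
  -- the three error bounds
  have hTr : ∫ x, cR (ph Ω ρ) gr x ^ 2 ≤ m ^ 2 * (Gs * G1) := by
    refine (cR_sq hphi.1 hgrIB hGs).trans ?_
    have e1 : (∫ s, |ph Ω ρ s|) ^ 2 ≤ m ^ 2 :=
      pow_le_pow_left₀ (integral_nonneg fun s => abs_nonneg _) (ph_l1 hΩ h1 hρ) 2
    exact mul_le_mul e1 (mul_le_mul_of_nonneg_left hG1 hGs')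
      (mul_nonneg hGs' (integral_nonneg fun s => abs_nonneg _)) (sq_nonneg _)
  have hPr : ∫ x, cR (chi ρ) gr x ^ 2 ≤ Gs * G1 := by
    refine (cR_sq (chi_int ρ) hgrIB hGs).trans ?_
    rw [chi_l1 hρ, one_pow, one_mul]
    exact mul_le_mul_of_nonneg_left hG1 hGs'
  have hPI : ∫ x, (∑ n ∈ I, cR (chi ρ) (q n) x) ^ 2 ≤ 1 / ρ * 1 * ∑ n ∈ I, B n ^ 2 := by
    refine sq_sum_bound (κ := fun n x => if |x - l n| ≤ ρ + ε then 1 / ρ else 0) (by positivity)
      (fun n _ => hB0 n) (fun n _ => cR_IB (chi_int ρ) (hq n)) (fun n _ x => ?_) (fun n hn x => ?_)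
      (Eventually.of_forall fun x => ?_) (fun n _ => ?_)
    · split_ifs
      · positivity
      · exact le_rfl
    · rw [cR_flip]
      by_cases hx : |x - l n| ≤ ρ + ε
      · rw [if_pos hx]
        show |∫ y, q n y * chi ρ (x - y)| ≤ (∫ y, |q n y|) * (1 / ρ)
        have h9 := norm_integral_le_of_norm_le (μ := volume) (f := fun y => q n y * chi ρ (x - y))
          (g := fun y => |q n y| * (1 / ρ)) ((hq n).1.abs.mul_const _)
          (Eventually.of_forall fun y => by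
            rw [norm_mul, Real.norm_eq_abs, Real.norm_eq_abs]
            exact mul_le_mul_of_nonneg_left (chi_abs_le hρ _) (abs_nonneg _))
        rw [integral_mul_const] at h9
        exact h9
      · rw [if_neg hx, mul_zero]
        have : ∫ y, q n y * chi ρ (x - y) = 0 := by
          rw [← integral_zero ℝ ℝ (μ := volume)]
          refine integral_congr_ae (Eventually.of_forall fun y => ?_)
          simp only
          by_cases hy : q n y = 0
          · rw [hy, zero_mul]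
          · have h3 := abs_le.1 (hsupp n hn y hy)
            unfold chi
            rw [indicator_of_notMem, mul_zero]
            intro h4
            apply hx
            rw [abs_le]
            constructor <;> linarith [h4.1, h4.2, h3.1, h3.2]
        rw [this, abs_zero]
    · by_cases hex : ∃ n ∈ I, |x - l n| ≤ ρ + ε
      · obtain ⟨n, hn, hnx⟩ := hex
        rw [Finset.sum_eq_single_of_mem n hn, if_pos hnx]
        intro k _ hkn
        rw [if_neg]
        intro hkx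
        have h5 : |l n - l k| < r := by
          have a1 := abs_le.1 hnx
          have a2 := abs_le.1 hkx
          rw [abs_lt]
          constructor <;> linarith
        have h6 := h.abs_lo hr n k
        have h7 : (1:ℝ) ≤ |(k:ℝ) - n| := by
          have : (1:ℤ) ≤ |k - n| := Int.one_le_abs (sub_ne_zero.2 hkn)
          exact_mod_cast this
        rw [abs_sub_comm (l k)] at h6
        nlinarith
      · push Not at hex
        rw [Finset.sum_eq_zero fun n hn => if_neg (not_le.2 (hex n hn))]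
        positivity
    · have := cR_l1 (chi_int ρ) (hq n)
      rw [chi_l1 hρ, one_mul] at this
      rw [mul_one]
      exact this
  have hE : ∫ x, (∑ n ∈ I, (cR (ph Ω ρ) (q n) x - b n * fI Ω (x - l n))) ^ 2 ≤
      3 * ω * ∑ n ∈ I, B n ^ 2 := by
    refine sq_sum_bound (κ := fun n x => 1 / ρ * (Hm (volume.restrict Ω) (x - l n + ε) -
        Hm (volume.restrict Ω) (x - l n - ρ - ε)) + fI Ω (x - l n)) (by norm_num)
      (fun n _ => hB0 n) (fun n _ => (cR_IB hphi.1 (hq n)).sub ((hfIB.shift (l n)).const_mul _))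
      (fun n _ x => ?_) (fun n hn x => ?_) ?_ (fun n hn => ?_)
    · have := hP.mono (show x - l n - ρ - ε ≤ x - l n + ε by linarith)
      have h3 : 0 ≤ Hm (volume.restrict Ω) (x - l n + ε) -
        Hm (volume.restrict Ω) (x - l n - ρ - ε) := sub_nonneg.2 this
      have := fI_nonneg Ω (x - l n)
      positivity
    · exact E_point hΩ h1 hρ (hq n) (hsupp n hn) x
    · filter_upwards [hae] with x hx
      rw [Finset.sum_add_distrib, ← Finset.mul_sum]
      have h3 := (sum_disj hx I (fun _ => 0)).2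
      have ht := h.tile (x - ρ - ε) (x + ε) (by linarith)
      have h4 : ∑ n ∈ I, (Hm (volume.restrict Ω) (x - l n + ε) -
          Hm (volume.restrict Ω) (x - l n - ρ - ε)) ≤ (x + ε) - (x - ρ - ε) := by
        refine le_trans (le_of_eq ?_) (sum_le_hasSum I (fun n _ => ?_) ht)
        · refine Finset.sum_congr rfl fun n _ => ?_
          rw [show x - l n + ε = x + ε - l n by ring, show x - l n - ρ - ε = x - ρ - ε - l n by ring]
        · exact sub_nonneg.2 (hP.mono (by linarith))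
      have h5 : 1 / ρ * ∑ n ∈ I, (Hm (volume.restrict Ω) (x - l n + ε) -
          Hm (volume.restrict Ω) (x - l n - ρ - ε)) ≤ 2 := by
        rw [one_div, inv_mul_le_iff₀ hρ]
        linarith
      linarith
    · exact E_l1 hΩ h1 hρ hω0 hω (hqm n) (hq n) hε (hsupp n hn)
  -- `F`
  have hF : ∫ x, (∑ n ∈ I, b n * fI Ω (x - l n)) ^ 2 = m * S := by
    have e1 : ∫ x, (∑ n ∈ I, b n * fI Ω (x - l n)) ^ 2 = ∫ x, ∑ n ∈ I, b n ^ 2 * fI Ω (x - l n) := by
      refine integral_congr_ae ?_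
      filter_upwards [hae] with x hx
      exact (sum_disj hx I b).1
    rw [e1, integral_finsetSum I fun n _ => (hfIB.shift (l n)).1.const_mul _]
    rw [hS, Finset.mul_sum]
    refine Finset.sum_congr rfl fun n _ => ?_
    rw [integral_const_mul, integral_sub_right_eq_self (fun x => fI Ω x) (l n), fI_integral hΩ, ← hm]
    ring
  -- `T`
  have hTT : ∫ x, cR (ph Ω ρ) g x ^ 2 ≤ τ ^ 2 * ∫ x, cR (chi ρ) g x ^ 2 :=
    L2_real (f := fI Ω) (Bχ := 1 / ρ) (Bφ := 1) hfIB.1 (chi_int ρ) (chi_abs_le hρ) hgm hgIB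
      (ph_eq hΩ h1 hρ) (ph_cont h1 ρ) (fun x => by
        rw [abs_of_nonneg (ph_nonneg h1 hρ x)]; exact ph_le_one h1 hρ x) hFT hτ0
  have hPP : ∫ x, cR (chi ρ) g x ^ 2 ≤ 2 * (1 / ρ * S) + 2 * (Gs * G1) := by
    have hI1 : IB (fun x => ∑ n ∈ I, cR (chi ρ) (q n) x) :=
      IB.sum I fun n _ => cR_IB (chi_int ρ) (hq n)
    have hI2 : IB (cR (chi ρ) gr) := cR_IB (chi_int ρ) hgrIB
    have e1 : ∫ x, cR (chi ρ) g x ^ 2 ≤ ∫ x, (2 * (∑ n ∈ I, cR (chi ρ) (q n) x) ^ 2 +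
        2 * cR (chi ρ) gr x ^ 2) := by
      refine integral_mono (cR_IB (chi_int ρ) hgIB).sq
        ((hI1.sq.const_mul 2).add (hI2.sq.const_mul 2)) (fun x => ?_)
      simp only
      rw [hPd x]
      nlinarith [sq_nonneg ((∑ n ∈ I, cR (chi ρ) (q n) x) - cR (chi ρ) gr x)]
    rw [integral_add (hI1.sq.const_mul 2) (hI2.sq.const_mul 2), integral_const_mul,
      integral_const_mul] at e1
    rw [hSB, mul_one] at hPI
    linarith
  -- assemble
  have hmain : m * S ≤ 3 * (∫ x, cR (ph Ω ρ) g x ^ 2) + 3 * (∫ x, cR (ph Ω ρ) gr x ^ 2) +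
      3 * ∫ x, (∑ n ∈ I, (cR (ph Ω ρ) (q n) x - b n * fI Ω (x - l n))) ^ 2 := by
    have hI1 : IB (cR (ph Ω ρ) g) := cR_IB hphi.1 hgIB
    have hI2 : IB (cR (ph Ω ρ) gr) := cR_IB hphi.1 hgrIB
    have hI3 : IB (fun x => ∑ n ∈ I, (cR (ph Ω ρ) (q n) x - b n * fI Ω (x - l n))) :=
      IB.sum I fun n _ => (cR_IB hphi.1 (hq n)).sub ((hfIB.shift (l n)).const_mul _)
    have hI4 : IB (fun x => ∑ n ∈ I, b n * fI Ω (x - l n)) :=
      IB.sum I fun n _ => (hfIB.shift (l n)).const_mul _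
    rw [← hF]
    have e1 : ∫ x, (∑ n ∈ I, b n * fI Ω (x - l n)) ^ 2 ≤ ∫ x, ((3 * cR (ph Ω ρ) g x ^ 2 +
        3 * cR (ph Ω ρ) gr x ^ 2) +
        3 * (∑ n ∈ I, (cR (ph Ω ρ) (q n) x - b n * fI Ω (x - l n))) ^ 2) := by
      refine integral_mono hI4.sq (((hI1.sq.const_mul 3).add (hI2.sq.const_mul 3)).add
        (hI3.sq.const_mul 3)) (fun x => ?_)
      simp only
      have e2 : ∑ n ∈ I, b n * fI Ω (x - l n) = cR (ph Ω ρ) g x - cR (ph Ω ρ) gr x -
          ∑ n ∈ I, (cR (ph Ω ρ) (q n) x - b n * fI Ω (x - l n)) := by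
        rw [hTd x, Finset.sum_sub_distrib]; ring
      rw [e2]
      nlinarith [sq_nonneg (cR (ph Ω ρ) g x + cR (ph Ω ρ) gr x),
        sq_nonneg (cR (ph Ω ρ) g x + ∑ n ∈ I, (cR (ph Ω ρ) (q n) x - b n * fI Ω (x - l n))),
        sq_nonneg (cR (ph Ω ρ) gr x - ∑ n ∈ I, (cR (ph Ω ρ) (q n) x - b n * fI Ω (x - l n)))]
    have i12 : Integrable (fun x => 3 * cR (ph Ω ρ) g x ^ 2 + 3 * cR (ph Ω ρ) gr x ^ 2) :=
      (hI1.sq.const_mul 3).add (hI2.sq.const_mul 3)
    rw [integral_add i12 (hI3.sq.const_mul 3),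
      integral_add (hI1.sq.const_mul 3) (hI2.sq.const_mul 3), integral_const_mul,
      integral_const_mul, integral_const_mul] at e1
    exact e1
  rw [hSB] at hE
  have hS0 : 0 ≤ S := Finset.sum_nonneg fun n _ => sq_nonneg _
  have f1 := mul_le_mul_of_nonneg_left hPP (sq_nonneg τ)
  have f2 : 9 * ω * S ≤ m / 4 * S := mul_le_mul_of_nonneg_right hc1 hS0
  have f3 : 6 * τ ^ 2 / ρ * S ≤ m / 4 * S := mul_le_mul_of_nonneg_right hc2 hS0
  have f4 : 3 * (τ ^ 2 * (2 * (1 / ρ * S) + 2 * (Gs * G1))) =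
      6 * τ ^ 2 / ρ * S + 6 * τ ^ 2 * (Gs * G1) := by
    field_simp
    ring
  nlinarith [hTT, hTr, hE, hmain, f1, f2, f3, f4]

end Pool.Agent.L5helper94.TF
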